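import Pool.Agent.Lib.MP_f973c6_al.Defs

/-! Part B1: if the commutator subgroup shrinks into the half space then the half space is
connected. -/

set_option autoImplicit false

open scoped commutatorElement

namespace Pool.Agent.FPm

variable {G : Type} [Group G]

/-- One step inside the half space. -/
def St (Ω : Finset G) (χ : G → ℝ) (g h : G) : Prop := 0 ≤ χ g ∧ 0 ≤ χ h ∧ ∃ s ∈ Ω, h = g * s

/-- Connectivity inside the half space. -/
abbrev Ec (Ω : Finset G) (χ : G → ℝ) : G → G → Prop := Relation.EqvGen (St Ω χ)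

theorem Ec.iff {Ω : Finset G} {χ : G → ℝ} {g h : G} (hE : Ec Ω χ g h) : 0 ≤ χ g ↔ 0 ≤ χ h := by
  induction hE with
  | rel g h hs => exact ⟨fun _ => hs.2.1, fun _ => hs.1⟩
  | refl g => exact Iff.rfl
  | symm g h _ ih => exact ih.symm
  | trans g h k _ _ ih1 ih2 => exact ih1.trans ih2

theorem Ec.reach {Ω : Finset G} {χ : G → ℝ} {g h : G} (hE : Ec Ω χ g h) :
    ∀ (hg : 0 ≤ χ g) (hh : 0 ≤ χ h),
      (SimpleGraph.induce {g : G | 0 ≤ χ g}
        (SimpleGraph.fromRel (fun g h : G => ∃ s ∈ Ω, h = g * s))).Reachable ⟨g, hg⟩ ⟨h, hh⟩ := by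
  induction hE with
  | rel g h hs =>
    intro hg hh
    by_cases hgh : g = h
    · subst hgh; exact SimpleGraph.Reachable.refl _
    · apply SimpleGraph.Adj.reachable
      rw [SimpleGraph.comap_adj, SimpleGraph.fromRel_adj]
      exact ⟨hgh, Or.inl hs.2.2⟩
  | refl g => intro hg hh; exact SimpleGraph.Reachable.refl _
  | symm g h _ ih => intro hg hh; exact (ih hh hg).symm
  | trans g h k h1 h2 ih1 ih2 =>
    intro hg hk
    have hh : 0 ≤ χ h := (Ec.iff h1).1 hg
    exact (ih1 hg hh).trans (ih2 hh hk)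

theorem Ec.mul_left {Ω : Finset G} {χ : G → ℝ} (hχ : ∀ g h, χ (g * h) = χ g + χ h) {g h : G}
    (hE : Ec Ω χ g h) {u : G} (hu : χ u = 0) : Ec Ω χ (u * g) (u * h) := by
  induction hE with
  | rel g h hs =>
    obtain ⟨h1, h2, s, hs, rfl⟩ := hs
    refine Relation.EqvGen.rel _ _ ⟨?_, ?_, s, hs, by group⟩
    · rw [hχ, hu, zero_add]; exact h1
    · rw [hχ, hu, zero_add]; exact h2
  | refl g => exact Relation.EqvGen.refl _
  | symm g h _ ih => exact ih.symm
  | trans g h k _ _ ih1 ih2 => exact ih1.trans _ _ _ ih2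

/-- A normal subgroup containing the commutators of generators contains the commutator subgroup. -/
theorem commutator_le_of_gen (Ω : Set G) (hΩ : Subgroup.closure Ω = ⊤) (N : Subgroup G) [N.Normal]
    (h : ∀ w ∈ Ω, ∀ w' ∈ Ω, ⁅w, w'⁆ ∈ N) : commutator G ≤ N := by
  have key : ∀ g h : G, Commute (QuotientGroup.mk' N g) (QuotientGroup.mk' N h) := by
    have h0 : ∀ w ∈ Ω, ∀ w' ∈ Ω, Commute (QuotientGroup.mk' N w) (QuotientGroup.mk' N w') := by
      intro w hw w' hw'
      have h1 : (QuotientGroup.mk' N ⁅w, w'⁆) = 1 := (QuotientGroup.eq_one_iff _).2 (h w hw w' hw')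
      rw [map_commutatorElement, commutatorElement_eq_one_iff_mul_comm] at h1
      exact h1
    have h1 : ∀ g : G, ∀ w' ∈ Ω, Commute (QuotientGroup.mk' N g) (QuotientGroup.mk' N w') := by
      intro g w' hw'
      have hg : g ∈ Subgroup.closure Ω := by rw [hΩ]; trivial
      induction hg using Subgroup.closure_induction with
      | mem x hx => exact h0 x hx w' hw'
      | one => rw [map_one]; exact Commute.one_left _
      | mul x y _ _ hx hy => rw [map_mul]; exact hx.mul_left hy
      | inv x _ hx => rw [map_inv]; exact hx.inv_left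
    intro g h
    have hh : h ∈ Subgroup.closure Ω := by rw [hΩ]; trivial
    induction hh using Subgroup.closure_induction with
    | mem x hx => exact h1 g x hx
    | one => rw [map_one]; exact Commute.one_right _
    | mul x y _ _ hx hy => rw [map_mul]; exact hx.mul_right hy
    | inv x _ hx => rw [map_inv]; exact hx.inv_right
  rw [commutator_def, Subgroup.commutator_le]
  intro g _ h _
  have h1 : (QuotientGroup.mk' N ⁅g, h⁆) = 1 := by
    rw [map_commutatorElement, commutatorElement_eq_one_iff_mul_comm]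
    exact key g h
  exact (QuotientGroup.eq_one_iff _).1 h1

section

variable {Ω : Finset G} {χ : G → ℝ}

theorem chi_one (hχ : ∀ g h, χ (g * h) = χ g + χ h) : χ 1 = 0 := by
  have := hχ 1 1
  rw [mul_one] at this
  linarith

theorem chi_inv (hχ : ∀ g h, χ (g * h) = χ g + χ h) (g : G) : χ g⁻¹ = -χ g := by
  have := hχ g g⁻¹
  rw [mul_inv_cancel, chi_one hχ] at this
  linarith

theorem chi_comm (hχ : ∀ g h, χ (g * h) = χ g + χ h) {a : G} (ha : a ∈ commutator G) :
    χ a = 0 := by
  let f : G →* Multiplicative ℝ :=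
    { toFun := fun g => Multiplicative.ofAdd (χ g)
      map_one' := by rw [chi_one hχ]; rfl
      map_mul' := fun g h => by rw [hχ g h]; rfl }
  have hle : commutator G ≤ f.ker := Abelianization.commutator_subset_ker f
  exact hle ha

/-- The swap trick. -/
theorem swap (hχ : ∀ g h, χ (g * h) = χ g + χ h)
    (hΩ : Subgroup.closure (Ω : Set G) = ⊤) (u : G) :
    ∀ g, 0 ≤ χ g → 0 ≤ χ (g * u) → ∃ b ∈ commutator G, Ec Ω χ g (b * g * u) := by
  have hu : u ∈ Subgroup.closure (Ω : Set G) := by rw [hΩ]; trivial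
  induction hu using Subgroup.closure_induction with
  | mem w hw =>
    intro g hg hgw
    exact ⟨1, Subgroup.one_mem _, Relation.EqvGen.rel _ _ ⟨hg, by simpa using hgw, w, hw, by simp⟩⟩
  | one =>
    intro g hg _
    exact ⟨1, Subgroup.one_mem _, by rw [one_mul, mul_one]; exact Relation.EqvGen.refl g⟩
  | mul u v _ _ hu hv =>
    intro g hg hguv
    rw [← mul_assoc] at hguv
    by_cases h : 0 ≤ χ (g * u)
    · obtain ⟨b, hb, hE⟩ := hu g hg h
      have hb0 := chi_comm hχ hb
      obtain ⟨b', hb', hE'⟩ := hv (b * g * u)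
        (by rw [mul_assoc, hχ, hb0, zero_add]; exact h)
        (by rw [mul_assoc, mul_assoc, hχ, hb0, zero_add, ← mul_assoc]; exact hguv)
      refine ⟨b' * b, Subgroup.mul_mem _ hb' hb, hE.trans _ _ _ ?_⟩
      have h2 : b' * b * g * (u * v) = b' * (b * g * u) * v := by group
      rw [← h2] at hE'
      have h3 : b' * b * g * (u * v) = b' * b * g * (u * v) := rfl
      exact hE'
    · push Not at h
      have hgv : 0 ≤ χ (g * v) := by
        rw [hχ, hχ] at hguv
        rw [hχ] at h ⊢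
        linarith
      obtain ⟨b, hb, hE⟩ := hv g hg hgv
      have hb0 := chi_comm hχ hb
      obtain ⟨b', hb', hE'⟩ := hu (b * g * v)
        (by rw [mul_assoc, hχ, hb0, zero_add]; exact hgv)
        (by
          rw [hχ, hχ, hχ, hb0]
          rw [hχ, hχ] at hguv
          linarith)
      refine ⟨b' * b * (g * ⁅v, u⁆ * g⁻¹), Subgroup.mul_mem _ (Subgroup.mul_mem _ hb' hb) ?_,
        hE.trans _ _ _ ?_⟩
      · exact (inferInstance : (commutator G).Normal).conj_mem _
          (Subgroup.commutator_mem_commutator (Subgroup.mem_top _) (Subgroup.mem_top _)) _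
      · convert hE' using 1
        rw [commutatorElement_def]
        group
  | inv u _ hu =>
    intro g hg hgu
    obtain ⟨b, hb, hE⟩ := hu (g * u⁻¹) hgu (by simpa using hg)
    have hb0 : χ b⁻¹ = 0 := by rw [chi_inv hχ, chi_comm hχ hb, neg_zero]
    refine ⟨b⁻¹, Subgroup.inv_mem _ hb, ?_⟩
    have h1 := (hE.mul_left hχ hb0).symm
    convert h1 using 1 <;> group

theorem conj_lemma (hχ : ∀ g h, χ (g * h) = χ g + χ h)
    (hΩ : Subgroup.closure (Ω : Set G) = ⊤)
    (hmet : ∀ a ∈ commutator G, ∀ b ∈ commutator G, a * b = b * a) {a g : G}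
    (ha : a ∈ commutator G) (hg : 0 ≤ χ g) (hE : Ec Ω χ g (a * g)) : Ec Ω χ 1 a := by
  obtain ⟨b, hb, h1⟩ := swap hχ hΩ g 1 (by rw [chi_one hχ]) (by simpa using hg)
  have hb0 : χ b = 0 := chi_comm hχ hb
  have hbi : χ b⁻¹ = 0 := by rw [chi_inv hχ, hb0, neg_zero]
  have ha0 : χ a = 0 := chi_comm hχ ha
  -- E b⁻¹ g
  have h2 : Ec Ω χ b⁻¹ g := by
    have := h1.mul_left hχ hbi
    convert this using 1 <;> group
  have h3 : Ec Ω χ (a * b⁻¹) (a * g) := h2.mul_left hχ ha0
  have h4 : Ec Ω χ b⁻¹ (a * b⁻¹) := (h2.trans _ _ _ hE).trans _ _ _ h3.symm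
  have h5 := h4.mul_left hχ hb0
  have h6 : b * (a * b⁻¹) = a := by
    rw [← mul_assoc, ← hmet a ha b hb]
    group
  rw [h6, mul_inv_cancel] at h5
  exact h5

/-- Elements of the commutator subgroup connected to `1`. -/
def A0 (Ω : Finset G) (χ : G → ℝ) (hχ : ∀ g h, χ (g * h) = χ g + χ h) : Subgroup G where
  carrier := {a | a ∈ commutator G ∧ Ec Ω χ 1 a}
  one_mem' := ⟨Subgroup.one_mem _, Relation.EqvGen.refl _⟩
  mul_mem' := by
    rintro a b ⟨ha, hea⟩ ⟨hb, heb⟩
    refine ⟨Subgroup.mul_mem _ ha hb, hea.trans _ _ _ ?_⟩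
    have := heb.mul_left hχ (chi_comm hχ ha)
    rwa [mul_one] at this
  inv_mem' := by
    rintro a ⟨ha, hea⟩
    refine ⟨Subgroup.inv_mem _ ha, ?_⟩
    have := hea.mul_left hχ (u := a⁻¹) (by rw [chi_inv hχ, chi_comm hχ ha, neg_zero])
    rw [mul_one, inv_mul_cancel] at this
    exact this.symm

theorem mem_A0_of_step (hχ : ∀ g h, χ (g * h) = χ g + χ h)
    (hΩ : Subgroup.closure (Ω : Set G) = ⊤)
    (hmet : ∀ a ∈ commutator G, ∀ b ∈ commutator G, a * b = b * a) {s g : G} (hs : s ∈ Ω)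
    (hsA : s ∈ commutator G) (hg : 0 ≤ χ g) : g * s * g⁻¹ ∈ A0 Ω χ hχ := by
  have hA : g * s * g⁻¹ ∈ commutator G :=
    (inferInstance : (commutator G).Normal).conj_mem _ hsA _
  refine ⟨hA, conj_lemma hχ hΩ hmet hA hg ?_⟩
  refine Relation.EqvGen.rel _ _ ⟨hg, ?_, s, hs, by group⟩
  rw [hχ, chi_comm hχ hA, zero_add]
  exact hg

end

theorem b1 (hfg : Group.FG G)
    (hmet : ∀ a ∈ commutator G, ∀ b ∈ commutator G, a * b = b * a)
    (χ : Additive G →+ ℝ)
    (h : (∀ g : G, χ (Additive.ofMul g) = 0) ∨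
      ∃ δ : ℝ, 0 < δ ∧ ∀ a ∈ commutator G, a ∈ Subgroup.closure
        {x : G | ∃ h : G, δ ≤ χ (Additive.ofMul h) ∧ x = h * a * h⁻¹}) : ¬ NS χ := by
  classical
  intro hNS
  apply hNS
  obtain ⟨Ω0, hΩ0⟩ := hfg.out
  set S : Finset G := (Ω0 ×ˢ Ω0).image (fun p => ⁅p.1, p.2⁆) with hSdef
  set Ω := Ω0 ∪ S with hΩdef
  have hΩ : Subgroup.closure (Ω : Set G) = ⊤ := by
    rw [eq_top_iff, ← hΩ0]
    apply Subgroup.closure_mono
    rw [hΩdef]
    push_cast
    exact Set.subset_union_left
  refine ⟨Ω, hΩ, ?_⟩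
  set c : G → ℝ := fun g => χ (Additive.ofMul g) with hc
  have hχ : ∀ g h, c (g * h) = c g + c h := fun g h => by
    simp only [hc, ofMul_mul, map_add]
  have hSA : ∀ s ∈ S, s ∈ commutator G := by
    intro s hs
    rw [hSdef, Finset.mem_image] at hs
    obtain ⟨p, _, rfl⟩ := hs
    exact Subgroup.commutator_mem_commutator (Subgroup.mem_top _) (Subgroup.mem_top _)
  have hall : ∀ s ∈ S, ∀ g : G, g * s * g⁻¹ ∈ A0 Ω c hχ := by
    intro s hs
    have hsΩ : s ∈ Ω := Finset.mem_union_right _ hs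
    rcases h with h | ⟨δ, hδ, h⟩
    · intro g
      exact mem_A0_of_step hχ hΩ hmet hsΩ (hSA s hs) (le_of_eq (h g).symm)
    · have hind : ∀ n : ℕ, ∀ g : G, -(n : ℝ) * δ ≤ c g → g * s * g⁻¹ ∈ A0 Ω c hχ := by
        intro n
        induction n with
        | zero =>
          intro g hg
          exact mem_A0_of_step hχ hΩ hmet hsΩ (hSA s hs) (by simpa using hg)
        | succ n ih =>
          intro g hg
          have hA : g * s * g⁻¹ ∈ commutator G :=
            (inferInstance : (commutator G).Normal).conj_mem _ (hSA s hs) _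
          refine (Subgroup.closure_le _).2 ?_ (h _ hA)
          rintro x ⟨k, hk, rfl⟩
          have h1 := ih (k * g) (by
            rw [hχ]
            push_cast at hg
            have hk' : δ ≤ c k := hk
            nlinarith)
          have h2 : k * (g * s * g⁻¹) * k⁻¹ = k * g * s * (k * g)⁻¹ := by group
          rw [h2]
          exact h1
      intro g
      obtain ⟨n, hn⟩ := exists_nat_ge (-c g / δ)
      refine hind n g ?_
      rw [div_le_iff₀ hδ] at hn
      linarith
  have hle : commutator G ≤ A0 Ω c hχ := by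
    have h1 : commutator G ≤ Subgroup.normalClosure (S : Set G) := by
      apply commutator_le_of_gen (Ω0 : Set G) hΩ0
      intro w hw w' hw'
      apply Subgroup.subset_normalClosure
      rw [hSdef]
      simp only [Finset.coe_image, Set.mem_image, Finset.mem_coe, Finset.mem_product]
      exact ⟨(w, w'), ⟨hw, hw'⟩, rfl⟩
    refine h1.trans ?_
    unfold Subgroup.normalClosure
    rw [Subgroup.closure_le]
    intro x hx
    rw [Group.mem_conjugatesOfSet_iff] at hx
    obtain ⟨s, hs, hx⟩ := hx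
    rw [isConj_iff] at hx
    obtain ⟨g, rfl⟩ := hx
    exact hall s hs g
  have hE : ∀ g, 0 ≤ c g → Ec Ω c 1 g := by
    intro g hg
    obtain ⟨b, hb, h1⟩ := swap hχ hΩ g 1 (by rw [chi_one hχ]) (by simpa using hg)
    have hbi : c b⁻¹ = 0 := by rw [chi_inv hχ, chi_comm hχ hb, neg_zero]
    have h2 : Ec Ω c b⁻¹ g := by
      have := h1.mul_left hχ hbi
      convert this using 1 <;> group
    exact ((hle (Subgroup.inv_mem _ hb)).2).trans _ _ _ h2
  have h1 : (0 : ℝ) ≤ c 1 := by rw [chi_one hχ]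
  have : Nonempty {g : G | 0 ≤ χ (Additive.ofMul g)} := ⟨⟨1, h1⟩⟩
  refine SimpleGraph.Connected.mk ?_
  rintro ⟨g, hg⟩ ⟨k, hk⟩
  exact ((hE g hg).reach h1 hg).symm.trans ((hE k hk).reach h1 hk)

end Pool.Agent.FPm
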