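import Mathlib

/-! Part B2 and B3: commutative algebra for group rings of finitely generated abelian groups. -/

set_option autoImplicit false
set_option linter.unusedSectionVars false

open MonoidAlgebra

namespace Pool.Agent.FPm

section supp

variable {Q : Type*} [Mul Q]

theorem supp_mul {f g : MonoidAlgebra ℤ Q} {q : Q} (h : (f * g).coeff q ≠ 0) :
    ∃ a b, f.coeff a ≠ 0 ∧ g.coeff b ≠ 0 ∧ q = a * b := by
  classical
  have h1 : q ∈ (f * g).coeff.support := Finsupp.mem_support_iff.2 h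
  have h2 := MonoidAlgebra.support_coeff_mul_subset f g h1
  obtain ⟨a, ha, b, hb, rfl⟩ := Finset.mem_mul.1 h2
  exact ⟨a, b, Finsupp.mem_support_iff.1 ha, Finsupp.mem_support_iff.1 hb, rfl⟩

theorem supp_sum {ι : Type*} {s : Finset ι} {f : ι → MonoidAlgebra ℤ Q} {q : Q}
    (h : (∑ i ∈ s, f i).coeff q ≠ 0) : ∃ i ∈ s, (f i).coeff q ≠ 0 := by
  by_contra hcon
  push Not at hcon
  apply h
  rw [coeff_sum, Finsupp.finsetSum_apply]
  exact Finset.sum_eq_zero hcon

end supp

section lev

variable {Q : Type} [CommGroup Q]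

open Classical in
/-- The part of level zero. -/
noncomputable def lev0 (χ : Q → ℝ) (f : MonoidAlgebra ℤ Q) : MonoidAlgebra ℤ Q :=
  ofCoeff (f.coeff.filter (fun q => χ q = 0))

open Classical in
theorem coeff_lev0 (χ : Q → ℝ) (f : MonoidAlgebra ℤ Q) (q : Q) :
    (lev0 χ f).coeff q = if χ q = 0 then f.coeff q else 0 := by
  simp [lev0, Finsupp.filter_apply]

theorem lev0_add (χ : Q → ℝ) (f g : MonoidAlgebra ℤ Q) :
    lev0 χ (f + g) = lev0 χ f + lev0 χ g := by
  classical
  ext q
  rw [coeff_add, Finsupp.add_apply, coeff_lev0, coeff_lev0, coeff_lev0, coeff_add,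
    Finsupp.add_apply]
  split_ifs <;> simp

theorem lev0_zero (χ : Q → ℝ) : lev0 χ (0 : MonoidAlgebra ℤ Q) = 0 := by
  classical
  ext q
  rw [coeff_lev0]
  simp

theorem lev0_sum {ι : Type*} (χ : Q → ℝ) (s : Finset ι) (f : ι → MonoidAlgebra ℤ Q) :
    lev0 χ (∑ i ∈ s, f i) = ∑ i ∈ s, lev0 χ (f i) := by
  classical
  induction s using Finset.induction_on with
  | empty => simp [lev0_zero]
  | insert a s ha ih => rw [Finset.sum_insert ha, Finset.sum_insert ha, lev0_add, ih]

theorem lev0_eq_self {χ : Q → ℝ} {f : MonoidAlgebra ℤ Q} (h : ∀ q, f.coeff q ≠ 0 → χ q = 0) :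
    lev0 χ f = f := by
  classical
  ext q
  rw [coeff_lev0]
  split_ifs with hq
  · rfl
  · by_contra hcon
    exact hq (h q (Ne.symm hcon))

theorem lev0_eq_zero {χ : Q → ℝ} {f : MonoidAlgebra ℤ Q} (h : ∀ q, f.coeff q ≠ 0 → χ q ≠ 0) :
    lev0 χ f = 0 := by
  classical
  ext q
  rw [coeff_lev0]
  split_ifs with hq
  · by_contra hcon
    exact h q hcon hq
  · rfl

theorem lev0_mul {χ : Q → ℝ} (hχ : ∀ a b, χ (a * b) = χ a + χ b) (f g : MonoidAlgebra ℤ Q)
    (hg : ∀ q, g.coeff q ≠ 0 → χ q = 0) : lev0 χ (f * g) = lev0 χ f * g := by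
  classical
  induction f using MonoidAlgebra.induction_linear with
  | zero => simp [lev0_zero]
  | add f f' hf hf' => rw [add_mul, lev0_add, hf, hf', lev0_add, add_mul]
  | single a r =>
    by_cases ha : χ a = 0
    · rw [lev0_eq_self, lev0_eq_self]
      · intro q hq
        have : q = a := by
          by_contra hne
          apply hq
          rw [coeff_single, Finsupp.single_eq_of_ne hne]
        rw [this]; exact ha
      · intro q hq
        obtain ⟨x, y, hx, hy, rfl⟩ := supp_mul hq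
        have : x = a := by
          by_contra hne
          apply hx
          rw [coeff_single, Finsupp.single_eq_of_ne hne]
        rw [hχ, this, ha, hg y hy, add_zero]
    · rw [lev0_eq_zero, lev0_eq_zero, zero_mul]
      · intro q hq
        have : q = a := by
          by_contra hne
          apply hq
          rw [coeff_single, Finsupp.single_eq_of_ne hne]
        rw [this]; exact ha
      · intro q hq
        obtain ⟨x, y, hx, hy, rfl⟩ := supp_mul hq
        have : x = a := by
          by_contra hne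
          apply hx
          rw [coeff_single, Finsupp.single_eq_of_ne hne]
        rw [hχ, this, hg y hy, add_zero]
        exact ha

end lev

/-- `f = 1 +` terms of positive level. -/
def OnePlus {Q : Type} [CommGroup Q] (χ : Q → ℝ) (f : MonoidAlgebra ℤ Q) : Prop :=
  ∀ q, (f - 1).coeff q ≠ 0 → 0 < χ q

theorem coeff_one_ne {Q : Type} [CommGroup Q] {q : Q} (h : q ≠ 1) :
    (1 : MonoidAlgebra ℤ Q).coeff q = 0 := by
  rw [one_def, coeff_single, Finsupp.single_eq_of_ne h]

theorem b2 {Q : Type} [CommGroup Q] [Monoid.FG Q] (J : Ideal (MonoidAlgebra ℤ Q)) (χ : Q → ℝ)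
    (hχ : ∀ a b, χ (a * b) = χ a + χ b) (ht : ∃ t, 0 < χ t) (hAS : ¬ ∃ f ∈ J, OnePlus χ f) :
    ∃ P : Finset Q, (∀ p ∈ P, 0 < χ p) ∧ ∀ χ' : Q → ℝ, (∀ a b, χ' (a * b) = χ' a + χ' b) →
      (∀ q, χ q = 0 → χ' q = 0) → (∀ p ∈ P, 0 < χ' p) →
        (∃ t, 0 < χ' t) ∧ ¬ ∃ f ∈ J, OnePlus χ' f := by
  classical
  have : IsNoetherianRing (MonoidAlgebra ℤ Q) := Algebra.FiniteType.isNoetherianRing ℤ _
  have hχ1 : χ 1 = 0 := by
    have := hχ 1 1
    rw [mul_one] at this
    linarith
  have hχi : ∀ q, χ q⁻¹ = -χ q := by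
    intro q
    have := hχ q q⁻¹
    rw [mul_inv_cancel, hχ1] at this
    linarith
  set L : Set (MonoidAlgebra ℤ Q) := {ℓ | (∀ q, ℓ.coeff q ≠ 0 → χ q = 0) ∧
    ∃ g ∈ J, ∀ q, (g - ℓ).coeff q ≠ 0 → 0 < χ q} with hL
  obtain ⟨T, hTL, hT⟩ := (Submodule.fg_span_iff_fg_span_finset_subset L).1
    (IsNoetherian.noetherian (Submodule.span (MonoidAlgebra ℤ Q) L))
  have hTL' : ∀ ℓ ∈ T, ∃ g ∈ J, ∀ q, (g - ℓ).coeff q ≠ 0 → 0 < χ q := fun ℓ hℓ => (hTL hℓ).2
  choose! g hgJ hg using hTL'
  obtain ⟨t, ht⟩ := ht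
  set P : Finset Q := insert t (T.biUnion (fun ℓ => (g ℓ - ℓ).coeff.support)) with hP
  have hPpos : ∀ p ∈ P, 0 < χ p := by
    intro p hp
    rw [hP, Finset.mem_insert, Finset.mem_biUnion] at hp
    rcases hp with rfl | ⟨ℓ, hℓ, hp⟩
    · exact ht
    · exact hg ℓ hℓ p (Finsupp.mem_support_iff.1 hp)
  have htP : t ∈ P := Finset.mem_insert_self _ _
  refine ⟨P, hPpos, fun χ' hχ' h0 hpos => ⟨⟨t, hpos t htP⟩, ?_⟩⟩
  rintro ⟨h, hhJ, hhX⟩
  have hχ'1 : χ' 1 = 0 := h0 1 hχ1
  -- the minimum of χ on P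
  obtain ⟨p0, hp0, hp0min⟩ := P.exists_min_image χ ⟨t, htP⟩
  set δ := χ p0 with hδ
  have hδ0 : 0 < δ := hPpos p0 hp0
  -- basic reduction step
  have step : ∀ (v : ℝ) (h : MonoidAlgebra ℤ Q), v < 0 → h ∈ J → OnePlus χ' h →
      (∀ q, h.coeff q ≠ 0 → v ≤ χ q) → (∃ q, h.coeff q ≠ 0 ∧ χ q = v) →
      ∃ h' ∈ J, OnePlus χ' h' ∧
        ∀ q, h'.coeff q ≠ 0 → (h.coeff q ≠ 0 ∧ χ q ≠ v) ∨ v + δ ≤ χ q := by
    rintro v h hv hJ hX hmin ⟨q0, hq0, hq0v⟩
    set k := single q0⁻¹ (1 : ℤ) * h with hk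
    have hkc : ∀ q, k.coeff q = h.coeff (q0 * q) := by
      intro q
      rw [hk, coeff_single_mul_apply]
      simp
    have hkJ : k ∈ J := J.mul_mem_left _ hJ
    set f0 := lev0 χ k with hf0
    have hf0L : f0 ∈ L := by
      refine ⟨?_, k, hkJ, ?_⟩
      · intro q hq
        rw [hf0, coeff_lev0] at hq
        by_contra hne
        rw [if_neg hne] at hq
        exact hq rfl
      · intro q hq
        rw [coeff_sub, Finsupp.sub_apply, hf0, coeff_lev0] at hq
        split_ifs at hq with h1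
        · exact absurd (sub_self _) hq
        · rw [sub_zero, hkc] at hq
          have h2 := hmin _ hq
          rw [hχ, hq0v] at h2
          exact lt_of_le_of_ne (by linarith) (Ne.symm h1)
    have hf0T : f0 ∈ Submodule.span (MonoidAlgebra ℤ Q) (T : Set (MonoidAlgebra ℤ Q)) := by
      rw [← hT]; exact Submodule.subset_span hf0L
    obtain ⟨b, _, hb⟩ := Submodule.mem_span_finset.1 hf0T
    have hb' : f0 = ∑ ℓ ∈ T, lev0 χ (b ℓ) * ℓ := by
      have h1 : lev0 χ f0 = f0 := lev0_eq_self hf0L.1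
      rw [← h1, ← hb, lev0_sum]
      refine Finset.sum_congr rfl fun ℓ hℓ => ?_
      rw [smul_eq_mul, lev0_mul hχ _ _ (hTL hℓ).1]
    set w := ∑ ℓ ∈ T, lev0 χ (b ℓ) * (g ℓ - ℓ) with hw
    have hwc : ∀ q, w.coeff q ≠ 0 → ∃ a, χ a = 0 ∧ ∃ p ∈ P, q = a * p := by
      intro q hq
      obtain ⟨ℓ, hℓ, hq⟩ := supp_sum hq
      obtain ⟨a, p, ha, hp, rfl⟩ := supp_mul hq
      refine ⟨a, ?_, p, ?_, rfl⟩
      · rw [coeff_lev0] at ha
        by_contra hne
        rw [if_neg hne] at ha
        exact ha rfl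
      · rw [hP, Finset.mem_insert, Finset.mem_biUnion]
        exact Or.inr ⟨ℓ, hℓ, Finsupp.mem_support_iff.2 hp⟩
    have hsum : ∑ ℓ ∈ T, lev0 χ (b ℓ) * g ℓ = f0 + w := by
      rw [hb', hw, ← Finset.sum_add_distrib]
      refine Finset.sum_congr rfl fun ℓ _ => ?_
      ring
    set h' := h - single q0 (1 : ℤ) * (f0 + w) with hh'
    have hc1 : ∀ q, (single q0 (1 : ℤ) * f0).coeff q = if χ q = v then h.coeff q else 0 := by
      intro q
      rw [coeff_single_mul_apply, one_mul, hf0, coeff_lev0, hkc, hχ, hχi, hq0v]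
      have e1 : (-v + χ q = 0) ↔ χ q = v := by constructor <;> intro h <;> linarith
      simp only [e1, mul_inv_cancel_left]
    have hc2 : ∀ q, (single q0 (1 : ℤ) * w).coeff q ≠ 0 → ∃ a, χ a = 0 ∧ ∃ p ∈ P,
        q = q0 * a * p := by
      intro q hq
      rw [coeff_single_mul_apply, one_mul] at hq
      obtain ⟨a, ha, p, hp, h1⟩ := hwc _ hq
      refine ⟨a, ha, p, hp, ?_⟩
      rw [mul_assoc, ← h1]
      group
    refine ⟨h', ?_, ?_, ?_⟩
    · rw [hh', ← hsum, Finset.mul_sum]
      refine J.sub_mem hJ (J.sum_mem fun ℓ hℓ => ?_)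
      exact J.mul_mem_left _ (J.mul_mem_left _ (hgJ ℓ hℓ))
    · intro q hq
      have e : h' - 1 = (h - 1) - single q0 (1 : ℤ) * f0 - single q0 (1 : ℤ) * w := by
        rw [hh']; ring
      rw [e] at hq
      by_cases h2 : (single q0 (1 : ℤ) * w).coeff q = 0
      · rw [coeff_sub, Finsupp.sub_apply, h2, sub_zero, coeff_sub, Finsupp.sub_apply, hc1] at hq
        split_ifs at hq with h3
        · have hq1 : q ≠ 1 := by
            rintro rfl
            rw [hχ1] at h3
            exact absurd h3.symm (ne_of_lt hv)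
          exfalso
          apply hq
          rw [coeff_sub, Finsupp.sub_apply, coeff_one_ne hq1, sub_zero, sub_self]
        · rw [sub_zero] at hq
          exact hX q hq
      · obtain ⟨a, ha, p, hp, rfl⟩ := hc2 q h2
        rw [hχ', hχ', h0 a ha, add_zero]
        have hq01 : q0 ≠ 1 := by
          rintro rfl
          rw [hχ1] at hq0v
          exact absurd hq0v.symm (ne_of_lt hv)
        have h4 : 0 < χ' q0 := by
          apply hX
          rw [coeff_sub, Finsupp.sub_apply, coeff_one_ne hq01, sub_zero]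
          exact hq0
        linarith [hpos p hp]
    · intro q hq
      have e : h' = h - single q0 (1 : ℤ) * f0 - single q0 (1 : ℤ) * w := by
        rw [hh']; ring
      rw [e] at hq
      by_cases h2 : (single q0 (1 : ℤ) * w).coeff q = 0
      · left
        rw [coeff_sub, Finsupp.sub_apply, h2, sub_zero, coeff_sub, Finsupp.sub_apply, hc1] at hq
        split_ifs at hq with h3
        · exact absurd (sub_self _) hq
        · rw [sub_zero] at hq
          exact ⟨hq, h3⟩
      · right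
        obtain ⟨a, ha, p, hp, rfl⟩ := hc2 q h2
        rw [hχ, hχ, ha, hq0v, add_zero]
        linarith [hp0min p hp]
  -- inner induction
  have inner : ∀ (c : ℝ), c ≤ 0 → ∀ (n : ℕ) (h : MonoidAlgebra ℤ Q), h ∈ J → OnePlus χ' h →
      (∀ q, h.coeff q ≠ 0 → c - δ ≤ χ q) →
      ((h.coeff.support.filter (fun q => χ q < c)).image χ).card ≤ n →
      ∃ h' ∈ J, OnePlus χ' h' ∧ ∀ q, h'.coeff q ≠ 0 → c ≤ χ q := by
    intro c hc n
    induction n with
    | zero =>
      intro h hJ hX _ hcard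
      refine ⟨h, hJ, hX, fun q hq => ?_⟩
      by_contra hlt
      push Not at hlt
      have : χ q ∈ (h.coeff.support.filter (fun q => χ q < c)).image χ :=
        Finset.mem_image_of_mem _ (Finset.mem_filter.2 ⟨Finsupp.mem_support_iff.2 hq, hlt⟩)
      rw [Nat.le_zero, Finset.card_eq_zero] at hcard
      rw [hcard] at this
      exact absurd this (Finset.notMem_empty _)
    | succ n ih =>
      intro h hJ hX hlow hcard
      rcases ((h.coeff.support.filter (fun q => χ q < c)).image χ).eq_empty_or_nonempty with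
        hem | hne
      · exact ih h hJ hX hlow (by rw [hem]; simp)
      · obtain ⟨v, hv, hvmin⟩ := Finset.exists_min_image _ id hne
        obtain ⟨q0, hq0, hq0v⟩ := Finset.mem_image.1 hv
        rw [Finset.mem_filter, Finsupp.mem_support_iff] at hq0
        have hvc : v < c := by rw [← hq0v]; exact hq0.2
        obtain ⟨h', hJ', hX', hc'⟩ := step v h (by linarith) hJ hX (by
          intro q hq
          by_cases hqc : χ q < c
          · exact hvmin _ (Finset.mem_image_of_mem _
              (Finset.mem_filter.2 ⟨Finsupp.mem_support_iff.2 hq, hqc⟩))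
          · linarith) ⟨q0, hq0.1, hq0v⟩
        have hvlow : c - δ ≤ v := by rw [← hq0v]; exact hlow _ hq0.1
        refine ih h' hJ' hX' ?_ ?_
        · intro q hq
          rcases hc' q hq with h1 | h1
          · exact hlow q h1.1
          · linarith
        · have hsub : (h'.coeff.support.filter (fun q => χ q < c)).image χ ⊆
              ((h.coeff.support.filter (fun q => χ q < c)).image χ).erase v := by
            intro y hy
            obtain ⟨q, hq, rfl⟩ := Finset.mem_image.1 hy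
            rw [Finset.mem_filter, Finsupp.mem_support_iff] at hq
            rcases hc' q hq.1 with h1 | h1
            · exact Finset.mem_erase.2 ⟨h1.2, Finset.mem_image_of_mem _
                (Finset.mem_filter.2 ⟨Finsupp.mem_support_iff.2 h1.1, hq.2⟩)⟩
            · exfalso
              linarith [hq.2]
          have := Finset.card_le_card hsub
          rw [Finset.card_erase_of_mem hv] at this
          omega
  -- outer induction
  have outer : ∀ (n : ℕ) (h : MonoidAlgebra ℤ Q), h ∈ J → OnePlus χ' h →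
      (∀ q, h.coeff q ≠ 0 → -(n : ℝ) * δ ≤ χ q) →
      ∃ h' ∈ J, OnePlus χ' h' ∧ ∀ q, h'.coeff q ≠ 0 → 0 ≤ χ q := by
    intro n
    induction n with
    | zero =>
      intro h hJ hX hlow
      exact ⟨h, hJ, hX, fun q hq => by simpa using hlow q hq⟩
    | succ n ih =>
      intro h hJ hX hlow
      obtain ⟨h', hJ', hX', hc'⟩ := inner (-(n : ℝ) * δ)
        (by have : (0 : ℝ) ≤ n := Nat.cast_nonneg n
            nlinarith) _ h hJ hX (by
          intro q hq
          have := hlow q hq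
          push_cast at this
          linarith) le_rfl
      exact ih h' hJ' hX' hc'
  -- conclusion
  obtain ⟨n, hn⟩ : ∃ n : ℕ, ∀ q, h.coeff q ≠ 0 → -(n : ℝ) * δ ≤ χ q := by
    obtain ⟨n, hn⟩ := exists_nat_ge (∑ q ∈ h.coeff.support, |χ q| / δ)
    refine ⟨n, fun q hq => ?_⟩
    have h1 : |χ q| / δ ≤ ∑ q ∈ h.coeff.support, |χ q| / δ :=
      Finset.single_le_sum (f := fun q => |χ q| / δ) (fun i _ => by positivity)
        (Finsupp.mem_support_iff.2 hq)
    have h2 : |χ q| / δ ≤ n := h1.trans hn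
    rw [div_le_iff₀ hδ0] at h2
    linarith [neg_abs_le (χ q)]
  obtain ⟨h', hJ', hX', hc'⟩ := outer n h hhJ hhX hn
  refine hAS ⟨h', hJ', fun q hq => ?_⟩
  have h1 : 0 < χ' q := hX' q hq
  have hq1 : q ≠ 1 := by
    rintro rfl
    rw [hχ'1] at h1
    exact lt_irrefl _ h1
  have h2 : h'.coeff q ≠ 0 := by
    rw [coeff_sub, Finsupp.sub_apply, coeff_one_ne hq1, sub_zero] at hq
    exact hq
  refine lt_of_le_of_ne (hc' q h2) fun h3 => ?_
  rw [h0 q h3.symm] at h1
  exact lt_irrefl _ h1

end Pool.Agent.FPm
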