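import Pool.Agent.Lib.MP_f973c6_al.B2

set_option autoImplicit false
set_option linter.unusedSectionVars false

open MonoidAlgebra

namespace Pool.Agent.FPm

section

variable {Q : Type} [CommGroup Q]

/-- The elements supported in `0 ≤ χ`. -/
def posRing (χ : Q → ℝ) (hχ : ∀ a b, χ (a * b) = χ a + χ b) (h1 : χ 1 = 0) :
    Subring (MonoidAlgebra ℤ Q) where
  carrier := {f | ∀ q, f.coeff q ≠ 0 → 0 ≤ χ q}
  zero_mem' := by intro q hq; simp at hq
  one_mem' := by
    intro q hq
    by_cases h : q = 1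
    · rw [h, h1]
    · exact absurd (coeff_one_ne h) hq
  add_mem' := by
    intro f g hf hg q hq
    by_contra hcon
    apply hq
    rw [coeff_add, Finsupp.add_apply]
    have h2 : f.coeff q = 0 := by by_contra h; exact hcon (hf q h)
    have h3 : g.coeff q = 0 := by by_contra h; exact hcon (hg q h)
    rw [h2, h3, add_zero]
  neg_mem' := by
    intro f hf q hq
    apply hf q
    intro h
    apply hq
    rw [coeff_neg, Finsupp.neg_apply, h, neg_zero]
  mul_mem' := by
    intro f g hf hg q hq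
    obtain ⟨a, b, ha, hb, rfl⟩ := supp_mul hq
    rw [hχ]
    exact add_nonneg (hf a ha) (hg b hb)

/-- The ideal of the elements supported in `0 < χ`. -/
def posIdeal (χ : Q → ℝ) (hχ : ∀ a b, χ (a * b) = χ a + χ b) (h1 : χ 1 = 0) :
    Ideal (posRing χ hχ h1) where
  carrier := {f | ∀ q, (f : MonoidAlgebra ℤ Q).coeff q ≠ 0 → 0 < χ q}
  zero_mem' := by intro q hq; simp at hq
  add_mem' := by
    intro f g hf hg q hq
    by_contra hcon
    apply hq
    rw [Subring.coe_add, coeff_add, Finsupp.add_apply]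
    have h2 : (f : MonoidAlgebra ℤ Q).coeff q = 0 := by by_contra h; exact hcon (hf q h)
    have h3 : (g : MonoidAlgebra ℤ Q).coeff q = 0 := by by_contra h; exact hcon (hg q h)
    rw [h2, h3, add_zero]
  smul_mem' := by
    intro f g hg q hq
    rw [smul_eq_mul, Subring.coe_mul] at hq
    obtain ⟨a, b, ha, hb, rfl⟩ := supp_mul hq
    rw [hχ]
    exact add_pos_of_nonneg_of_pos (f.2 a ha) (hg b hb)

theorem coeff_single_ne {a q : Q} {r : ℤ} (h : (single a r).coeff q ≠ 0) : q = a := by
  by_contra hne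
  exact h (by rw [coeff_single, Finsupp.single_eq_of_ne hne])

theorem b3 {V : Type} [AddCommGroup V] [Module (MonoidAlgebra ℤ Q) V] (χ : Q → ℝ)
    (hχ : ∀ a b, χ (a * b) = χ a + χ b) (t : Q) (ht : 0 < χ t) (S : Finset V)
    (hS : AddSubgroup.closure {v : V | ∃ s ∈ S, ∃ q, 0 ≤ χ q ∧
      v = (single q (1 : ℤ)) • s} = ⊤) :
    ∃ f ∈ Module.annihilator (MonoidAlgebra ℤ Q) V, OnePlus χ f := by
  have hχ1 : χ 1 = 0 := by
    have := hχ 1 1
    rw [mul_one] at this
    linarith
  have hχi : χ t⁻¹ = -χ t := by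
    have := hχ t t⁻¹
    rw [mul_inv_cancel, hχ1] at this
    linarith
  set R' := posRing χ hχ hχ1
  have hfg : (⊤ : Submodule R' V).FG := by
    refine ⟨S, ?_⟩
    rw [eq_top_iff]
    have h1 : (⊤ : AddSubgroup V) ≤ (Submodule.span R' (S : Set V)).toAddSubgroup := by
      rw [← hS, AddSubgroup.closure_le]
      rintro v ⟨s, hs, q, hq, rfl⟩
      have hmem : single q (1 : ℤ) ∈ R' := by
        intro x hx
        rw [coeff_single_ne hx]; exact hq
      exact Submodule.smul_mem _ (⟨single q (1 : ℤ), hmem⟩ : R') (Submodule.subset_span hs)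
    intro v _
    exact h1 (AddSubgroup.mem_top v)
  obtain ⟨r, hr, hr0⟩ := Submodule.exists_sub_one_mem_and_smul_eq_zero_of_fg_of_le_smul
    (posIdeal χ hχ hχ1) (⊤ : Submodule R' V) hfg (by
      intro v _
      have hmem : single t (1 : ℤ) ∈ R' := by
        intro x hx
        rw [coeff_single_ne hx]; exact ht.le
      have hI : (⟨single t (1 : ℤ), hmem⟩ : R') ∈ posIdeal χ hχ hχ1 := by
        intro x hx
        rw [coeff_single_ne hx]; exact ht
      have h1 : v = (⟨single t (1 : ℤ), hmem⟩ : R') • ((single t⁻¹ (1 : ℤ)) • v) := by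
        change v = (single t (1 : ℤ)) • ((single t⁻¹ (1 : ℤ)) • v)
        rw [smul_smul, single_mul_single, mul_inv_cancel, mul_one, ← one_def, one_smul]
      rw [h1]
      exact Submodule.smul_mem_smul hI (Submodule.mem_top))
  refine ⟨(r : MonoidAlgebra ℤ Q), ?_, ?_⟩
  · rw [Module.mem_annihilator]
    intro v
    exact hr0 v Submodule.mem_top
  · intro q hq
    exact hr q hq

/-- `f • v` lies in the subgroup generated by the `q • v`, `q` in the support of `f`. -/
theorem smul_mem_closure {V : Type} [AddCommGroup V] [Module (MonoidAlgebra ℤ Q) V]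
    (f : MonoidAlgebra ℤ Q) (v : V) :
    f • v ∈ AddSubgroup.closure {w : V | ∃ q, f.coeff q ≠ 0 ∧ w = (single q (1 : ℤ)) • v} := by
  have h1 : f = ∑ q ∈ f.coeff.support, single q (f.coeff q) := (sum_coeff_single f).symm
  have h2 : f • v = ∑ q ∈ f.coeff.support, (single q (f.coeff q)) • v := by
    conv_lhs => rw [h1]
    rw [Finset.sum_smul]
  rw [h2]
  refine AddSubgroup.sum_mem _ fun q hq => ?_
  have h3 : (single q (f.coeff q)) • v = (f.coeff q) • ((single q (1 : ℤ)) • v) := by
    rw [← smul_assoc, smul_single, smul_eq_mul, mul_one]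
  rw [h3]
  have h4 : (single q (1 : ℤ)) • v ∈
      AddSubgroup.closure {w : V | ∃ q, f.coeff q ≠ 0 ∧ w = (single q (1 : ℤ)) • v} :=
    AddSubgroup.subset_closure ⟨q, Finsupp.mem_support_iff.1 hq, rfl⟩
  exact AddSubgroup.zsmul_mem _ h4 _

end

end Pool.Agent.FPm
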