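import Pool.Agent.Lib.MP_f973c6_al.Defs

/-! Part C: characters of the commutator subgroup with a gauge function (helper27). -/

set_option autoImplicit false

namespace Pool.Agent.FPm

open scoped commutatorElement

/-- `ℤ` is a Jacobson ring. -/
theorem int_jacobson : IsJacobsonRing ℤ := by
  rw [isJacobsonRing_iff_prime_eq]
  intro P hP
  by_cases h0 : P = ⊥
  · subst h0
    rw [eq_bot_iff]
    intro n hn
    rw [Ideal.mem_bot]
    by_contra hn0
    obtain ⟨p, hp1, hp2⟩ := Nat.exists_infinite_primes (n.natAbs + 1)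
    have hmax : (Ideal.span {(p : ℤ)}).IsMaximal :=
      PrincipalIdealRing.isMaximal_of_irreducible (Nat.prime_iff_prime_int.1 hp2).irreducible
    have h1 : n ∈ Ideal.span {(p : ℤ)} := by
      have := Ideal.mem_sInf.1 hn (show Ideal.span {(p : ℤ)} ∈ _ from ⟨bot_le, hmax⟩)
      exact this
    rw [Ideal.mem_span_singleton] at h1
    have h2 := Int.natAbs_dvd_natAbs.2 h1
    rw [Int.natAbs_natCast] at h2
    have h3 := Nat.le_of_dvd (Int.natAbs_pos.2 hn0) h2
    omega
  · have hmax : P.IsMaximal := IsPrime.to_maximal_ideal h0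
    exact Ideal.jacobson_eq_self_of_isMaximal

/-- A field which is a finite module over `ℤ` is finite. -/
theorem finite_of_field_finite_int (K : Type) [Field K] [Module.Finite ℤ K] : Finite K := by
  have hint : Algebra.IsIntegral ℤ K := inferInstance
  have hinj : ¬ Function.Injective (algebraMap ℤ K) := by
    intro h
    exact Int.not_isField (isField_of_isIntegral_of_isField h (Field.toIsField K))
  rw [injective_iff_map_eq_zero] at hinj
  push Not at hinj
  obtain ⟨n, hn, hn0⟩ := hinj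
  apply Module.finite_of_fg_torsion K
  intro x
  refine ⟨⟨n, mem_nonZeroDivisors_of_ne_zero hn0⟩, ?_⟩
  change n • x = 0
  rw [zsmul_eq_mul]
  have : (n : K) = 0 := by simpa using hn
  rw [this, zero_mul]

/-- The standard embedding of `ℚ / ℤ` in the complex numbers. -/
theorem exists_qz_to_complex : ∃ E : AddCircle (1 : ℚ) → ℂ,
    (∀ a b, E (a + b) = E a * E b) ∧ (∀ a, E a ≠ 0) ∧ (∀ a, E a = 1 → a = 0) := by
  let h : AddCircle (1 : ℚ) →+ AddCircle (1 : ℝ) :=
    QuotientAddGroup.map _ _ (Rat.castHom ℝ).toAddMonoidHom (by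
      rw [AddSubgroup.zmultiples_le]
      exact AddSubgroup.mem_zmultiples_iff.2 ⟨1, by simp⟩)
  have hinj : ∀ a, h a = 0 → a = 0 := by
    intro a
    induction a using QuotientAddGroup.induction_on with
    | H q =>
      intro hq
      have hq' : (((q : ℚ) : ℝ) : AddCircle (1 : ℝ)) = 0 := hq
      rw [AddCircle.coe_eq_zero_iff] at hq'
      obtain ⟨n, hn⟩ := hq'
      rw [AddCircle.coe_eq_zero_iff]
      refine ⟨n, ?_⟩
      have : ((n • (1 : ℚ) : ℚ) : ℝ) = (q : ℝ) := by
        simpa using hn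
      exact_mod_cast this
  refine ⟨fun a => ((AddCircle.toCircle (h a) : Circle) : ℂ), ?_, ?_, ?_⟩
  · intro a b
    simp only [map_add, AddCircle.toCircle_add, Circle.coe_mul]
  · intro a
    exact Circle.coe_ne_zero _
  · intro a ha
    apply hinj
    apply AddCircle.injective_toCircle (T := (1 : ℝ)) one_ne_zero
    rw [AddCircle.toCircle_zero]
    exact Circle.coe_eq_one.1 ha

/-- Characters of a module over a ring of finite type over `ℤ`. -/
theorem exists_character_unit {R V : Type} [CommRing R] [Algebra.FiniteType ℤ R]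
    [AddCommGroup V] [Module R V] (x : V) (hx : x ≠ 0) :
    ∃ (φ : V →+ AddCircle (1 : ℚ)) (S : Finset V),
      ∀ u : R, IsUnit u → ∃ s ∈ S, φ (u • s) ≠ 0 := by
  classical
  set I : Ideal R := LinearMap.ker (LinearMap.toSpanSingleton R V x) with hI
  have hItop : I ≠ ⊤ := by
    intro h
    apply hx
    have : (1 : R) ∈ I := by rw [h]; trivial
    rw [hI, LinearMap.mem_ker, LinearMap.toSpanSingleton_apply, one_smul] at this
    exact this
  obtain ⟨M, hM, hIM⟩ := Ideal.exists_le_maximal I hItop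
  let _ : Field (R ⧸ M) := Ideal.Quotient.field M
  have : Algebra.FiniteType ℤ (R ⧸ M) := inferInstance
  have := int_jacobson
  have : Module.Finite ℤ (R ⧸ M) := finite_of_finite_type_of_isJacobsonRing ℤ (R ⧸ M)
  have hfin : Finite (R ⧸ M) := finite_of_field_finite_int (R ⧸ M)
  have := Fintype.ofFinite (R ⧸ M)
  obtain ⟨ψ, hψ⟩ := CharacterModule.exists_character_apply_ne_zero_of_ne_zero
    (A := R ⧸ M) (a := 1) one_ne_zero
  -- the injective map R/I → V
  let p : (R ⧸ I) →ₗ[R] V := (LinearMap.ker (LinearMap.toSpanSingleton R V x)).liftQ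
    (LinearMap.toSpanSingleton R V x) le_rfl
  have hp : Function.Injective p := by
    rw [← LinearMap.ker_eq_bot]
    exact Submodule.ker_liftQ_eq_bot _ _ _ le_rfl
  let c0 : CharacterModule (R ⧸ I) := 
    (ψ : (R ⧸ M) →+ AddCircle (1 : ℚ)).comp (Ideal.Quotient.factor hIM).toAddMonoidHom
  obtain ⟨φ, hφ⟩ := CharacterModule.dual_surjective_of_injective p hp c0
  have key : ∀ r : R, φ (r • x) = ψ (Ideal.Quotient.mk M r) := by
    intro r
    have := DFunLike.congr_fun hφ (Ideal.Quotient.mk I r)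
    exact this
  refine ⟨φ, Finset.univ.image (fun f : R ⧸ M => (Quotient.out f : R) • x), ?_⟩
  intro u hu
  have hu' : IsUnit (Ideal.Quotient.mk M u) := hu.map _
  refine ⟨(Quotient.out ((Ideal.Quotient.mk M u)⁻¹) : R) • x, ?_, ?_⟩
  · exact Finset.mem_image_of_mem (fun f : R ⧸ M => (Quotient.out f : R) • x) (Finset.mem_univ _)
  · rw [smul_smul]
    have h1 := key (u * (Quotient.out ((Ideal.Quotient.mk M u)⁻¹) : R))
    rw [map_mul] at h1
    have h2 : Ideal.Quotient.mk M (Quotient.out ((Ideal.Quotient.mk M u)⁻¹) : R)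
        = (Ideal.Quotient.mk M u)⁻¹ := Quotient.out_eq _
    rw [h2, mul_inv_cancel₀ hu'.ne_zero] at h1
    intro h
    exact hψ (h1.symm.trans h)

/-- Characters for a group acting by commuting endomorphisms through a finitely generated
image. -/
theorem exists_character_group {Γ V : Type} [Group Γ] [AddCommGroup V]
    (ρ : Γ →* AddMonoid.End V) (hcomm : ∀ g h, ρ g * ρ h = ρ h * ρ g)
    (Y : Finset Γ) (hY : ∀ g, ∃ h ∈ Subgroup.closure (Y : Set Γ), ρ g = ρ h)
    (x : V) (hx : x ≠ 0) :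
    ∃ (φ : V →+ AddCircle (1 : ℚ)) (S : Finset V), ∀ g : Γ, ∃ s ∈ S, φ (ρ g s) ≠ 0 := by
  classical
  let Z : Finset Γ := Y ∪ Y.image (fun y => y⁻¹)
  let T : Finset (AddMonoid.End V) := Z.image ρ
  have hTc : ∀ a ∈ (T : Set (AddMonoid.End V)), ∀ b ∈ (T : Set (AddMonoid.End V)),
      a * b = b * a := by
    intro a ha b hb
    rw [Finset.mem_coe, Finset.mem_image] at ha hb
    obtain ⟨g, _, rfl⟩ := ha
    obtain ⟨h, _, rfl⟩ := hb
    exact hcomm g h
  let R := Algebra.adjoin ℤ (T : Set (AddMonoid.End V))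
  have hmc := Algebra.isMulCommutative_adjoin ℤ hTc
  let _ : CommRing R := 
    { (inferInstance : Ring R) with
      mul_comm := fun a b => hmc.is_comm.comm a b }
  have hft : Algebra.FiniteType ℤ R := by
    have := Subalgebra.fg_adjoin_finset (R := ℤ) T
    exact (Subalgebra.fg_iff_finiteType _).1 this
  have hmem : ∀ g, ρ g ∈ R := by
    have h1 : ∀ g ∈ Subgroup.closure (Y : Set Γ), ρ g ∈ R ∧ ρ g⁻¹ ∈ R := by
      intro g hg
      induction hg using Subgroup.closure_induction with
      | mem y hy =>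
        constructor
        · apply Algebra.subset_adjoin
          exact Finset.mem_image_of_mem _ (Finset.mem_union_left _ hy)
        · apply Algebra.subset_adjoin
          exact Finset.mem_image_of_mem _ (Finset.mem_union_right _
            (Finset.mem_image_of_mem _ hy))
      | one => simp [R.one_mem]
      | mul a b _ _ ha hb =>
        rw [mul_inv_rev, map_mul, map_mul]
        exact ⟨R.mul_mem ha.1 hb.1, R.mul_mem hb.2 ha.2⟩
      | inv a _ ha =>
        rw [inv_inv]
        exact ⟨ha.2, ha.1⟩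
    intro g
    obtain ⟨h, hh, he⟩ := hY g
    rw [he]
    exact (h1 h hh).1
  let _ : Module R V := inferInstance
  obtain ⟨φ, S, hS⟩ := exists_character_unit (R := R) x hx
  refine ⟨φ, S, fun g => ?_⟩
  have hu : IsUnit (⟨ρ g, hmem g⟩ : R) := by
    rw [isUnit_iff_exists_inv]
    refine ⟨⟨ρ g⁻¹, hmem g⁻¹⟩, ?_⟩
    apply Subtype.ext
    change ρ g * ρ g⁻¹ = 1
    rw [← map_mul, mul_inv_cancel, map_one]
  obtain ⟨s, hs, h⟩ := hS _ hu
  exact ⟨s, hs, h⟩

/-- Subgroups of finitely generated commutative groups are finitely generated. -/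
theorem subgroup_fg_of_comm {Q : Type} [CommGroup Q] (hQ : Group.FG Q) (K : Subgroup Q) :
    K.FG := by
  have h1 : AddGroup.FG (Additive Q) := inferInstance
  have h2 : Module.Finite ℤ (Additive Q) := Module.Finite.iff_addGroup_fg.mpr h1
  have h3 : IsNoetherian ℤ (Additive Q) := isNoetherian_of_isNoetherianRing_of_finite ℤ _
  have h4 : (AddSubgroup.toIntSubmodule (Subgroup.toAddSubgroup K)).FG := IsNoetherian.noetherian _
  rw [Submodule.fg_iff_addSubgroup_fg] at h4
  rw [Subgroup.fg_iff_add_fg]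
  exact h4

/-- Subgroups of finitely generated groups are finitely generated modulo the commutator. -/
theorem exists_finset_lift {C : Type} [Group C] (hC : Group.FG C) (H : Subgroup C) :
    ∃ S : Finset C, (∀ s ∈ S, s ∈ H) ∧
      ∀ c ∈ H, ∃ s ∈ Subgroup.closure (S : Set C), s⁻¹ * c ∈ commutator C := by
  classical
  have hfgQ : Group.FG (Abelianization C) := QuotientGroup.fg _
  let K : Subgroup (Abelianization C) := H.map Abelianization.of
  have hK : K.FG := subgroup_fg_of_comm hfgQ K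
  obtain ⟨T, hT⟩ := hK
  have hTK : (T : Set (Abelianization C)) ⊆ Abelianization.of '' (H : Set C) := by
    intro x hx
    have : x ∈ K := by rw [← hT]; exact Subgroup.subset_closure hx
    exact this
  obtain ⟨S, hS, hST⟩ := Finset.subset_set_image_iff.1 hTK
  refine ⟨S, fun s hs => hS hs, fun c hc => ?_⟩
  have hc' : Abelianization.of c ∈ K := ⟨c, hc, rfl⟩
  rw [← hT, ← hST, Finset.coe_image, ← MonoidHom.map_closure] at hc'
  obtain ⟨s, hs, he⟩ := hc'
  refine ⟨s, hs, ?_⟩
  rw [← Abelianization.ker_of, MonoidHom.mem_ker, map_mul, map_inv, he, inv_mul_cancel]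

/-- The character `y` of part C. -/
theorem exists_y {G : Type} [Group G] (hfg : Group.FG G)
    (hmet : ∀ a ∈ commutator G, ∀ b ∈ commutator G, a * b = b * a)
    (K B : Subgroup G)
    (hB : ∀ g ∈ K, ∀ a ∈ commutator G, a ∈ B → g * a * g⁻¹ ∈ B)
    (x : G) (hxA : x ∈ commutator G) (hxB : x ∉ B) :
    ∃ y : G → ℂ, (∀ a ∈ commutator G, ∀ b ∈ commutator G, y (a * b) = y a * y b) ∧
      (∀ a ∈ commutator G, y a ≠ 0) ∧ (∀ a ∈ commutator G, a ∈ B → y a = 1) ∧
      ∃ S0 : Finset G, (∀ s ∈ S0, s ∈ commutator G) ∧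
        ∀ g ∈ K, ∃ s ∈ S0, y (g * s * g⁻¹) ≠ 1 := by
  classical
  let _ : CommGroup (commutator G) :=
    { (inferInstance : Group (commutator G)) with
      mul_comm := fun a b => Subtype.ext (hmet a a.2 b b.2) }
  let A0 : Subgroup (commutator G) := B.subgroupOf (commutator G)
  let conjA : G →* MulAut (commutator G) := MulAut.conjNormal
  have hA0 : ∀ g ∈ K, A0 ≤ A0.comap (conjA g).toMonoidHom := by
    intro g hg a ha
    have : g * (a : G) * g⁻¹ ∈ B := hB g hg a a.2 ha
    exact this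
  let V := Additive ((commutator G) ⧸ A0)
  let ρ : K →* AddMonoid.End V :=
    { toFun := fun g => MonoidHom.toAdditive
        (QuotientGroup.map A0 A0 (conjA g).toMonoidHom (hA0 g g.2))
      map_one' := by
        apply AddMonoidHom.ext
        intro v
        induction v using QuotientGroup.induction_on with
        | H a =>
          change (QuotientGroup.mk ((conjA 1) a) : (commutator G) ⧸ A0) = QuotientGroup.mk a
          rw [map_one]; rfl
      map_mul' := by
        intro g h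
        apply AddMonoidHom.ext
        intro v
        induction v using QuotientGroup.induction_on with
        | H a =>
          change (QuotientGroup.mk ((conjA (g * h)) a) : (commutator G) ⧸ A0) =
            QuotientGroup.mk ((conjA g) ((conjA h) a))
          rw [map_mul]; rfl }
  have hρ : ∀ (g : K) (a : commutator G),
      ρ g (Additive.ofMul (QuotientGroup.mk a : (commutator G) ⧸ A0)) =
        Additive.ofMul (QuotientGroup.mk (conjA g a) : (commutator G) ⧸ A0) := fun g a => rfl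
  -- elements of the commutator act trivially
  have htriv : ∀ g h : G, g⁻¹ * h ∈ commutator G → conjA g = conjA h := by
    intro g h hgh
    apply MulEquiv.ext
    intro a
    apply Subtype.ext
    rw [MulAut.conjNormal_apply, MulAut.conjNormal_apply]
    have := hmet _ hgh _ a.2
    have h2 : h * (a : G) * h⁻¹ = g * ((g⁻¹ * h) * a) * h⁻¹ := by group
    rw [h2, this]
    group
  have hcomm : ∀ g h, ρ g * ρ h = ρ h * ρ g := by
    intro g h
    rw [← map_mul, ← map_mul]
    have : conjA ((g * h : K) : G) = conjA ((h * g : K) : G) := by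
      apply htriv
      have : ((g * h : K) : G)⁻¹ * ((h * g : K) : G) = ⁅(h : G)⁻¹, (g : G)⁻¹⁆ := by
        simp only [Subgroup.coe_mul, commutatorElement_def]; group
      rw [this]
      exact Subgroup.commutator_mem_commutator (Subgroup.mem_top _) (Subgroup.mem_top _)
    apply AddMonoidHom.ext
    intro v
    induction v using QuotientGroup.induction_on with
    | H a =>
      change ρ (g * h) (Additive.ofMul (QuotientGroup.mk a : (commutator G) ⧸ A0)) =
        ρ (h * g) (Additive.ofMul (QuotientGroup.mk a : (commutator G) ⧸ A0))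
      rw [hρ, hρ, this]
  obtain ⟨Y0, hY0, hY0'⟩ := exists_finset_lift hfg K
  let Y : Finset K := Y0.attach.image (fun s => ⟨s.1, hY0 s.1 s.2⟩)
  have hYcl : (Subgroup.closure (Y : Set K)).map K.subtype = Subgroup.closure (Y0 : Set G) := by
    rw [MonoidHom.map_closure]
    congr 1
    ext z
    constructor
    · rintro ⟨w, hw, rfl⟩
      rw [Finset.mem_coe, Finset.mem_image] at hw
      obtain ⟨s, _, rfl⟩ := hw
      exact s.2
    · intro hz
      refine ⟨⟨z, hY0 z hz⟩, ?_, rfl⟩
      rw [Finset.mem_coe, Finset.mem_image]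
      exact ⟨⟨z, hz⟩, Finset.mem_attach _ _, rfl⟩
  have hY : ∀ g, ∃ h ∈ Subgroup.closure (Y : Set K), ρ g = ρ h := by
    intro g
    obtain ⟨s, hs, hsg⟩ := hY0' g g.2
    rw [← hYcl] at hs
    obtain ⟨s', hs', rfl⟩ := hs
    refine ⟨s', hs', ?_⟩
    have he := htriv _ _ hsg
    apply AddMonoidHom.ext
    intro v
    induction v using QuotientGroup.induction_on with
    | H a =>
      change ρ g (Additive.ofMul (QuotientGroup.mk a : (commutator G) ⧸ A0)) =
        ρ s' (Additive.ofMul (QuotientGroup.mk a : (commutator G) ⧸ A0))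
      rw [hρ, hρ]
      have he' : conjA (s' : G) = conjA (g : G) := he
      rw [he']
  let x' : V := Additive.ofMul (QuotientGroup.mk (⟨x, hxA⟩ : commutator G) : (commutator G) ⧸ A0)
  have hx' : x' ≠ 0 := by
    intro h
    have : (QuotientGroup.mk (⟨x, hxA⟩ : commutator G) : (commutator G) ⧸ A0) = 1 := h
    rw [QuotientGroup.eq_one_iff] at this
    exact hxB this
  obtain ⟨φ, S, hS⟩ := exists_character_group ρ hcomm Y hY x' hx'
  obtain ⟨E, hE1, hE2, hE3⟩ := exists_qz_to_complex
  have hE0 : E 0 = 1 := by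
    have := hE1 0 0
    rw [add_zero] at this
    have h2 := hE2 0
    field_simp at this
    exact this.symm
  let cls : commutator G → V := fun a => Additive.ofMul (QuotientGroup.mk a)
  have hcls : Function.Surjective cls := by
    intro v
    induction v using QuotientGroup.induction_on with
    | H a => exact ⟨a, rfl⟩
  let y : G → ℂ := fun g => if h : g ∈ commutator G then E (φ (cls ⟨g, h⟩)) else 1
  have hy : ∀ (a : commutator G), y (a : G) = E (φ (cls a)) := by
    intro a
    simp only [y]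
    rw [dif_pos a.2]
  refine ⟨y, ?_, ?_, ?_, ?_⟩
  · intro a ha b hb
    have h1 := hy ⟨a, ha⟩
    have h2 := hy ⟨b, hb⟩
    have h3 := hy (⟨a, ha⟩ * ⟨b, hb⟩)
    have h4 : cls (⟨a, ha⟩ * ⟨b, hb⟩) = cls ⟨a, ha⟩ + cls ⟨b, hb⟩ := rfl
    rw [h4, map_add, hE1] at h3
    rw [h1, h2]
    exact h3
  · intro a ha
    have h1 := hy ⟨a, ha⟩
    rw [h1]
    exact hE2 _
  · intro a ha haB
    have h1 := hy ⟨a, ha⟩
    have h2 : cls ⟨a, ha⟩ = 0 := by
      change (QuotientGroup.mk (⟨a, ha⟩ : commutator G) : (commutator G) ⧸ A0) = 1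
      rw [QuotientGroup.eq_one_iff]
      exact haB
    rw [h1, h2, map_zero, hE0]
  · refine ⟨S.image (fun v => ((Function.surjInv hcls v : commutator G) : G)), ?_, ?_⟩
    · intro s hs
      rw [Finset.mem_image] at hs
      obtain ⟨v, _, rfl⟩ := hs
      exact (Function.surjInv hcls v).2
    · intro g hg
      obtain ⟨s, hs, hne⟩ := hS ⟨g, hg⟩
      refine ⟨_, Finset.mem_image_of_mem _ hs, ?_⟩
      have h1 := hy (conjA g (Function.surjInv hcls s))
      have h2 : cls (conjA g (Function.surjInv hcls s)) = ρ ⟨g, hg⟩ s := by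
        have h3 : cls (Function.surjInv hcls s) = s := Function.surjInv_eq hcls s
        have h5 := hρ ⟨g, hg⟩ (Function.surjInv hcls s)
        change ρ ⟨g, hg⟩ (cls (Function.surjInv hcls s)) =
          cls (conjA g (Function.surjInv hcls s)) at h5
        rw [h3] at h5
        exact h5.symm
      have h4 : ((conjA g (Function.surjInv hcls s) : commutator G) : G) =
          g * (Function.surjInv hcls s : commutator G) * g⁻¹ := MulAut.conjNormal_apply _ _
      rw [h4] at h1
      rw [h1, h2]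
      intro h
      exact hne (hE3 _ h)

section Hom

variable {G : Type} [Group G] {χ : G → ℤ}

theorem IsHomZ.map_one (h : IsHomZ χ) : χ 1 = 0 := by
  have := h 1 1
  rw [mul_one] at this
  omega

theorem IsHomZ.map_inv (h : IsHomZ χ) (g : G) : χ g⁻¹ = -χ g := by
  have := h g g⁻¹
  rw [mul_inv_cancel, h.map_one] at this
  omega

theorem IsHomZ.map_zpow (h : IsHomZ χ) (g : G) (n : ℤ) : χ (g ^ n) = n * χ g := by
  induction n using Int.induction_on with
  | zero => simp [h.map_one]
  | succ i ih => rw [zpow_add_one, h, ih]; ring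
  | pred i ih => rw [zpow_sub_one, h, ih, h.map_inv]; ring

theorem IsHomZ.map_conj (h : IsHomZ χ) (g x : G) : χ (g * x * g⁻¹) = χ x := by
  rw [h, h, h.map_inv]; ring

theorem IsHomZ.map_commutator (h : IsHomZ χ) : ∀ a ∈ commutator G, χ a = 0 := by
  intro a ha
  let K : Subgroup G :=
    { carrier := {g | χ g = 0}
      mul_mem' := by
        intro a b ha hb
        simp only [Set.mem_ofPred_eq] at *
        rw [h, ha, hb]; rfl
      one_mem' := h.map_one
      inv_mem' := by
        intro a ha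
        simp only [Set.mem_ofPred_eq] at *
        rw [h.map_inv, ha]; rfl }
  have : commutator G ≤ K := by
    rw [commutator_def, Subgroup.commutator_le]
    intro g _ g' _
    change χ ⁅g, g'⁆ = 0
    rw [commutatorElement_def, h, h, h, h.map_inv, h.map_inv]
    ring
  exact this ha

/-- A subgroup stable under conjugation by powers of `t` which contains `X`. -/
theorem mem_of_generate (h : IsHomZ χ) {t : G} (ht : χ t = 1) {X : Set G}
    (hX : ∀ x ∈ X, χ x = 0) (hgen : Subgroup.closure (insert t X) = ⊤) (H : Subgroup G)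
    (hH : ∀ (i : ℤ), ∀ u ∈ H, t ^ i * u * t ^ (-i) ∈ H) (hXH : ∀ x ∈ X, x ∈ H) (g : G) :
    g * t ^ (-χ g) ∈ H := by
  have hg : g ∈ Subgroup.closure (insert t X) := by rw [hgen]; trivial
  induction hg using Subgroup.closure_induction with
  | mem x hx =>
    rcases hx with rfl | hx
    · rw [ht]; simp [H.one_mem]
    · rw [hX x hx]; simpa using hXH x hx
  | one => rw [h.map_one]; simp [H.one_mem]
  | mul a b _ _ ha hb =>
    have h1 := hH (χ a) _ hb
    have h2 := H.mul_mem ha h1
    have h3 : a * t ^ (-χ a) * (t ^ χ a * (b * t ^ (-χ b)) * t ^ (-χ a)) =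
        a * b * t ^ (-χ (a * b)) := by
      rw [h a b]
      group
    rwa [h3] at h2
  | inv a _ ha =>
    have h1 := hH (-χ a) _ (H.inv_mem ha)
    have h3 : t ^ (-χ a) * (a * t ^ (-χ a))⁻¹ * t ^ (- -χ a) = a⁻¹ * t ^ (-χ a⁻¹) := by
      rw [h.map_inv]
      group
    rwa [h3] at h1

end Hom

section B

variable {G : Type} [Group G]

/-- The subgroup `B` generated by the `t`-conjugates of `X` with non negative exponents. -/
def Bgp (t : G) (X : Set G) : Subgroup G :=
  Subgroup.closure {g | ∃ i : ℤ, 0 ≤ i ∧ ∃ x ∈ X, g = t ^ i * x * t ^ (-i)}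

variable {t : G} {X : Set G}

theorem Bgp_conj (n : ℤ) (hn : 0 ≤ n) (b : G) (hb : b ∈ Bgp t X) :
    t ^ n * b * t ^ (-n) ∈ Bgp t X := by
  rw [Bgp] at hb
  induction hb using Subgroup.closure_induction with
  | mem b hb =>
    obtain ⟨i, hi, x, hx, rfl⟩ := hb
    apply Subgroup.subset_closure
    exact ⟨n + i, by omega, x, hx, by group⟩
  | one => simp
  | mul a b _ _ ha hb =>
    have := Subgroup.mul_mem _ ha hb
    have h3 : t ^ n * a * t ^ (-n) * (t ^ n * b * t ^ (-n)) = t ^ n * (a * b) * t ^ (-n) := by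
      group
    rwa [h3] at this
  | inv a _ ha =>
    have := Subgroup.inv_mem _ ha
    have h3 : (t ^ n * a * t ^ (-n))⁻¹ = t ^ n * a⁻¹ * t ^ (-n) := by group
    rwa [h3] at this

theorem subset_Bgp (x : G) (hx : x ∈ X) : x ∈ Bgp t X := by
  apply Subgroup.subset_closure
  exact ⟨0, le_refl _, x, hx, by simp⟩

/-- Elements of the kernel are eventually in `B`. -/
theorem eventually_Bgp {χ : G → ℤ} (h : IsHomZ χ) (ht : χ t = 1)
    (hX : ∀ x ∈ X, χ x = 0) (hgen : Subgroup.closure (insert t X) = ⊤) (u : G) (hu : χ u = 0) :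
    ∃ N : ℤ, ∀ n : ℤ, N ≤ n → t ^ n * u * t ^ (-n) ∈ Bgp t X := by
  let H : Subgroup G :=
    { carrier := {u | ∃ N : ℤ, ∀ n : ℤ, N ≤ n → t ^ n * u * t ^ (-n) ∈ Bgp t X}
      mul_mem' := by
        rintro a b ⟨N, hN⟩ ⟨M, hM⟩
        refine ⟨max N M, fun n hn => ?_⟩
        have h1 := Subgroup.mul_mem _ (hN n (le_trans (le_max_left _ _) hn))
          (hM n (le_trans (le_max_right _ _) hn))
        have h3 : t ^ n * a * t ^ (-n) * (t ^ n * b * t ^ (-n)) = t ^ n * (a * b) * t ^ (-n) := by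
          group
        rwa [h3] at h1
      one_mem' := ⟨0, fun n _ => by simp⟩
      inv_mem' := by
        rintro a ⟨N, hN⟩
        refine ⟨N, fun n hn => ?_⟩
        have h1 := Subgroup.inv_mem _ (hN n hn)
        have h3 : (t ^ n * a * t ^ (-n))⁻¹ = t ^ n * a⁻¹ * t ^ (-n) := by group
        rwa [h3] at h1 }
  have h1 := mem_of_generate h ht hX hgen H (by
    rintro i u ⟨N, hN⟩
    refine ⟨N - i, fun n hn => ?_⟩
    have := hN (n + i) (by omega)
    have h3 : t ^ n * (t ^ i * u * t ^ (-i)) * t ^ (-n) = t ^ (n + i) * u * t ^ (-(n + i)) := by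
      group
    rwa [h3]) (by
    intro x hx
    exact ⟨0, fun n hn => Bgp_conj n hn x (subset_Bgp x hx)⟩) u
  rw [hu, neg_zero, zpow_zero, mul_one] at h1
  exact h1

/-- Every element is `a * b * t ^ n`. -/
theorem decomp_Bgp {χ : G → ℤ} (h : IsHomZ χ) (ht : χ t = 1)
    (hX : ∀ x ∈ X, χ x = 0) (hgen : Subgroup.closure (insert t X) = ⊤) (g : G) :
    ∃ a ∈ commutator G, ∃ b ∈ Bgp t X, g * t ^ (-χ g) = a * b := by
  have h1 := mem_of_generate h ht hX hgen (commutator G ⊔ Bgp t X) (by
    intro i u hu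
    have h2 : t ^ i * u * t ^ (-i) = ⁅t ^ i, u⁆ * u := by
      rw [commutatorElement_def]; group
    rw [h2]
    refine Subgroup.mul_mem _ ?_ hu
    apply Subgroup.mem_sup_left
    exact Subgroup.commutator_mem_commutator (Subgroup.mem_top _) (Subgroup.mem_top _)) (by
    intro x hx
    exact Subgroup.mem_sup_right (subset_Bgp x hx)) g
  rw [Subgroup.mem_sup_of_normal_left] at h1
  obtain ⟨a, ha, b, hb, he⟩ := h1
  exact ⟨a, ha, b, hb, he.symm⟩

end B

/-- If the commutator subgroup is not finitely generated over the half space, it is not contained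
in `B`. -/
theorem exists_not_mem_Bgp {G : Type} [Group G] {χ : G → ℤ} (h : IsHomZ χ) {t : G}
    (ht : χ t = 1) (X : Finset G) (hX : ∀ x ∈ X, χ x = 0) (hN : NotFG χ) :
    ∃ x ∈ commutator G, x ∉ Bgp t (X : Set G) := by
  classical
  by_contra hcon
  push Not at hcon
  let C : Subgroup G := Subgroup.closure (X : Set G)
  have hχC : ∀ c ∈ C, χ c = 0 := by
    intro c hc
    induction hc using Subgroup.closure_induction with
    | mem x hx => exact hX x hx
    | one => exact h.map_one
    | mul a b _ _ ha hb => rw [h, ha, hb]; rfl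
    | inv a _ ha => rw [h.map_inv, ha]; rfl
  have hCfg : Group.FG C := Group.closure_finset_fg X
  obtain ⟨S2, hS2, hS2'⟩ := exists_finset_lift hCfg ((commutator G).subgroupOf C)
  let S : Finset G := (X.image (fun x => ⁅t, x⁆)) ∪ ((X ×ˢ X).image (fun p => ⁅p.1, p.2⁆)) ∪
    S2.image (fun s : C => (s : G))
  have hcomm : ∀ a b : G, ⁅a, b⁆ ∈ commutator G := fun a b =>
    Subgroup.commutator_mem_commutator (Subgroup.mem_top _) (Subgroup.mem_top _)
  have hSA : ∀ s ∈ S, s ∈ commutator G := by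
    intro s hs
    simp only [S, Finset.mem_union, Finset.mem_image] at hs
    rcases hs with (⟨x, _, rfl⟩ | ⟨p, _, rfl⟩) | ⟨s', hs', rfl⟩
    · exact hcomm _ _
    · exact hcomm _ _
    · exact hS2 s' hs'
  obtain ⟨a, ha, hna⟩ := hN S hSA
  apply hna
  set W : Subgroup G := Subgroup.closure {x : G | ∃ s ∈ S, ∃ g : G, 0 ≤ χ g ∧ x = g * s * g⁻¹}
    with hW
  have hWconj : ∀ g, 0 ≤ χ g → ∀ w ∈ W, g * w * g⁻¹ ∈ W := by
    intro g hg w hw
    rw [hW] at hw
    induction hw using Subgroup.closure_induction with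
    | mem x hx =>
      obtain ⟨s, hs, g', hg', rfl⟩ := hx
      apply Subgroup.subset_closure
      refine ⟨s, hs, g * g', ?_, by group⟩
      rw [h]; omega
    | one => simp
    | mul a b _ _ ha hb =>
      have h3 : g * (a * b) * g⁻¹ = (g * a * g⁻¹) * (g * b * g⁻¹) := by group
      rw [h3]; exact W.mul_mem ha hb
    | inv a _ ha =>
      have h3 : g * a⁻¹ * g⁻¹ = (g * a * g⁻¹)⁻¹ := by group
      rw [h3]; exact W.inv_mem ha
  have hSW : ∀ s ∈ S, s ∈ W := by
    intro s hs
    apply Subgroup.subset_closure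
    exact ⟨s, hs, 1, by rw [h.map_one], by simp⟩
  have hWA : ∀ w ∈ W, w ∈ commutator G := by
    have : W ≤ commutator G := by
      rw [hW, Subgroup.closure_le]
      rintro x ⟨s, hs, g, _, rfl⟩
      exact (inferInstance : (commutator G).Normal).conj_mem s (hSA s hs) g
    exact this
  have htx : ∀ x ∈ X, ⁅t, x⁆ ∈ W := by
    intro x hx
    apply hSW
    simp only [S, Finset.mem_union, Finset.mem_image]
    exact Or.inl (Or.inl ⟨x, hx, rfl⟩)
  have hxx : ∀ x ∈ X, ∀ x' ∈ X, ⁅x, x'⁆ ∈ W := by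
    intro x hx x' hx'
    apply hSW
    simp only [S, Finset.mem_union, Finset.mem_image]
    exact Or.inl (Or.inr ⟨(x, x'), Finset.mem_product.2 ⟨hx, hx'⟩, rfl⟩)
  -- the product W C
  let WC : Subgroup G :=
    { carrier := {b | ∃ w ∈ W, ∃ c ∈ C, b = w * c}
      mul_mem' := by
        rintro _ _ ⟨w, hw, c, hc, rfl⟩ ⟨w', hw', c', hc', rfl⟩
        refine ⟨w * (c * w' * c⁻¹), W.mul_mem hw (hWconj c (hχC c hc).ge w' hw'),
          c * c', C.mul_mem hc hc', by group⟩
      one_mem' := ⟨1, W.one_mem, 1, C.one_mem, by simp⟩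
      inv_mem' := by
        rintro _ ⟨w, hw, c, hc, rfl⟩
        refine ⟨c⁻¹ * w⁻¹ * c⁻¹⁻¹, hWconj c⁻¹ (hχC _ (C.inv_mem hc)).ge _ (W.inv_mem hw),
          c⁻¹, C.inv_mem hc, by group⟩ }
  have htix : ∀ x ∈ X, ∀ i : ℕ, ∃ w ∈ W, t ^ (i : ℤ) * x * t ^ (-(i : ℤ)) = w * x := by
    intro x hx i
    induction i with
    | zero => exact ⟨1, W.one_mem, by simp⟩
    | succ i ih =>
      obtain ⟨w, hw, he⟩ := ih
      refine ⟨(t * w * t⁻¹) * ⁅t, x⁆, W.mul_mem (hWconj t (by omega) w hw) (htx x hx), ?_⟩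
      have h3 : t ^ ((i + 1 : ℕ) : ℤ) * x * t ^ (-((i + 1 : ℕ) : ℤ)) =
          t * (t ^ (i : ℤ) * x * t ^ (-(i : ℤ))) * t⁻¹ := by
        push_cast
        group
      rw [h3, he, commutatorElement_def]
      group
  have hBWC : Bgp t (X : Set G) ≤ WC := by
    rw [Bgp, Subgroup.closure_le]
    rintro _ ⟨i, hi, x, hx, rfl⟩
    obtain ⟨n, rfl⟩ := Int.eq_ofNat_of_zero_le hi
    obtain ⟨w, hw, he⟩ := htix x hx n
    exact ⟨w, hw, x, Subgroup.subset_closure hx, he⟩
  -- commutators of C
  have hc1 : ∀ c ∈ C, ∀ x ∈ X, ⁅c, x⁆ ∈ W := by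
    intro c hc x hx
    induction hc using Subgroup.closure_induction with
    | mem y hy => exact hxx y hy x hx
    | one => simp
    | mul a b ha0 _ ha hb =>
      have h3 : ⁅a * b, x⁆ = (a * ⁅b, x⁆ * a⁻¹) * ⁅a, x⁆ := by
        simp only [commutatorElement_def]; group
      rw [h3]
      exact W.mul_mem (hWconj a (hχC a ha0).ge _ hb) ha
    | inv a ha0 ha =>
      have h3 : ⁅a⁻¹, x⁆ = a⁻¹ * ⁅a, x⁆⁻¹ * a⁻¹⁻¹ := by
        simp only [commutatorElement_def]; group
      rw [h3]
      exact hWconj a⁻¹ (hχC _ (C.inv_mem ha0)).ge _ (W.inv_mem ha)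
  have hc2 : ∀ c' ∈ C, ∀ c ∈ C, ⁅c, c'⁆ ∈ W := by
    intro c' hc' c hc
    induction hc' using Subgroup.closure_induction with
    | mem y hy => exact hc1 c hc y hy
    | one => simp
    | mul a b ha0 _ ha hb =>
      have h3 : ⁅c, a * b⁆ = ⁅c, a⁆ * (a * ⁅c, b⁆ * a⁻¹) := by
        simp only [commutatorElement_def]; group
      rw [h3]
      exact W.mul_mem ha (hWconj a (hχC a ha0).ge _ hb)
    | inv a ha0 ha =>
      have h3 : ⁅c, a⁻¹⁆ = a⁻¹ * ⁅c, a⁆⁻¹ * a⁻¹⁻¹ := by
        simp only [commutatorElement_def]; group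
      rw [h3]
      exact hWconj a⁻¹ (hχC _ (C.inv_mem ha0)).ge _ (W.inv_mem ha)
  have hCC : ⁅C, C⁆ ≤ W := by
    rw [Subgroup.commutator_le]
    intro c hc c' hc'
    exact hc2 c' hc' c hc
  -- conclusion
  obtain ⟨w, hw, c, hc, hac⟩ := hBWC (hcon a ha)
  have hcA : c ∈ commutator G := by
    have : c = w⁻¹ * a := by rw [hac]; group
    rw [this]
    exact Subgroup.mul_mem _ (Subgroup.inv_mem _ (hWA w hw)) ha
  obtain ⟨s, hs, hsc⟩ := hS2' ⟨c, hc⟩ hcA
  have hsW : (s : G) ∈ W := by
    have : (Subgroup.closure (S2 : Set C)).map C.subtype ≤ W := by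
      rw [MonoidHom.map_closure, Subgroup.closure_le]
      rintro _ ⟨s', hs', rfl⟩
      apply hSW
      simp only [S, Finset.mem_union, Finset.mem_image]
      exact Or.inr ⟨s', hs', rfl⟩
    exact this ⟨s, hs, rfl⟩
  have hd : (s : G)⁻¹ * c ∈ W := by
    apply hCC
    rw [← Subgroup.map_subtype_commutator]
    exact ⟨_, hsc, rfl⟩
  have hcW : c ∈ W := by
    have : c = (s : G) * ((s : G)⁻¹ * c) := by group
    rw [this]
    exact W.mul_mem hsW hd
  rw [hac]
  exact W.mul_mem hw hcW

/-- Part C (characters). -/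
theorem charData {G : Type} [Group G] (hfg : Group.FG G)
    (hmet : ∀ a ∈ commutator G, ∀ b ∈ commutator G, a * b = b * a)
    (χ : G → ℤ) (hχ : IsHomZ χ) (ht : ∃ t, χ t = 1) (hN : NotFG χ) :
    HasCharData (commutator G) χ := by
  classical
  obtain ⟨t, ht⟩ := ht
  intro Ω
  obtain ⟨Ωg, hΩg⟩ := Group.fg_def.1 hfg
  let X : Finset G := (Ω ∪ Ωg).image (fun w => w * t ^ (-χ w))
  have hX : ∀ x ∈ X, χ x = 0 := by
    intro x hx
    rw [Finset.mem_image] at hx
    obtain ⟨w, _, rfl⟩ := hx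
    rw [hχ, hχ.map_zpow, ht]; ring
  have hgen : Subgroup.closure (insert t (X : Set G)) = ⊤ := by
    rw [eq_top_iff, ← hΩg, Subgroup.closure_le]
    intro w hw
    have h1 : w * t ^ (-χ w) ∈ Subgroup.closure (insert t (X : Set G)) := by
      apply Subgroup.subset_closure
      right
      rw [Finset.mem_coe, Finset.mem_image]
      exact ⟨w, Finset.mem_union_right _ hw, rfl⟩
    have h2 : t ∈ Subgroup.closure (insert t (X : Set G)) :=
      Subgroup.subset_closure (Set.mem_insert _ _)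
    have h3 : w = w * t ^ (-χ w) * t ^ (χ w) := by group
    rw [h3]
    exact Subgroup.mul_mem _ h1 (Subgroup.zpow_mem _ h2 _)
  have hdec := decomp_Bgp hχ ht hX hgen
  let B := Bgp t (X : Set G)
  have hA := hχ.map_commutator
  have hnorm : (commutator G).Normal := inferInstance
  -- conjugation by the half space
  have hconj : ∀ g, 0 ≤ χ g → ∀ a ∈ commutator G, a ∈ B → g * a * g⁻¹ ∈ B := by
    intro g hg a ha haB
    obtain ⟨a', ha', b, hb, he⟩ := hdec g
    have hg' : g = a' * b * t ^ (χ g) := by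
      rw [← he]; group
    have h1 : t ^ χ g * a * t ^ (-χ g) ∈ B := Bgp_conj _ hg a haB
    have h1A : t ^ χ g * a * t ^ (-χ g) ∈ commutator G := by
      rw [zpow_neg]; exact hnorm.conj_mem a ha _
    have h2 : b * (t ^ χ g * a * t ^ (-χ g)) * b⁻¹ ∈ B :=
      B.mul_mem (B.mul_mem hb h1) (B.inv_mem hb)
    have h2A : b * (t ^ χ g * a * t ^ (-χ g)) * b⁻¹ ∈ commutator G := hnorm.conj_mem _ h1A _
    have h3 : g * a * g⁻¹ = a' * (b * (t ^ χ g * a * t ^ (-χ g)) * b⁻¹) * a'⁻¹ := by
      conv_lhs => rw [hg']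
      simp only [mul_inv_rev, zpow_neg, mul_assoc]
    rw [h3, hmet a' ha' _ h2A]
    have h4 : b * (t ^ χ g * a * t ^ (-χ g)) * b⁻¹ * a' * a'⁻¹ =
        b * (t ^ χ g * a * t ^ (-χ g)) * b⁻¹ := by group
    rw [h4]
    exact h2
  obtain ⟨x, hxA, hxB⟩ := exists_not_mem_Bgp hχ ht X hX hN
  let K : Subgroup G :=
    { carrier := {g | χ g = 0}
      mul_mem' := by
        intro a b ha hb
        simp only [Set.mem_ofPred_eq] at *
        rw [hχ, ha, hb]; rfl
      one_mem' := hχ.map_one
      inv_mem' := by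
        intro a ha
        simp only [Set.mem_ofPred_eq] at *
        rw [hχ.map_inv, ha]; rfl }
  have hK : ∀ g ∈ K, χ g = 0 := fun g hg => hg
  obtain ⟨y, hy1, hy2, hy3, S0, hS0, hS0'⟩ := exists_y hfg hmet K B
    (fun g hg a ha haB => hconj g (hK g hg).ge a ha haB) x hxA hxB
  -- the gauge
  let yt : G → ℂ := fun g =>
    if hg : ∃ a ∈ commutator G, ∃ b ∈ B, g * t ^ (-χ g) = a * b then y hg.choose else 1
  have hyt : ∀ g a b, a ∈ commutator G → b ∈ B → g * t ^ (-χ g) = a * b → yt g = y a := by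
    intro g a b ha hb he
    have hex : ∃ a ∈ commutator G, ∃ b ∈ B, g * t ^ (-χ g) = a * b := ⟨a, ha, b, hb, he⟩
    have h1 : yt g = y hex.choose := by
      simp only [yt]; rw [dif_pos hex]
    obtain ⟨ha', b', hb', he'⟩ := hex.choose_spec
    rw [h1]
    set a' := hex.choose with ha'def
    have h2 : a⁻¹ * a' ∈ B := by
      have : a⁻¹ * a' = b * b'⁻¹ := by
        have h3 : a * b = a' * b' := by rw [← he, he']
        calc a⁻¹ * a' = a⁻¹ * (a' * b') * b'⁻¹ := by group
          _ = a⁻¹ * (a * b) * b'⁻¹ := by rw [h3]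
          _ = b * b'⁻¹ := by group
      rw [this]
      exact B.mul_mem hb (B.inv_mem hb')
    have h3A : a⁻¹ * a' ∈ commutator G := Subgroup.mul_mem _ (Subgroup.inv_mem _ ha) ha'
    have h4 : a' = a * (a⁻¹ * a') := by group
    rw [h4, hy1 a ha _ h3A, hy3 _ h3A h2, mul_one]
  -- gauge invariance
  have hinvX : ∀ g x, 0 ≤ χ g → x ∈ X → yt (g * x) = yt g := by
    intro g x hg hx
    obtain ⟨a, ha, b, hb, he⟩ := hdec g
    have h1 : t ^ χ g * x * t ^ (-χ g) ∈ B := Bgp_conj _ hg x (subset_Bgp x hx)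
    rw [hyt g a b ha hb he]
    refine hyt (g * x) a (b * (t ^ χ g * x * t ^ (-χ g))) ha (B.mul_mem hb h1) ?_
    have h2 : χ (g * x) = χ g := by rw [hχ, hX x hx]; ring
    rw [h2, ← mul_assoc, ← he]
    group
  have hinvt : ∀ g (n : ℤ), yt (g * t ^ n) = yt g := by
    intro g n
    obtain ⟨a, ha, b, hb, he⟩ := hdec g
    rw [hyt g a b ha hb he]
    refine hyt (g * t ^ n) a b ha hb ?_
    rw [hχ, hχ.map_zpow, ht, ← he]
    group
  refine ⟨y, yt, hy1, ?_, ?_, ?_, ?_, S0, hS0, ?_⟩
  · intro g _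
    obtain ⟨a, ha, b, hb, he⟩ := hdec g
    rw [hyt g a b ha hb he]
    exact hy2 a ha
  · intro a ha g _
    obtain ⟨a', ha', b, hb, he⟩ := hdec g
    rw [hyt g a' b ha' hb he, ← hy1 a ha a' ha']
    refine hyt (a * g) (a * a') b (Subgroup.mul_mem _ ha ha') hb ?_
    have h2 : χ (a * g) = χ g := by rw [hχ, hA a ha]; ring
    rw [h2, mul_assoc, he, mul_assoc]
  · intro ω hω g hg hgω
    have hx : ω * t ^ (-χ ω) ∈ X := by
      rw [Finset.mem_image]
      exact ⟨ω, Finset.mem_union_left _ hω, rfl⟩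
    have h1 := hinvX g _ hg hx
    have h2 := hinvt (g * (ω * t ^ (-χ ω))) (χ ω)
    have h3 : g * (ω * t ^ (-χ ω)) * t ^ (χ ω) = g * ω := by group
    rw [h3] at h2
    rw [h2, h1]
  · intro s hs
    obtain ⟨N, hN'⟩ := eventually_Bgp hχ ht hX hgen s (hA s hs)
    refine ⟨max N 0, fun g hg => ?_⟩
    have hgN : N ≤ χ g := le_trans (le_max_left _ _) hg
    obtain ⟨a, ha, b, hb, he⟩ := hdec g
    have hg' : g = a * b * t ^ (χ g) := by
      rw [← he]; group
    have h1 : t ^ χ g * s * t ^ (-χ g) ∈ B := hN' _ hgN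
    have h1A : t ^ χ g * s * t ^ (-χ g) ∈ commutator G := by
      rw [zpow_neg]; exact hnorm.conj_mem s hs _
    have h2 : b * (t ^ χ g * s * t ^ (-χ g)) * b⁻¹ ∈ B :=
      B.mul_mem (B.mul_mem hb h1) (B.inv_mem hb)
    have h2A : b * (t ^ χ g * s * t ^ (-χ g)) * b⁻¹ ∈ commutator G := hnorm.conj_mem _ h1A _
    have h3 : g * s * g⁻¹ = a * (b * (t ^ χ g * s * t ^ (-χ g)) * b⁻¹) * a⁻¹ := by
      conv_lhs => rw [hg']
      simp only [mul_inv_rev, zpow_neg, mul_assoc]
    rw [h3, hmet a ha _ h2A]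
    have h4 : b * (t ^ χ g * s * t ^ (-χ g)) * b⁻¹ * a * a⁻¹ =
        b * (t ^ χ g * s * t ^ (-χ g)) * b⁻¹ := by group
    rw [h4]
    exact hy3 _ h2A h2
  · intro g hg
    exact hS0' g hg

end Pool.Agent.FPm
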