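import Pool.Agent.Lib.MP_f973c6_al.Defs

/-! Cochains on free modules over an integral group ring, as additive functionals. -/

set_option autoImplicit false

namespace Pool.Agent.FPm

variable {G : Type} [Group G]

/-- The free module with `n` generators over the integral group ring. -/
abbrev FM (G : Type) [Group G] (n : ℕ) : Type := Fin n → MonoidAlgebra ℤ G

/-- Complex valued cochains. -/
abbrev Coc (G : Type) [Group G] (n : ℕ) : Type := FM G n →+ ℂ

/-- The element `g` of the group ring. -/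
noncomputable abbrev gr (g : G) : MonoidAlgebra ℤ G := MonoidAlgebra.of ℤ G g

/-- The additive basis element `g e_l`. -/
noncomputable def bas {n : ℕ} (g : G) (l : Fin n) : FM G n := Pi.single l (gr g)

theorem gr_mul (g h : G) : gr (g * h) = gr g * gr h := map_mul _ _ _

theorem gr_smul_smul {n : ℕ} (g h : G) (x : FM G n) : gr g • gr h • x = gr (g * h) • x := by
  rw [smul_smul, gr_mul]

theorem gr_one_smul {n : ℕ} (x : FM G n) : gr (1 : G) • x = x := by
  rw [gr, map_one, one_smul]

theorem smul_bas {n : ℕ} (u g : G) (l : Fin n) : gr u • bas g l = bas (u * g) l := by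
  unfold bas
  rw [gr_mul]
  ext j
  rw [Pi.smul_apply]
  by_cases h : j = l
  · subst h
    simp
  · simp [Pi.single_eq_of_ne h]

/-- decomposition of an element into basis elements -/
theorem decomp {n : ℕ} (x : FM G n) :
    x = ∑ l, (x l).coeff.sum (fun g z => z • bas g l) := by
  have h1 : x = ∑ l, Pi.single l (x l) := by
    rw [Finset.univ_sum_single]
  conv_lhs => rw [h1]
  refine Finset.sum_congr rfl (fun l _ => ?_)
  have h2 : x l = (x l).coeff.sum (fun g z => z • gr g) := by
    conv_lhs => rw [← MonoidAlgebra.sum_coeff_single (x l)]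
    refine Finsupp.sum_congr (fun g _ => ?_)
    simp [gr, MonoidAlgebra.of_apply]
  conv_lhs => rw [h2]
  unfold Finsupp.sum
  have h3 : ∀ (s : Finset G) (f : G → MonoidAlgebra ℤ G),
      (Pi.single l (∑ g ∈ s, f g) : FM G n) = ∑ g ∈ s, Pi.single l (f g) := by
    intro s f
    exact map_sum (AddMonoidHom.single (fun _ : Fin n => MonoidAlgebra ℤ G) l) f s
  rw [h3]
  refine Finset.sum_congr rfl (fun g _ => ?_)
  unfold bas
  rw [Pi.single_smul]

theorem hom_ext_bas {B : Type*} [AddCommGroup B] {n : ℕ} {Φ Ψ : FM G n →+ B}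
    (h : ∀ g l, Φ (bas g l) = Ψ (bas g l)) : Φ = Ψ := by
  refine DFunLike.ext _ _ (fun x => ?_)
  rw [decomp x]
  simp only [map_sum, Finsupp.sum, map_zsmul, h]

/-- The additive functional with prescribed values on the basis. -/
noncomputable def liftF {B : Type*} [AddCommGroup B] {n : ℕ} (f : G → Fin n → B) : FM G n →+ B :=
  ∑ l, ((Finsupp.liftAddHom (fun g => (zmultiplesHom B) (f g l))).comp
    (MonoidAlgebra.coeffAddEquiv.toAddMonoidHom)).comp
      (Pi.evalAddMonoidHom (fun _ : Fin n => MonoidAlgebra ℤ G) l)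

theorem liftF_bas {B : Type*} [AddCommGroup B] {n : ℕ} (f : G → Fin n → B) (g : G) (l : Fin n) :
    liftF f (bas g l) = f g l := by
  unfold liftF bas
  rw [AddMonoidHom.finsetSum_apply]
  rw [Finset.sum_eq_single l]
  · simp [gr, MonoidAlgebra.of_apply]
  · intro j _ hj
    simp [Pi.single_eq_of_ne hj]
  · intro h
    exact absurd (Finset.mem_univ l) h

/-- The support of an element in the group. -/
noncomputable def supp {n : ℕ} (x : FM G n) : Finset G :=
  by classical exact Finset.univ.biUnion (fun l => (x l).coeff.support)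

theorem mem_supp {n : ℕ} (x : FM G n) (g : G) : g ∈ supp x ↔ ∃ l, (x l).coeff g ≠ 0 := by
  classical
  unfold supp
  simp

theorem eval_congr {B : Type*} [AddCommGroup B] {n : ℕ} {Φ Ψ : FM G n →+ B} {x : FM G n} {u : G}
    (h : ∀ b ∈ supp x, ∀ l, Φ (bas (u * b) l) = Ψ (bas (u * b) l)) :
    Φ (gr u • x) = Ψ (gr u • x) := by
  rw [decomp x]
  simp only [Finset.smul_sum, map_sum, Finsupp.sum]
  refine Finset.sum_congr rfl (fun l _ => Finset.sum_congr rfl (fun g hg => ?_))
  rw [smul_comm, smul_bas, map_zsmul, map_zsmul, h g ?_ l]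
  rw [mem_supp]
  exact ⟨l, by simpa using hg⟩

theorem eval_zero {B : Type*} [AddCommGroup B] {n : ℕ} {Φ : FM G n →+ B} {x : FM G n} {u : G}
    (h : ∀ b ∈ supp x, ∀ l, Φ (bas (u * b) l) = 0) : Φ (gr u • x) = 0 := by
  have := eval_congr (Φ := Φ) (Ψ := 0) (x := x) (u := u) (by simpa using h)
  simpa using this

/-- pointwise multiplication of a cochain with a function on the group -/
noncomputable def mulF {n : ℕ} (f : G → ℂ) (Φ : Coc G n) : Coc G n :=
  liftF (fun g l => f g * Φ (bas g l))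

theorem mulF_bas {n : ℕ} (f : G → ℂ) (Φ : Coc G n) (g : G) (l : Fin n) :
    mulF f Φ (bas g l) = f g * Φ (bas g l) := liftF_bas _ _ _

theorem mulF_const {n : ℕ} {f : G → ℂ} {Φ : Coc G n} {x : FM G n} {u : G} {c : ℂ}
    (h : ∀ b ∈ supp x, f (u * b) = c) : mulF f Φ (gr u • x) = c * Φ (gr u • x) := by
  have := eval_congr (Φ := mulF f Φ) (Ψ := (AddMonoidHom.mulLeft c).comp Φ) (x := x) (u := u)
    (by
      intro b hb l
      rw [mulF_bas, h b hb]
      rfl)
  rw [this]
  rfl

/-- equivariance of a cochain under left multiplication by `A` with factor `y` -/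
def Eqv {n : ℕ} (A : Subgroup G) (y : G → ℂ) (Φ : Coc G n) : Prop :=
  ∀ a ∈ A, ∀ x, Φ (gr a • x) = y a * Φ x

theorem eqv_of_bas {n : ℕ} {A : Subgroup G} {y : G → ℂ} {Φ : Coc G n}
    (h : ∀ a ∈ A, ∀ g l, Φ (bas (a * g) l) = y a * Φ (bas g l)) : Eqv A y Φ := by
  intro a ha x
  have : Φ.comp (DistribSMul.toAddMonoidHom (FM G n) (gr a)) = (AddMonoidHom.mulLeft (y a)).comp Φ := by
    apply hom_ext_bas
    intro g l
    simp only [AddMonoidHom.comp_apply, DistribSMul.toAddMonoidHom_apply, AddMonoidHom.coe_mulLeft]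
    rw [smul_bas, h a ha]
  exact DFunLike.congr_fun this x

theorem Eqv.bas {n : ℕ} {A : Subgroup G} {y : G → ℂ} {Φ : Coc G n} (h : Eqv A y Φ)
    {a : G} (ha : a ∈ A) (g : G) (l : Fin n) : Φ (bas (a * g) l) = y a * Φ (bas g l) := by
  rw [← smul_bas, h a ha]

/-- support condition -/
def SuppIn {n : ℕ} (Φ : Coc G n) (S : Set G) : Prop := ∀ g, g ∉ S → ∀ l, Φ (bas g l) = 0

theorem SuppIn.mono {n : ℕ} {Φ : Coc G n} {S T : Set G} (h : SuppIn Φ S) (hST : S ⊆ T) :
    SuppIn Φ T := fun g hg l => h g (fun h' => hg (hST h')) l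

theorem SuppIn.add {n : ℕ} {Φ Ψ : Coc G n} {S : Set G} (h : SuppIn Φ S) (h' : SuppIn Ψ S) :
    SuppIn (Φ + Ψ) S := fun g hg l => by
  rw [AddMonoidHom.add_apply, h g hg l, h' g hg l, add_zero]

theorem SuppIn.sub {n : ℕ} {Φ Ψ : Coc G n} {S : Set G} (h : SuppIn Φ S) (h' : SuppIn Ψ S) :
    SuppIn (Φ - Ψ) S := fun g hg l => by
  rw [AddMonoidHom.sub_apply, h g hg l, h' g hg l, sub_zero]

/-- extension of an `A`-linear map through a surjection, using coset representatives -/
theorem extA (A : Subgroup G) [A.Normal] {n n' : ℕ}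
    (D : FM G n' →ₗ[MonoidAlgebra ℤ G] FM G n) (T : FM G n →+ FM G n)
    (hT : ∀ a ∈ A, ∀ x, T (gr a • x) = gr a • T x)
    (hrange : ∀ g l, T (bas g l) ∈ LinearMap.range D) :
    ∃ h : FM G n →+ FM G n', (∀ a ∈ A, ∀ x, h (gr a • x) = gr a • h x) ∧ ∀ x, D (h x) = T x := by
  choose q hq using hrange
  let rep : G → G := fun g => (QuotientGroup.mk g : G ⧸ A).out
  have hrep : ∀ g, g * (rep g)⁻¹ ∈ A := by
    intro g
    have h1 : (QuotientGroup.mk (rep g) : G ⧸ A) = QuotientGroup.mk g := Quotient.out_eq _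
    rw [← QuotientGroup.eq_one_iff, QuotientGroup.mk_mul, QuotientGroup.mk_inv, h1, mul_inv_cancel]
  have hrepa : ∀ a ∈ A, ∀ g, rep (a * g) = rep g := by
    intro a ha g
    have : (QuotientGroup.mk (a * g) : G ⧸ A) = QuotientGroup.mk g := by
      rw [QuotientGroup.mk_mul, (QuotientGroup.eq_one_iff a).2 ha, one_mul]
    simp only [rep, this]
  refine ⟨liftF (fun g l => gr (g * (rep g)⁻¹) • q (rep g) l), ?_, ?_⟩
  · intro a ha x
    have : (liftF (fun g l => gr (g * (rep g)⁻¹) • q (rep g) l)).comp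
        (DistribSMul.toAddMonoidHom (FM G n) (gr a)) =
        (DistribSMul.toAddMonoidHom (FM G n') (gr a)).comp
          (liftF (fun g l => gr (g * (rep g)⁻¹) • q (rep g) l)) := by
      apply hom_ext_bas
      intro g l
      simp only [AddMonoidHom.comp_apply, DistribSMul.toAddMonoidHom_apply]
      rw [smul_bas, liftF_bas, liftF_bas, hrepa a ha, gr_smul_smul, mul_assoc]
    exact DFunLike.congr_fun this x
  · intro x
    have : (D.toAddMonoidHom).comp (liftF (fun g l => gr (g * (rep g)⁻¹) • q (rep g) l)) = T := by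
      apply hom_ext_bas
      intro g l
      simp only [AddMonoidHom.comp_apply, LinearMap.toAddMonoidHom_coe]
      rw [liftF_bas, map_smul, hq, ← hT _ (hrep g), smul_bas, mul_assoc, inv_mul_cancel, mul_one]
    exact DFunLike.congr_fun this x

end Pool.Agent.FPm
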