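import Pool.Agent.Lib.MP_f973c6_al.KeyMain

/-! Mayer-Vietoris over the half spaces and the core theorem. -/

set_option autoImplicit false

namespace Pool.Agent.FPm

variable {G : Type} [Group G]

/-- union over `J` intersected with the intersection over `K` of half spaces -/
def WR {r : ℕ} (χ : Fin r → G → ℤ) (J K : Finset (Fin r)) (R : ℤ) : Set G :=
  {g | (∃ i ∈ J, -R ≤ χ i g) ∧ ∀ l ∈ K, -R ≤ χ l g}

omit [Group G] in
theorem WR_mono {r : ℕ} {χ : Fin r → G → ℤ} {J K : Finset (Fin r)} {R R' : ℤ} (h : R ≤ R') :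
    WR χ J K R ⊆ WR χ J K R' := by
  rintro g ⟨⟨i, hi, h1⟩, h2⟩
  refine ⟨⟨i, hi, by omega⟩, fun l hl => ?_⟩
  have := h2 l hl
  omega

theorem Bd_mono {m : ℕ} {F : Res G m} {A : Subgroup G} {S T : Set G} (hST : S ⊆ T) :
    ∀ {j : ℕ} {Φ : Coc G (F.n j)}, Bd F A S j Φ → Bd F A T j Φ
  | 0, _, h => h
  | _ + 1, _, ⟨Θ, h1, h2, h3⟩ => ⟨Θ, h1, h2.mono hST, h3⟩

theorem Bd_add {m : ℕ} {F : Res G m} {A : Subgroup G} {S : Set G} :
    ∀ {j : ℕ} {Φ Φ' : Coc G (F.n j)}, Bd F A S j Φ → Bd F A S j Φ' → Bd F A S j (Φ + Φ')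
  | 0, Φ, Φ', h, h' => by
    change Φ = 0 at h
    change Φ' = 0 at h'
    change Φ + Φ' = 0
    rw [h, h', add_zero]
  | j + 1, _, _, ⟨Θ, h1, h2, h3⟩, ⟨Θ', h1', h2', h3'⟩ => by
    refine ⟨Θ + Θ', ?_, h2.add h2', ?_⟩
    · have := h1.add h1'
      exact this
    · rw [h3, h3']
      rfl

theorem mv {m : ℕ} (F : Res G m) {A : Subgroup G} [A.Normal]
    (hA : ∀ a ∈ A, ∀ b ∈ A, a * b = b * a) {r : ℕ} (hrm : r ≤ m) {χ : Fin r → G → ℤ}
    (hg : GoodFamily G r χ) (hχA : ∀ i, ∀ a ∈ A, χ i a = 0)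
    (hdata : ∀ i, HasCharData A (χ i)) (J : Finset (Fin r)) :
    J.Nonempty → ∀ (K : Finset (Fin r)) (j : ℕ), j + J.card ≤ r →
    ∃ D : ℤ, 0 ≤ D ∧ ∀ R : ℤ, 0 ≤ R →
      ∀ Φ : Coc G (F.n j), Eqv A (fun _ => 1) Φ → Φ.comp (F.d j).toAddMonoidHom = 0 →
        SuppIn Φ (WR χ J K R) → Bd F A (WR χ J K (R + D)) j Φ := by
  classical
  -- base case
  have base : ∀ (a : Fin r) (K : Finset (Fin r)) (j : ℕ), j + 1 ≤ r →
      ∃ D : ℤ, 0 ≤ D ∧ ∀ R : ℤ, 0 ≤ R →
      ∀ Φ : Coc G (F.n j), Eqv A (fun _ => 1) Φ → Φ.comp (F.d j).toAddMonoidHom = 0 →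
        SuppIn Φ (WR χ {a} K R) → Bd F A (WR χ {a} K (R + D)) j Φ := by
    intro a K j hj
    obtain ⟨D, hD, hkey⟩ := key F hA hg hχA hdata j (by omega)
    have heq : ∀ R, WR χ {a} K R = PiR χ (insert a K) R := by
      intro R
      ext g
      constructor
      · rintro ⟨⟨i, hi, h1⟩, h2⟩ l hl
        rw [Finset.mem_singleton] at hi
        subst hi
        rcases Finset.mem_insert.1 hl with rfl | hl
        · exact h1
        · exact h2 l hl
      · intro h
        exact ⟨⟨a, Finset.mem_singleton_self a, h a (Finset.mem_insert_self _ _)⟩,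
          fun l hl => h l (Finset.mem_insert_of_mem hl)⟩
    refine ⟨D, hD, ?_⟩
    intro R hR Φ h1 h2 h3
    rw [heq] at h3 ⊢
    exact hkey _ (Finset.insert_nonempty _ _) R hR Φ h1 h2 h3
  induction J using Finset.induction_on with
  | empty => exact fun h => absurd h Finset.not_nonempty_empty
  | insert a J' ha ih =>
    intro _ K j hcard
    rcases J'.eq_empty_or_nonempty with rfl | hJ'
    · simp only [insert_empty_eq]
      exact base a K j (by simpa using hcard)
    · rw [Finset.card_insert_of_notMem ha] at hcard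
      have hcard1 : 1 ≤ J'.card := hJ'.card_pos
      obtain ⟨D1, hD1, ih1⟩ := ih hJ' (insert a K) (j + 1) (by omega)
      obtain ⟨D3, hD3, ih3⟩ := ih hJ' K j (by omega)
      obtain ⟨D2, hD2, ih2⟩ := base a K j (by omega)
      set Om : Finset G := Finset.univ.biUnion (fun l : Fin (F.n (j + 1)) =>
        supp (F.d j (bas (1 : G) l))) with hOm
      have hOmd : ∀ l, supp (F.d j (bas (1 : G) l)) ⊆ Om := by
        intro l w hw
        simp only [hOm, Finset.mem_biUnion, Finset.mem_univ, true_and]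
        exact ⟨l, hw⟩
      set C0 : ℤ := bd χ Om with hC0def
      have hC0n : 0 ≤ C0 := bd_nonneg χ Om
      refine ⟨C0 + D1 + D2 + D3, by omega, ?_⟩
      intro R hR Φ hΦ hcoc hsupp
      set f : G → ℂ := fun g => if -R ≤ χ a g then 1 else 0 with hf
      set Φ1 := mulF f Φ with hΦ1
      set Φ2 := Φ - Φ1 with hΦ2
      have hΦ1E : Eqv A (fun _ => 1) Φ1 := by
        apply eqv_of_bas
        intro b hb g l
        rw [hΦ1, mulF_bas, mulF_bas, hΦ.bas hb, one_mul, one_mul]
        simp only [hf]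
        rw [hg.hom a, hχA a b hb, zero_add]
      have hΦ2E : Eqv A (fun _ => 1) Φ2 := hΦ.sub hΦ1E
      have hs1 : SuppIn Φ1 (WR χ {a} K R) := by
        intro g hgn l
        rw [hΦ1, mulF_bas]
        simp only [hf]
        by_cases h1 : -R ≤ χ a g
        · by_cases h2 : g ∈ WR χ (insert a J') K R
          · exact absurd ⟨⟨a, Finset.mem_singleton_self a, h1⟩, h2.2⟩ hgn
          · rw [hsupp g h2 l, mul_zero]
        · rw [if_neg h1, zero_mul]
      have hs2 : SuppIn Φ2 (WR χ J' K R) := by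
        intro g hgn l
        rw [hΦ2, AddMonoidHom.sub_apply, hΦ1, mulF_bas]
        simp only [hf]
        by_cases h2 : g ∈ WR χ (insert a J') K R
        · obtain ⟨⟨i, hi, h3⟩, h4⟩ := h2
          rcases Finset.mem_insert.1 hi with rfl | hi
          · rw [if_pos h3, one_mul, sub_self]
          · exact absurd ⟨⟨i, hi, h3⟩, h4⟩ hgn
        · rw [hsupp g h2 l, mul_zero, sub_zero]
      -- enlargement of supports under the differential
      have henl : ∀ (J0 : Finset (Fin r)) (Ψ : Coc G (F.n j)), SuppIn Ψ (WR χ J0 K R) →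
          ∀ g, g ∉ WR χ J0 K (R + C0) → ∀ l, Ψ (F.d j (bas g l)) = 0 := by
        intro J0 Ψ hΨ g hgn l
        have hb : F.d j (bas g l) = gr g • F.d j (bas (1 : G) l) := by
          rw [← map_smul, smul_bas, mul_one]
        rw [hb]
        apply eval_zero
        intro b hb' l'
        apply hΨ
        rintro ⟨⟨i, hi, h1⟩, h2⟩
        apply hgn
        have hbO := hOmd l hb'
        refine ⟨⟨i, hi, ?_⟩, ?_⟩
        · rw [hg.hom i] at h1
          have := bd_upper χ Om hbO i
          omega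
        · intro l'' hl''
          have h3 := h2 l'' hl''
          rw [hg.hom l''] at h3
          have := bd_upper χ Om hbO l''
          omega
      set Ψ : Coc G (F.n (j + 1)) := Φ1.comp (F.d j).toAddMonoidHom with hΨ
      have hΨE : Eqv A (fun _ => 1) Ψ := by
        intro b hb x
        simp only [hΨ, AddMonoidHom.comp_apply, LinearMap.toAddMonoidHom_coe]
        rw [map_smul, hΦ1E b hb]
      have hΨc : Ψ.comp (F.d (j + 1)).toAddMonoidHom = 0 := by
        refine DFunLike.ext _ _ (fun x => ?_)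
        simp only [hΨ, AddMonoidHom.comp_apply, LinearMap.toAddMonoidHom_coe,
          AddMonoidHom.zero_apply]
        rw [dd F j (by omega), map_zero]
      have hΨ2 : ∀ x, Φ2 (F.d j x) = - Φ1 (F.d j x) := by
        intro x
        rw [hΦ2, AddMonoidHom.sub_apply]
        have := DFunLike.congr_fun hcoc x
        simp only [AddMonoidHom.comp_apply, LinearMap.toAddMonoidHom_coe,
          AddMonoidHom.zero_apply] at this
        rw [this, zero_sub]
      have hΨs : SuppIn Ψ (WR χ J' (insert a K) (R + C0)) := by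
        intro g hgn l
        simp only [hΨ, AddMonoidHom.comp_apply, LinearMap.toAddMonoidHom_coe]
        by_cases h1 : g ∈ WR χ {a} K (R + C0)
        · by_cases h2 : g ∈ WR χ J' K (R + C0)
          · exfalso
            apply hgn
            refine ⟨h2.1, ?_⟩
            intro l' hl'
            rcases Finset.mem_insert.1 hl' with rfl | hl'
            · obtain ⟨i, hi, h3⟩ := h1.1
              rw [Finset.mem_singleton] at hi
              subst hi
              exact h3
            · exact h2.2 l' hl'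
          · have := henl J' Φ2 hs2 g h2 l
            rw [hΨ2, neg_eq_zero] at this
            exact this
        · exact henl {a} Φ1 hs1 g h1 l
      obtain ⟨Θ0, hΘ0E, hΘ0s, hΘ0d⟩ := ih1 (R + C0) (by omega) Ψ hΨE hΨc hΨs
      -- the two corrected pieces
      have hP1 : Bd F A (WR χ {a} K (R + C0 + D1 + D2)) j (Φ1 - Θ0) := by
        apply ih2 (R + C0 + D1) (by omega)
        · exact hΦ1E.sub hΘ0E
        · refine DFunLike.ext _ _ (fun x => ?_)
          have := DFunLike.congr_fun hΘ0d x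
          simp only [hΨ, AddMonoidHom.comp_apply, LinearMap.toAddMonoidHom_coe] at this
          simp only [AddMonoidHom.comp_apply, LinearMap.toAddMonoidHom_coe,
            AddMonoidHom.zero_apply, AddMonoidHom.sub_apply]
          rw [this, sub_self]
        · refine (hs1.mono (WR_mono (by omega))).sub (hΘ0s.mono ?_)
          rintro g ⟨_, h2⟩
          exact ⟨⟨a, Finset.mem_singleton_self a, h2 a (Finset.mem_insert_self _ _)⟩,
            fun l hl => h2 l (Finset.mem_insert_of_mem hl)⟩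
      have hP2 : Bd F A (WR χ J' K (R + C0 + D1 + D3)) j (Φ2 + Θ0) := by
        apply ih3 (R + C0 + D1) (by omega)
        · have := hΦ2E.add hΘ0E
          exact this
        · refine DFunLike.ext _ _ (fun x => ?_)
          have := DFunLike.congr_fun hΘ0d x
          simp only [hΨ, AddMonoidHom.comp_apply, LinearMap.toAddMonoidHom_coe] at this
          simp only [AddMonoidHom.comp_apply, LinearMap.toAddMonoidHom_coe,
            AddMonoidHom.zero_apply, AddMonoidHom.add_apply]
          rw [← this, hΨ2, neg_add_cancel]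
        · refine (hs2.mono (WR_mono (by omega))).add (hΘ0s.mono ?_)
          rintro g ⟨h1, h2⟩
          exact ⟨h1, fun l hl => h2 l (Finset.mem_insert_of_mem hl)⟩
      have hsum : Φ = (Φ1 - Θ0) + (Φ2 + Θ0) := by
        rw [hΦ2]
        abel
      rw [hsum]
      apply Bd_add
      · refine Bd_mono ?_ hP1
        rintro g ⟨⟨i, hi, h1⟩, h2⟩
        rw [Finset.mem_singleton] at hi
        subst hi
        refine ⟨⟨i, Finset.mem_insert_self _ _, by omega⟩, fun l hl => ?_⟩
        have := h2 l hl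
        omega
      · refine Bd_mono ?_ hP2
        rintro g ⟨⟨i, hi, h1⟩, h2⟩
        refine ⟨⟨i, Finset.mem_insert_of_mem hi, by omega⟩, fun l hl => ?_⟩
        have := h2 l hl
        omega

/-- Part A: the core theorem. -/
theorem core {G : Type} [Group G] (A : Subgroup G) [A.Normal]
    (hA : ∀ a ∈ A, ∀ b ∈ A, a * b = b * a) (m : ℕ) (hFP : FPcond G m)
    (r : ℕ) (hr : 1 ≤ r) (hrm : r ≤ m) (χ : Fin r → G → ℤ) (hgood : GoodFamily G r χ)
    (hχA : ∀ i, ∀ a ∈ A, χ i a = 0) (hdata : ∀ i, HasCharData A (χ i)) : False := by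
  classical
  obtain ⟨F⟩ := exists_res hFP
  have hne : (Finset.univ : Finset (Fin r)).Nonempty := ⟨⟨0, by omega⟩, Finset.mem_univ _⟩
  obtain ⟨D, hD, h⟩ := mv F hA hrm hgood hχA hdata Finset.univ hne ∅ 0 (by simp)
  let Φ0 : Coc G (F.n 0) := (Int.castAddHom ℂ).comp
    (∑ j, (F.ε.toAddMonoidHom).comp (Pi.evalAddMonoidHom (fun _ => MonoidAlgebra ℤ G) j))
  have hΦ0 : ∀ x, Φ0 x = ((∑ j, F.ε (x j) : ℤ) : ℂ) := by
    intro x
    simp only [Φ0, AddMonoidHom.comp_apply, AddMonoidHom.finsetSum_apply]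
    rfl
  have hb : ∀ (g : G) (l : Fin (F.n 0)), Φ0 (bas g l) = 1 := by
    intro g l
    rw [hΦ0, Finset.sum_eq_single l]
    · unfold bas
      rw [Pi.single_eq_same, F.hε]
      simp
    · intro j _ hj
      unfold bas
      rw [Pi.single_eq_of_ne hj, map_zero]
    · intro h
      exact absurd (Finset.mem_univ l) h
  have hz := h 0 le_rfl Φ0 (eqv_of_bas (fun a ha g l => by rw [hb, hb, one_mul])) (by
    refine DFunLike.ext _ _ (fun x => ?_)
    simp only [AddMonoidHom.comp_apply, LinearMap.toAddMonoidHom_coe, AddMonoidHom.zero_apply]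
    rw [hΦ0, (F.h0 (by omega) (F.d 0 x)).2 ⟨x, rfl⟩]
    simp) (by
    intro g hg l
    exfalso
    obtain ⟨a, ha, hrel⟩ := hgood.rel
    have hall : ∀ i, χ i g < 0 := by
      intro i
      by_contra hi
      apply hg
      exact ⟨⟨i, Finset.mem_univ i, by omega⟩, by simp⟩
    have h2 : ∑ l, a l * χ l g < 0 := by
      refine Finset.sum_neg' (fun l _ => ?_) ⟨⟨0, by omega⟩, Finset.mem_univ _, ?_⟩
      · exact mul_nonpos_of_nonneg_of_nonpos (ha l).le (hall l).le
      · exact mul_neg_of_pos_of_neg (ha _) (hall _)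
    rw [hrel g] at h2
    exact lt_irrefl _ h2)
  change Φ0 = 0 at hz
  obtain ⟨v, hv⟩ := F.hsurj 1
  simp only at hv
  have h1 := hΦ0 v
  rw [hz, hv, AddMonoidHom.zero_apply] at h1
  simp at h1

end Pool.Agent.FPm
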