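import Mathlib

/-! Definitions shared by the parts of the proof that finitely generated metabelian groups of
type FP_m are m-tame. -/

set_option autoImplicit false

namespace Pool.Agent.FPm

variable {G : Type} [Group G]

/-- `χ` is a homomorphism to the integers, written as a plain function. -/
def IsHomZ (χ : G → ℤ) : Prop := ∀ g h, χ (g * h) = χ g + χ h

/-- The real character `χ` lies outside `Σ¹`, in the form used by the frozen statement. -/
def NS (χ : Additive G →+ ℝ) : Prop :=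
  ¬ (∃ S : Finset G, Subgroup.closure (S : Set G) = ⊤ ∧
      (SimpleGraph.induce {g : G | 0 ≤ χ (Additive.ofMul g)}
        (SimpleGraph.fromRel (fun g h : G => ∃ s ∈ S, h = g * s))).Connected)

/-- The commutator subgroup is not finitely generated over the half space `0 ≤ χ`. -/
def NotFG (χ : G → ℤ) : Prop :=
  ∀ S : Finset G, (∀ s ∈ S, s ∈ commutator G) →
    ∃ a ∈ commutator G, a ∉ Subgroup.closure {x : G | ∃ s ∈ S, ∃ g : G, 0 ≤ χ g ∧ x = g * s * g⁻¹}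

/-- Character data: a character `y` of `A` with a gauge function `yt` on the half space `0 ≤ χ`,
eventually trivial on each element of `A`, and uniformly non trivial along `χ = 0`. -/
def HasCharData (A : Subgroup G) (χ : G → ℤ) : Prop :=
  ∀ Ω : Finset G, ∃ (y yt : G → ℂ),
    (∀ a ∈ A, ∀ b ∈ A, y (a * b) = y a * y b) ∧
    (∀ g, 0 ≤ χ g → yt g ≠ 0) ∧
    (∀ a ∈ A, ∀ g, 0 ≤ χ g → yt (a * g) = y a * yt g) ∧
    (∀ ω ∈ Ω, ∀ g, 0 ≤ χ g → 0 ≤ χ (g * ω) → yt (g * ω) = yt g) ∧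
    (∀ s ∈ A, ∃ N : ℤ, ∀ g, N ≤ χ g → y (g * s * g⁻¹) = 1) ∧
    (∃ S0 : Finset G, (∀ s ∈ S0, s ∈ A) ∧
      ∀ g, χ g = 0 → ∃ s ∈ S0, y (g * s * g⁻¹) ≠ 1)

/-- The finite type partial resolution of the frozen statement. -/
def FPcond (G : Type) [Group G] (m : ℕ) : Prop :=
  ∃ (ε : MonoidAlgebra ℤ G →+* ℤ) (n : ℕ → ℕ)
    (d : ∀ i : ℕ, (Fin (n (i + 1)) → MonoidAlgebra ℤ G) →ₗ[MonoidAlgebra ℤ G]
      (Fin (n i) → MonoidAlgebra ℤ G)),
    (∀ g : G, ε (MonoidAlgebra.of ℤ G g) = 1) ∧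
    Function.Surjective
        (fun v : Fin (n 0) → MonoidAlgebra ℤ G => ∑ j, ε (v j)) ∧
      (1 ≤ m → ∀ v : Fin (n 0) → MonoidAlgebra ℤ G,
        (∑ j, ε (v j) = 0 ↔ v ∈ LinearMap.range (d 0))) ∧
      (∀ i : ℕ, i + 1 < m → LinearMap.ker (d i) = LinearMap.range (d (i + 1)))

/-- The m-tameness condition of the frozen statement. -/
def TameCond (G : Type) [Group G] (m : ℕ) : Prop :=
  ∀ k : ℕ, k ≤ m → ∀ χ : Fin k → (Additive G →+ ℝ),
    (∀ i, χ i ≠ 0 ∧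
      ¬ (∃ S : Finset G, Subgroup.closure (S : Set G) = ⊤ ∧
          (SimpleGraph.induce {g : G | 0 ≤ χ i (Additive.ofMul g)}
            (SimpleGraph.fromRel (fun g h : G => ∃ s ∈ S, h = g * s))).Connected)) →
    ¬ ∃ c : Fin k → ℝ, (∀ i, 0 ≤ c i) ∧ (∃ i, c i ≠ 0) ∧
        ∀ g : G, ∑ i, c i * χ i (Additive.ofMul g) = 0

/-- A minimal positive relation between integer characters, as needed by the core argument. -/
structure GoodFamily (G : Type) [Group G] (r : ℕ) (χ : Fin r → G → ℤ) : Prop where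
  hom : ∀ i, IsHomZ (χ i)
  surj : ∀ i, ∃ t, χ i t = 1
  rel : ∃ a : Fin r → ℤ, (∀ i, 0 < a i) ∧ ∀ g, ∑ i, a i * χ i g = 0
  dual : ∀ l j, l ≠ j → ∃ b : G, 0 < χ l b ∧ χ j b < 0 ∧ ∀ i, i ≠ l → i ≠ j → χ i b = 0

end Pool.Agent.FPm
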