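import Pool.Agent.Lib.MP_f973c6_al.Defs

/-! Group level preparations for the key lemma: windows, bounds, non triviality near the boundary. -/

set_option autoImplicit false

namespace Pool.Agent.FPm

variable {G : Type} [Group G]

theorem IsHomZ.one {χ : G → ℤ} (h : IsHomZ χ) : χ 1 = 0 := by
  have := h 1 1
  rw [mul_one] at this
  omega

theorem IsHomZ.inv {χ : G → ℤ} (h : IsHomZ χ) (g : G) : χ g⁻¹ = - χ g := by
  have := h g g⁻¹
  rw [mul_inv_cancel, h.one] at this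
  omega

theorem IsHomZ.pow {χ : G → ℤ} (h : IsHomZ χ) (g : G) (k : ℕ) : χ (g ^ k) = k * χ g := by
  induction k with
  | zero => simp [h.one]
  | succ k ih => rw [pow_succ, h, ih]; push_cast; ring

theorem IsHomZ.zpow {χ : G → ℤ} (h : IsHomZ χ) (g : G) (k : ℤ) : χ (g ^ k) = k * χ g := by
  obtain ⟨n, rfl | rfl⟩ := Int.eq_nat_or_neg k
  · rw [zpow_natCast, h.pow]
  · rw [zpow_neg, zpow_natCast, h.inv, h.pow]; ring

/-- window form of the uniform non triviality -/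
theorem window [DecidableEq G] {A : Subgroup G} [A.Normal] {χ : G → ℤ} (hχ : IsHomZ χ) {t : G}
    (ht : χ t = 1) {y : G → ℂ} {S0 : Finset G} (hS0 : ∀ s ∈ S0, s ∈ A)
    (hy : ∀ g, χ g = 0 → ∃ s ∈ S0, y (g * s * g⁻¹) ≠ 1) (w : ℤ) :
    ∃ S : Finset G, (∀ s ∈ S, s ∈ A) ∧ ∀ g, -w ≤ χ g → χ g ≤ w → ∃ s ∈ S, y (g * s * g⁻¹) ≠ 1 := by
  refine ⟨(Finset.Icc (-w) w).biUnion (fun v => S0.image (fun s => t ^ (-v) * s * (t ^ (-v))⁻¹)),
    ?_, ?_⟩
  · intro s hs
    simp only [Finset.mem_biUnion, Finset.mem_image] at hs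
    obtain ⟨v, _, s0, hs0, rfl⟩ := hs
    exact (inferInstance : A.Normal).conj_mem s0 (hS0 s0 hs0) _
  · intro g h1 h2
    have h0 : χ (g * t ^ (-χ g)) = 0 := by
      rw [hχ, hχ.zpow, ht]; ring
    obtain ⟨s, hs, hne⟩ := hy _ h0
    refine ⟨t ^ (-χ g) * s * (t ^ (-χ g))⁻¹, ?_, ?_⟩
    · simp only [Finset.mem_biUnion, Finset.mem_image, Finset.mem_Icc]
      exact ⟨χ g, ⟨h1, h2⟩, s, hs, rfl⟩
    · have : g * (t ^ (-χ g) * s * (t ^ (-χ g))⁻¹) * g⁻¹ =
          g * t ^ (-χ g) * s * (g * t ^ (-χ g))⁻¹ := by group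
      rw [this]
      exact hne

/-- a finite set has a common bound for eventual triviality -/
theorem triv_bound {A : Subgroup G} {χ : G → ℤ} {y : G → ℂ}
    (htriv : ∀ s ∈ A, ∃ N : ℤ, ∀ g, N ≤ χ g → y (g * s * g⁻¹) = 1) (S : Finset G)
    (hS : ∀ s ∈ S, s ∈ A) :
    ∃ c : ℤ, 0 ≤ c ∧ ∀ s ∈ S, ∀ g, c ≤ χ g → y (g * s * g⁻¹) = 1 := by
  classical
  induction S using Finset.induction_on with
  | empty => exact ⟨0, le_refl _, by simp⟩
  | insert a S _ ih =>
    obtain ⟨c, hc0, hc⟩ := ih (fun s hs => hS s (Finset.mem_insert_of_mem hs))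
    obtain ⟨N, hN⟩ := htriv a (hS a (Finset.mem_insert_self _ _))
    refine ⟨max c N, le_max_of_le_left hc0, ?_⟩
    intro s hs g hg
    rcases Finset.mem_insert.1 hs with rfl | hs
    · exact hN g ((le_max_right _ _).trans hg)
    · exact hc s hs g ((le_max_left _ _).trans hg)

/-- crude bound of all characters on a finite set -/
def bd {r : ℕ} (χ : Fin r → G → ℤ) (B : Finset G) : ℤ := ∑ b ∈ B, ∑ i, |χ i b|

theorem bd_nonneg {r : ℕ} (χ : Fin r → G → ℤ) (B : Finset G) : 0 ≤ bd χ B :=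
  Finset.sum_nonneg (fun _ _ => Finset.sum_nonneg (fun _ _ => abs_nonneg _))

theorem le_bd {r : ℕ} (χ : Fin r → G → ℤ) (B : Finset G) {b : G} (hb : b ∈ B) (i : Fin r) :
    |χ i b| ≤ bd χ B := by
  have h1 : |χ i b| ≤ ∑ i, |χ i b| :=
    Finset.single_le_sum (f := fun i => |χ i b|) (fun _ _ => abs_nonneg _) (Finset.mem_univ i)
  have h2 : ∑ i, |χ i b| ≤ bd χ B :=
    Finset.single_le_sum (f := fun b => ∑ i, |χ i b|)
      (fun _ _ => Finset.sum_nonneg (fun _ _ => abs_nonneg _)) hb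
  exact h1.trans h2

theorem bd_upper {r : ℕ} (χ : Fin r → G → ℤ) (B : Finset G) {b : G} (hb : b ∈ B) (i : Fin r) :
    χ i b ≤ bd χ B := (le_abs_self _).trans (le_bd χ B hb i)

theorem bd_lower {r : ℕ} (χ : Fin r → G → ℤ) (B : Finset G) {b : G} (hb : b ∈ B) (i : Fin r) :
    -bd χ B ≤ χ i b := neg_le_of_neg_le ((neg_le_abs _).trans (le_bd χ B hb i))

/-- elements that move away from a proper subset of the walls -/
theorem exists_push {r : ℕ} {χ : Fin r → G → ℤ} (hg : GoodFamily G r χ) (Cr : Finset (Fin r))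
    (hCr : Cr ≠ Finset.univ) (i : Fin r) (K : ℕ) :
    ∃ b : G, (i ∈ Cr → χ i b = 0) ∧ ∀ l ∈ Cr, l ≠ i → (K : ℤ) ≤ χ l b := by
  classical
  obtain ⟨j0, hj0⟩ : ∃ j0, j0 ∉ Cr := by
    by_contra h
    push Not at h
    exact hCr (Finset.eq_univ_iff_forall.2 h)
  have key : ∀ T : Finset (Fin r), j0 ∉ T → ∃ b : G, (∀ l ∈ T, (K : ℤ) ≤ χ l b) ∧
      ∀ l, l ∉ T → l ≠ j0 → χ l b = 0 := by
    intro T
    induction T using Finset.induction_on with
    | empty =>
      intro _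
      exact ⟨1, by simp, fun l _ _ => (hg.hom l).one⟩
    | insert a T haT ih =>
      intro hj
      have hja : a ≠ j0 := fun h => hj (h ▸ Finset.mem_insert_self _ _)
      obtain ⟨b, hb1, hb2⟩ := ih (fun h => hj (Finset.mem_insert_of_mem h))
      obtain ⟨b', hb'1, _, hb'3⟩ := hg.dual a j0 hja
      refine ⟨b * b' ^ K, ?_, ?_⟩
      · intro l hl
        rw [hg.hom l, (hg.hom l).pow]
        rcases Finset.mem_insert.1 hl with rfl | hl'
        · rw [hb2 l haT hja]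
          nlinarith
        · have hla : l ≠ a := fun h => haT (h ▸ hl')
          have hlj : l ≠ j0 := fun h => hj (h ▸ hl)
          rw [hb'3 l hla hlj]
          have := hb1 l hl'
          simpa using this
      · intro l hl hlj
        have hla : l ≠ a := fun h => hl (h ▸ Finset.mem_insert_self _ _)
        rw [hg.hom l, (hg.hom l).pow, hb2 l (fun h => hl (Finset.mem_insert_of_mem h)) hlj,
          hb'3 l hla hlj]
        ring
  obtain ⟨b, hb1, hb2⟩ := key (Cr.erase i) (fun h => hj0 (Finset.mem_of_mem_erase h))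
  refine ⟨b, ?_, ?_⟩
  · intro hi
    exact hb2 i (by simp) (fun h => hj0 (h ▸ hi))
  · intro l hl hli
    exact hb1 l (Finset.mem_erase.2 ⟨hli, hl⟩)

/-- the product character at threshold `N` -/
noncomputable def Yc {r : ℕ} (y : Fin r → G → ℂ) (t : Fin r → G) (I : Finset (Fin r)) (N : ℤ)
    (a : G) : ℂ := ∏ i ∈ I, y i (t i ^ N * a * (t i ^ N)⁻¹)

/-- the product gauge at threshold `N` -/
noncomputable def Yt {r : ℕ} (yt : Fin r → G → ℂ) (t : Fin r → G) (I : Finset (Fin r)) (N : ℤ)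
    (g : G) : ℂ := ∏ i ∈ I, yt i (t i ^ N * g)

/-- the polyhedral region -/
def PiR {r : ℕ} (χ : Fin r → G → ℤ) (I : Finset (Fin r)) (R : ℤ) : Set G :=
  {g | ∀ i ∈ I, -R ≤ χ i g}

/-- uniform non triviality near the boundary of polyhedral regions -/
theorem nontriv_at [DecidableEq G] {r : ℕ} {χ : Fin r → G → ℤ} (hg : GoodFamily G r χ)
    {A : Subgroup G} [A.Normal] {t : Fin r → G} (ht : ∀ i, χ i (t i) = 1)
    {y : Fin r → G → ℂ} {S0 : Fin r → Finset G} (hS0 : ∀ i, ∀ s ∈ S0 i, s ∈ A)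
    (hy : ∀ i, ∀ g, χ i g = 0 → ∃ s ∈ S0 i, y i (g * s * g⁻¹) ≠ 1)
    (htriv : ∀ i, ∀ s ∈ A, ∃ N : ℤ, ∀ g, N ≤ χ i g → y i (g * s * g⁻¹) = 1)
    (e g0 : ℤ) (he : 0 ≤ e) (hg0 : 0 ≤ g0) :
    ∃ (S : Finset G) (e' : ℤ), (∀ s ∈ S, s ∈ A) ∧ 0 ≤ e' ∧ ∀ (I : Finset (Fin r)) (ρ : ℤ),
      e' ≤ ρ → ∀ g, (∀ l ∈ I, -ρ - e ≤ χ l g) → (∃ i ∈ I, χ i g ≤ -ρ + e) →
        ∃ s ∈ S, Yc y t I (ρ + g0) (g * s * g⁻¹) ≠ 1 := by
  classical
  choose Sw hSwA hSw using fun i => window (hg.hom i) (ht i) (hS0 i) (hy i) (g0 + e)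
  have hU : ∀ s ∈ Finset.univ.biUnion Sw, s ∈ A := by
    intro s hs
    simp only [Finset.mem_biUnion, Finset.mem_univ, true_and] at hs
    obtain ⟨i, hs⟩ := hs
    exact hSwA i s hs
  choose c hc0 hc using fun l => triv_bound (htriv l) (Finset.univ.biUnion Sw) hU
  set C : ℤ := ∑ l, c l with hC
  have hcC : ∀ l, c l ≤ C := fun l =>
    Finset.single_le_sum (f := c) (fun l _ => hc0 l) (Finset.mem_univ l)
  have hC0 : 0 ≤ C := Finset.sum_nonneg (fun l _ => hc0 l)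
  set K : ℕ := (C + e).toNat with hK
  have hKe : (K : ℤ) = C + e := Int.toNat_of_nonneg (by omega)
  have hpush : ∀ p : Finset (Fin r) × Fin r, ∃ b : G, p.1 ≠ Finset.univ →
      (p.2 ∈ p.1 → χ p.2 b = 0) ∧ ∀ l ∈ p.1, l ≠ p.2 → (K : ℤ) ≤ χ l b := by
    intro p
    by_cases hp : p.1 ≠ Finset.univ
    · obtain ⟨b, hb⟩ := exists_push hg p.1 hp p.2 K
      exact ⟨b, fun _ => hb⟩
    · exact ⟨1, fun h => absurd h hp⟩
  choose b hb using hpush
  let BB : Finset G := Finset.univ.image b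
  have hBB : ∀ p, b p ∈ BB := fun p => Finset.mem_image_of_mem _ (Finset.mem_univ _)
  refine ⟨(BB ×ˢ Finset.univ.biUnion Sw).image (fun p => p.1 * p.2 * p.1⁻¹),
    C + bd χ BB + e + 1, ?_, ?_, ?_⟩
  · intro s hs
    simp only [Finset.mem_image, Finset.mem_product] at hs
    obtain ⟨p, ⟨_, hp⟩, rfl⟩ := hs
    exact (inferInstance : A.Normal).conj_mem _ (hU _ hp) _
  · have := bd_nonneg χ BB
    omega
  · rintro I ρ hρ g hlow ⟨i, hiI, hi⟩
    have hbd := bd_nonneg χ BB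
    set Cr : Finset (Fin r) := Finset.univ.filter
      (fun l => l ∈ I ∧ χ l g < -ρ + (C + bd χ BB + e + 1)) with hCr
    have hmem : ∀ l, l ∈ Cr ↔ l ∈ I ∧ χ l g < -ρ + (C + bd χ BB + e + 1) := by
      intro l
      simp [hCr]
    have hiCr : i ∈ Cr := (hmem i).2 ⟨hiI, by omega⟩
    have hCrne : Cr ≠ Finset.univ := by
      intro hun
      obtain ⟨a, ha, hrel⟩ := hg.rel
      have h1 : ∀ l ∈ (Finset.univ : Finset (Fin r)), a l * χ l g ≤ 0 := by
        intro l _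
        have := ((hmem l).1 (hun ▸ Finset.mem_univ l)).2
        exact mul_nonpos_of_nonneg_of_nonpos (ha l).le (by omega)
      have h2 : ∑ l, a l * χ l g < 0 := by
        refine Finset.sum_neg' h1 ⟨i, Finset.mem_univ i, ?_⟩
        exact mul_neg_of_pos_of_neg (ha i) (by omega)
      rw [hrel g] at h2
      exact lt_irrefl _ h2
    obtain ⟨hb1, hb2⟩ := hb (Cr, i) hCrne
    simp only at hb1 hb2
    set bb := b (Cr, i) with hbb
    have hbbB : bb ∈ BB := hBB _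
    have hNi : χ i (t i ^ (ρ + g0) * (g * bb)) = ρ + g0 + χ i g := by
      rw [hg.hom i, hg.hom i, (hg.hom i).zpow, ht i, hb1 hiCr]
      ring
    have hlowi := hlow i hiI
    obtain ⟨s, hs, hne⟩ := hSw i (t i ^ (ρ + g0) * (g * bb)) (by rw [hNi]; omega)
      (by rw [hNi]; omega)
    have hsU : s ∈ Finset.univ.biUnion Sw := by
      simp only [Finset.mem_biUnion, Finset.mem_univ, true_and]
      exact ⟨i, hs⟩
    refine ⟨bb * s * bb⁻¹, ?_, ?_⟩
    · rw [Finset.mem_image]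
      exact ⟨(bb, s), Finset.mem_product.2 ⟨hbbB, hsU⟩, rfl⟩
    · unfold Yc
      have hconj : ∀ l, t l ^ (ρ + g0) * (g * (bb * s * bb⁻¹) * g⁻¹) * (t l ^ (ρ + g0))⁻¹ =
          (t l ^ (ρ + g0) * (g * bb)) * s * (t l ^ (ρ + g0) * (g * bb))⁻¹ := by
        intro l
        group
      rw [Finset.prod_eq_single i]
      · rw [hconj]
        exact hne
      · intro l hl hli
        rw [hconj]
        apply hc l s hsU
        have hNl : χ l (t l ^ (ρ + g0) * (g * bb)) = ρ + g0 + (χ l g + χ l bb) := by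
          rw [hg.hom l, hg.hom l, (hg.hom l).zpow, ht l]
          ring
        rw [hNl]
        have hcl := hcC l
        have hlowl := hlow l hl
        by_cases hlCr : l ∈ Cr
        · have := hb2 l hlCr hli
          omega
        · have h3 : ¬ (χ l g < -ρ + (C + bd χ BB + e + 1)) := fun h => hlCr ((hmem l).2 ⟨hl, h⟩)
          have h4 := bd_lower χ BB hbbB l
          omega
      · intro h
        exact absurd hiI h

/-- properties of the product gauge -/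
theorem Yt_props {r : ℕ} {χ : Fin r → G → ℤ} (hg : GoodFamily G r χ)
    {A : Subgroup G} [A.Normal] (hχA : ∀ i, ∀ a ∈ A, χ i a = 0)
    {t : Fin r → G} (ht : ∀ i, χ i (t i) = 1)
    {y yt : Fin r → G → ℂ} {Ω : Finset G}
    (hne : ∀ i, ∀ g, 0 ≤ χ i g → yt i g ≠ 0)
    (heqv : ∀ i, ∀ a ∈ A, ∀ g, 0 ≤ χ i g → yt i (a * g) = y i a * yt i g)
    (hloc : ∀ i, ∀ ω ∈ Ω, ∀ g, 0 ≤ χ i g → 0 ≤ χ i (g * ω) → yt i (g * ω) = yt i g)
    (I : Finset (Fin r)) (N : ℤ) :
    (∀ g ∈ PiR χ I N, Yt yt t I N g ≠ 0) ∧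
    (∀ a ∈ A, Yc y t I N a ≠ 0) ∧
    (∀ a ∈ A, ∀ g ∈ PiR χ I N, Yt yt t I N (a * g) = Yc y t I N a * Yt yt t I N g) ∧
    (∀ ω ∈ Ω, ∀ g ∈ PiR χ I N, g * ω ∈ PiR χ I N → Yt yt t I N (g * ω) = Yt yt t I N g) := by
  have hlev : ∀ i g, χ i (t i ^ N * g) = N + χ i g := by
    intro i g
    rw [hg.hom i, (hg.hom i).zpow, ht i]
    ring
  refine ⟨?_, ?_, ?_, ?_⟩
  · intro g hgN
    unfold Yt
    rw [Finset.prod_ne_zero_iff]
    intro i hi
    apply hne
    rw [hlev]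
    have := hgN i hi
    omega
  · intro a ha
    unfold Yc
    rw [Finset.prod_ne_zero_iff]
    intro i _
    have hb : t i ^ N * a * (t i ^ N)⁻¹ ∈ A := (inferInstance : A.Normal).conj_mem a ha _
    intro h0
    have h1 := heqv i _ hb 1 (by rw [(hg.hom i).one])
    rw [h0, zero_mul, mul_one] at h1
    exact hne i _ (by rw [hχA i _ hb]) h1
  · intro a ha g hgN
    unfold Yt Yc
    rw [← Finset.prod_mul_distrib]
    refine Finset.prod_congr rfl (fun i hi => ?_)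
    have hb : t i ^ N * a * (t i ^ N)⁻¹ ∈ A := (inferInstance : A.Normal).conj_mem a ha _
    rw [← heqv i _ hb _ (by
      rw [hlev]
      have := hgN i hi
      omega)]
    congr 1
    group
  · intro ω hω g hgN hgω
    unfold Yt
    refine Finset.prod_congr rfl (fun i hi => ?_)
    rw [← mul_assoc]
    apply hloc i ω hω
    · rw [hlev]
      have := hgN i hi
      omega
    · rw [mul_assoc, hlev]
      have := hgω i hi
      omega

end Pool.Agent.FPm
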