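import Pool.Agent.Lib.MP_f973c6_al.Coch

/-! Homotopies for multiplication by elements of an abelian normal subgroup. -/

set_option autoImplicit false

namespace Pool.Agent.FPm

variable {G : Type} [Group G]

/-- The data of a partial resolution as a structure. -/
structure Res (G : Type) [Group G] (m : ℕ) where
  ε : MonoidAlgebra ℤ G →+* ℤ
  n : ℕ → ℕ
  d : ∀ i : ℕ, FM G (n (i + 1)) →ₗ[MonoidAlgebra ℤ G] FM G (n i)
  hε : ∀ g : G, ε (gr g) = 1
  hsurj : Function.Surjective (fun v : FM G (n 0) => ∑ j, ε (v j))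
  h0 : 1 ≤ m → ∀ v : FM G (n 0), (∑ j, ε (v j) = 0 ↔ v ∈ LinearMap.range (d 0))
  hex : ∀ i : ℕ, i + 1 < m → LinearMap.ker (d i) = LinearMap.range (d (i + 1))

theorem exists_res {m : ℕ} (h : FPcond G m) : Nonempty (Res G m) := by
  obtain ⟨ε, n, d, h1, h2, h3, h4⟩ := h
  exact ⟨⟨ε, n, d, h1, h2, h3, h4⟩⟩

/-- `A`-linearity of an additive map -/
def Alin {n n' : ℕ} (A : Subgroup G) (h : FM G n →+ FM G n') : Prop :=
  ∀ a ∈ A, ∀ x, h (gr a • x) = gr a • h x

/-- The homotopy identities for the element `s`. -/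
def HomotProp {m : ℕ} (F : Res G m) (A : Subgroup G) (s : G)
    (h : ∀ i, FM G (F.n i) →+ FM G (F.n (i + 1))) : Prop :=
  (∀ i, i < m → Alin A (h i)) ∧
  (0 < m → ∀ x, F.d 0 (h 0 x) = gr s • x - x) ∧
  (∀ i, i + 1 < m → ∀ x, F.d (i + 1) (h (i + 1) x) + h i (F.d i x) = gr s • x - x)

theorem exists_homot {m : ℕ} (F : Res G m) (A : Subgroup G) [A.Normal]
    (hA : ∀ a ∈ A, ∀ b ∈ A, a * b = b * a) (s : G) (hs : s ∈ A) :
    ∃ h : ∀ i, FM G (F.n i) →+ FM G (F.n (i + 1)), HomotProp F A s h := by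
  classical
  -- the operator x ↦ s x - x
  have hcomm : ∀ {n : ℕ} (a : G) (_ : a ∈ A) (x : FM G n),
      gr s • gr a • x - gr a • x = gr a • (gr s • x - x) := by
    intro n a ha x
    rw [smul_sub, gr_smul_smul, gr_smul_smul, hA s hs a ha]
  let P : ∀ i, (FM G (F.n i) →+ FM G (F.n (i + 1))) → Prop := fun i h =>
    i < m → Alin A h ∧ ∀ z, F.d i (h (F.d i z)) = gr s • F.d i z - F.d i z
  -- start
  have hstart : ∃ h : FM G (F.n 0) →+ FM G (F.n 1), P 0 h ∧
      (0 < m → ∀ x, F.d 0 (h x) = gr s • x - x) := by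
    by_cases hm : 0 < m
    · let T : FM G (F.n 0) →+ FM G (F.n 0) :=
        DistribSMul.toAddMonoidHom (FM G (F.n 0)) (gr s) - AddMonoidHom.id _
      have hTx : ∀ x, T x = gr s • x - x := fun x => rfl
      obtain ⟨h, hlin, hh⟩ := extA A (F.d 0) T (by
        intro a ha x
        rw [hTx, hTx, hcomm a ha]) (by
        intro g l
        rw [← F.h0 hm, hTx, smul_bas]
        have hb : ∀ u : G, ∑ j, F.ε ((bas u l : FM G (F.n 0)) j) = 1 := by
          intro u
          rw [Finset.sum_eq_single l]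
          · unfold bas
            rw [Pi.single_eq_same]
            exact F.hε u
          · intro j _ hj
            unfold bas
            rw [Pi.single_eq_of_ne hj, map_zero]
          · intro h
            exact absurd (Finset.mem_univ l) h
        simp only [Pi.sub_apply, map_sub, Finset.sum_sub_distrib, hb, sub_self])
      refine ⟨h, fun _ => ⟨hlin, fun z => ?_⟩, fun _ x => ?_⟩
      · rw [hh, hTx]
      · rw [hh, hTx]
    · exact ⟨0, fun h => absurd h hm, fun h => absurd h hm⟩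
  have hstep : ∀ i (h : FM G (F.n i) →+ FM G (F.n (i + 1))), P i h →
      ∃ h' : FM G (F.n (i + 1)) →+ FM G (F.n (i + 1 + 1)), P (i + 1) h' ∧
        (i + 1 < m → ∀ x, F.d (i + 1) (h' x) + h (F.d i x) = gr s • x - x) := by
    intro i h hP
    by_cases hm : i + 1 < m
    · obtain ⟨hlin, hz⟩ := hP (by omega)
      let T : FM G (F.n (i + 1)) →+ FM G (F.n (i + 1)) :=
        DistribSMul.toAddMonoidHom (FM G (F.n (i + 1))) (gr s) - AddMonoidHom.id _ -
          h.comp (F.d i).toAddMonoidHom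
      have hTx : ∀ x, T x = gr s • x - x - h (F.d i x) := fun x => rfl
      obtain ⟨h', hlin', hh'⟩ := extA A (F.d (i + 1)) T (by
        intro a ha x
        rw [hTx, hTx, hcomm a ha, map_smul, hlin a ha, ← smul_sub]) (by
        intro g l
        rw [← F.hex i hm, LinearMap.mem_ker, hTx, map_sub, map_sub, map_smul, hz, sub_self])
      have hrel : ∀ x, F.d (i + 1) (h' x) + h (F.d i x) = gr s • x - x := by
        intro x
        rw [hh', hTx, sub_add_cancel]
      refine ⟨h', fun _ => ⟨hlin', fun z => ?_⟩, fun _ => hrel⟩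
      have h0 : F.d i (F.d (i + 1) z) = 0 := by
        have : F.d (i + 1) z ∈ LinearMap.ker (F.d i) := by
          rw [F.hex i hm]
          exact ⟨z, rfl⟩
        exact this
      have := hrel (F.d (i + 1) z)
      rw [h0, map_zero, add_zero] at this
      exact this
    · exact ⟨0, fun h => absurd h hm, fun h => absurd h hm⟩
  choose st hst using hstep
  obtain ⟨h0, h0P, h0r⟩ := hstart
  let fam : ∀ i, {h : FM G (F.n i) →+ FM G (F.n (i + 1)) // P i h} := fun i =>
    Nat.rec (motive := fun i => {h : FM G (F.n i) →+ FM G (F.n (i + 1)) // P i h})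
      ⟨h0, h0P⟩ (fun i hi => ⟨st i hi.1 hi.2, (hst i hi.1 hi.2).1⟩) i
  refine ⟨fun i => (fam i).1, ?_, ?_, ?_⟩
  · intro i hi
    exact ((fam i).2 hi).1
  · exact h0r
  · intro i hi x
    exact (hst i (fam i).1 (fam i).2).2 hi x

end Pool.Agent.FPm
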