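import Pool.Agent.Lib.MP_f973c6_al.Lam
import Pool.Agent.Lib.MP_f973c6_al.Grp

/-! The key lemma: cochains supported in a polyhedral region are acyclic below degree `m`. -/

set_option autoImplicit false

namespace Pool.Agent.FPm

variable {G : Type} [Group G]

/-- coboundary with support in `S` -/
def Bd {m : ℕ} (F : Res G m) (A : Subgroup G) (S : Set G) : ∀ j, Coc G (F.n j) → Prop
  | 0, Φ => Φ = 0
  | j + 1, Φ => ∃ Θ : Coc G (F.n j), Eqv A (fun _ => 1) Θ ∧ SuppIn Θ S ∧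
      Φ = Θ.comp (F.d j).toAddMonoidHom

theorem crossing {r : ℕ} {χ : Fin r → G → ℤ} (hg : GoodFamily G r χ) {t : Fin r → G}
    (ht : ∀ i, χ i (t i) = 1) {C0 : ℤ} (hC : ∀ l i, |χ l (t i)| ≤ C0) {I : Finset (Fin r)}
    (hI : I.Nonempty) {ρ : ℤ} (hρ : 0 ≤ ρ) :
    ∃ g, (∀ l ∈ I, -ρ ≤ χ l g) ∧ ∃ i ∈ I, χ i g ≤ -ρ + C0 := by
  classical
  obtain ⟨i, hi⟩ := hI
  have hex : ∃ k : ℕ, ¬ (∀ l ∈ I, -ρ ≤ χ l ((t i)⁻¹ ^ k)) := by
    refine ⟨ρ.toNat + 1, fun h => ?_⟩
    have := h i hi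
    rw [(hg.hom i).pow, (hg.hom i).inv, ht i] at this
    push_cast at this
    rw [Int.toNat_of_nonneg hρ] at this
    linarith
  have hk := Nat.find_spec hex
  have hmin := fun n => @Nat.find_min _ _ hex n
  set k := Nat.find hex with hkdef
  have hk0 : k ≠ 0 := by
    intro h0
    apply hk
    rw [h0]
    intro l _
    rw [pow_zero, (hg.hom l).one]
    omega
  obtain ⟨k', hk'⟩ := Nat.exists_eq_succ_of_ne_zero hk0
  have h1 := hmin k' (by omega)
  rw [not_not] at h1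
  refine ⟨(t i)⁻¹ ^ k', h1, ?_⟩
  rw [hk'] at hk
  push Not at hk
  obtain ⟨l, hl, hlt⟩ := hk
  refine ⟨l, hl, ?_⟩
  rw [Nat.succ_eq_add_one, pow_succ, (hg.hom l) ((t i)⁻¹ ^ k'), (hg.hom l).inv] at hlt
  have := (abs_le.1 (hC l i)).2
  omega

section
variable {m : ℕ} (F : Res G m) {A : Subgroup G} [A.Normal] {r : ℕ} {χ : Fin r → G → ℤ}

theorem PiR_mono {I : Finset (Fin r)} {R R' : ℤ} (h : R ≤ R') : PiR χ I R ⊆ PiR χ I R' := by
  intro g hg i hi
  have := hg i hi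
  omega

theorem PiR_left (hg : GoodFamily G r χ) (hχA : ∀ i, ∀ a ∈ A, χ i a = 0) {I : Finset (Fin r)}
    {R : ℤ} {a : G} (ha : a ∈ A) (g : G) : a * g ∈ PiR χ I R ↔ g ∈ PiR χ I R := by
  unfold PiR
  simp only [Set.mem_setOf_eq]
  refine forall_congr' (fun i => imp_congr_right (fun _ => ?_))
  rw [hg.hom i, hχA i a ha, zero_add]

/-- transfer to the twisted complex -/
theorem gaugeUp (hg : GoodFamily G r χ) (hχA : ∀ i, ∀ a ∈ A, χ i a = 0) {Om : Finset G}
    {C0 : ℤ} (hC0 : ∀ ω ∈ Om, ∀ i, |χ i ω| ≤ C0) {I : Finset (Fin r)} {N R : ℤ}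
    (hNR : R + 2 * C0 ≤ N) {y' yt' : G → ℂ}
    (h3 : ∀ a ∈ A, ∀ g ∈ PiR χ I N, yt' (a * g) = y' a * yt' g)
    (h4 : ∀ ω ∈ Om, ∀ g ∈ PiR χ I N, g * ω ∈ PiR χ I N → yt' (g * ω) = yt' g)
    (j : ℕ) (hOm : ∀ l, supp (F.d j (bas (1 : G) l)) ⊆ Om) (hOm1 : (1 : G) ∈ Om)
    {Φ : Coc G (F.n j)} (hΦ : Eqv A (fun _ => 1) Φ)
    (hcoc : Φ.comp (F.d j).toAddMonoidHom = 0) (hsupp : SuppIn Φ (PiR χ I R)) :
    Eqv A y' (mulF yt' Φ) ∧ (mulF yt' Φ).comp (F.d j).toAddMonoidHom = 0 := by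
  have hC0' : 0 ≤ C0 ∨ r = 0 := by
    rcases Nat.eq_zero_or_pos r with h | h
    · exact Or.inr h
    · exact Or.inl ((abs_nonneg _).trans (hC0 1 hOm1 ⟨0, h⟩))
  constructor
  · apply eqv_of_bas
    intro a ha g l
    rw [mulF_bas, mulF_bas, hΦ.bas ha, one_mul]
    by_cases hgR : g ∈ PiR χ I R
    · have hgN : g ∈ PiR χ I N := by
        intro i hi
        have h1 := hgR i hi
        have h2 : 0 ≤ C0 := (abs_nonneg _).trans (hC0 1 hOm1 i)
        omega
      rw [h3 a ha g hgN]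
      ring
    · rw [hsupp g hgR l, mul_zero, mul_zero, mul_zero]
  · apply hom_ext_bas
    intro g l
    simp only [AddMonoidHom.comp_apply, LinearMap.toAddMonoidHom_coe, AddMonoidHom.zero_apply]
    have hb : F.d j (bas g l) = gr g • F.d j (bas (1 : G) l) := by
      rw [← map_smul, smul_bas, mul_one]
    rw [hb]
    by_cases hex : ∃ ω0 ∈ supp (F.d j (bas (1 : G) l)), g * ω0 ∈ PiR χ I R
    · obtain ⟨ω0, hω0, hgω0⟩ := hex
      have hNall : ∀ ω ∈ Om, g * ω ∈ PiR χ I N := by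
        intro ω hω i hi
        have h1 := hgω0 i hi
        rw [hg.hom i] at h1 ⊢
        have h2 := (abs_le.1 (hC0 ω hω i)).1
        have h5 := (abs_le.1 (hC0 ω0 (hOm l hω0) i)).2
        omega
      have hgN : g ∈ PiR χ I N := by
        have := hNall 1 hOm1
        rwa [mul_one] at this
      rw [mulF_const (c := yt' g) (fun b hb' => h4 b (hOm l hb') g hgN (hNall b (hOm l hb')))]
      rw [← hb]
      have := DFunLike.congr_fun hcoc (bas g l)
      simp only [AddMonoidHom.comp_apply, LinearMap.toAddMonoidHom_coe,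
        AddMonoidHom.zero_apply] at this
      rw [this, mul_zero]
    · push Not at hex
      apply eval_zero
      intro b hb' l'
      rw [mulF_bas, hsupp _ (hex b hb') l', mul_zero]

/-- cutting off and transferring back -/
theorem cutDown (hg : GoodFamily G r χ) (hχA : ∀ i, ∀ a ∈ A, χ i a = 0) {Om : Finset G}
    {C0 : ℤ} (hC0 : ∀ ω ∈ Om, ∀ i, |χ i ω| ≤ C0) {I : Finset (Fin r)} {N ρ R : ℤ}
    (hNρ : ρ + 2 * C0 ≤ N) (hρR : R + 2 * C0 < ρ) {y' yt' : G → ℂ}
    (h1 : ∀ g ∈ PiR χ I N, yt' g ≠ 0) (h2 : ∀ a ∈ A, y' a ≠ 0)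
    (h3 : ∀ a ∈ A, ∀ g ∈ PiR χ I N, yt' (a * g) = y' a * yt' g)
    (h4 : ∀ ω ∈ Om, ∀ g ∈ PiR χ I N, g * ω ∈ PiR χ I N → yt' (g * ω) = yt' g)
    (j : ℕ) (hOm : ∀ l, supp (F.d j (bas (1 : G) l)) ⊆ Om) (hOm1 : (1 : G) ∈ Om)
    {Φ : Coc G (F.n (j + 1))} (hsupp : SuppIn Φ (PiR χ I R))
    {Θ : Coc G (F.n j)} (hΘ : Eqv A y' Θ)
    (hΘd : Θ.comp (F.d j).toAddMonoidHom = mulF yt' Φ)
    (hΘ0 : ∀ g, (∀ l ∈ I, -ρ - 2 * C0 ≤ χ l g) → (∃ i ∈ I, χ i g ≤ -ρ + 2 * C0) →
      ∀ l, Θ (bas g l) = 0) :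
    Bd F A (PiR χ I ρ) (j + 1) Φ := by
  classical
  have hC0n : ∀ _ : Fin r, 0 ≤ C0 := fun i => (abs_nonneg _).trans (hC0 1 hOm1 i)
  set f : G → ℂ := fun g => if g ∈ PiR χ I ρ then (yt' g)⁻¹ else 0 with hf
  refine ⟨mulF f Θ, ?_, ?_, ?_⟩
  · apply eqv_of_bas
    intro a ha g l
    rw [mulF_bas, mulF_bas, hΘ.bas ha, one_mul]
    simp only [hf]
    by_cases hgρ : g ∈ PiR χ I ρ
    · have hgN : g ∈ PiR χ I N := by
        intro i hi
        have h5 := hgρ i hi
        have := hC0n i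
        omega
      rw [if_pos ((PiR_left hg hχA ha g).2 hgρ), if_pos hgρ, h3 a ha g hgN]
      have := h2 a ha
      have := h1 g hgN
      field_simp
    · rw [if_neg (fun h => hgρ ((PiR_left hg hχA ha g).1 h)), if_neg hgρ]
      ring
  · intro g hgρ l
    rw [mulF_bas]
    simp only [hf]
    rw [if_neg hgρ, zero_mul]
  · symm
    apply hom_ext_bas
    intro g l
    simp only [AddMonoidHom.comp_apply, LinearMap.toAddMonoidHom_coe]
    have hb : F.d j (bas g l) = gr g • F.d j (bas (1 : G) l) := by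
      rw [← map_smul, smul_bas, mul_one]
    rw [hb]
    by_cases hall : ∀ ω ∈ Om, g * ω ∈ PiR χ I ρ
    · -- all inside
      have hgρ : g ∈ PiR χ I ρ := by
        have := hall 1 hOm1
        rwa [mul_one] at this
      have hsub : PiR χ I ρ ⊆ PiR χ I N := by
        intro g' hg' i hi
        have h5 := hg' i hi
        have := hC0n i
        omega
      have hgN := hsub hgρ
      rw [mulF_const (c := (yt' g)⁻¹) (by
        intro b hb'
        simp only [hf]
        rw [if_pos (hall b (hOm l hb')), h4 b (hOm l hb') g hgN (hsub (hall b (hOm l hb')))])]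
      rw [← hb]
      have := DFunLike.congr_fun hΘd (bas g l)
      simp only [AddMonoidHom.comp_apply, LinearMap.toAddMonoidHom_coe] at this
      rw [this, mulF_bas, inv_mul_cancel_left₀ (h1 g hgN)]
    · push Not at hall
      obtain ⟨ω2, hω2, hout⟩ := hall
      have hout' : ∃ i ∈ I, χ i (g * ω2) < -ρ := by
        unfold PiR at hout
        simp only [Set.mem_setOf_eq] at hout
        push Not at hout
        exact hout
      obtain ⟨i, hi, hilt⟩ := hout'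
      have hgR : g ∉ PiR χ I R := by
        intro h
        have h5 := h i hi
        rw [hg.hom i] at hilt
        have h6 := (abs_le.1 (hC0 ω2 hω2 i)).1
        have := hC0n i
        omega
      rw [hsupp g hgR l]
      apply eval_zero
      intro b hb' l'
      rw [mulF_bas]
      by_cases hin : g * b ∈ PiR χ I ρ
      · rw [hΘ0 (g * b) ?_ ?_ l', mul_zero]
        · intro l'' hl''
          have h5 := hin l'' hl''
          have := hC0n l''
          omega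
        · refine ⟨i, hi, ?_⟩
          rw [hg.hom i] at hilt ⊢
          have h6 := (abs_le.1 (hC0 ω2 hω2 i)).1
          have h7 := (abs_le.1 (hC0 b (hOm l hb') i)).2
          omega
      · simp only [hf]
        rw [if_neg hin, zero_mul]

end

end Pool.Agent.FPm
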