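import Pool.Agent.Lib.MP_f973c6_al.Key

/-! The key lemma, assembled. -/

set_option autoImplicit false

namespace Pool.Agent.FPm

variable {G : Type} [Group G]

theorem Eqv.sub {n : ℕ} {A : Subgroup G} {y : G → ℂ} {Φ Ψ : Coc G n} (h : Eqv A y Φ)
    (h' : Eqv A y Ψ) : Eqv A y (Φ - Ψ) := by
  intro a ha x
  rw [AddMonoidHom.sub_apply, AddMonoidHom.sub_apply, h a ha, h' a ha]
  ring

theorem Eqv.add {n : ℕ} {A : Subgroup G} {y : G → ℂ} {Φ Ψ : Coc G n} (h : Eqv A y Φ)
    (h' : Eqv A y Ψ) : Eqv A y (Φ + Ψ) := by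
  intro a ha x
  rw [AddMonoidHom.add_apply, AddMonoidHom.add_apply, h a ha, h' a ha]
  ring

theorem Eqv.sc {n : ℕ} {A : Subgroup G} {y : G → ℂ} {Φ : Coc G n} (h : Eqv A y Φ) (c : ℂ) :
    Eqv A y (FPm.sc c Φ) := by
  intro a ha x
  rw [sc_apply, sc_apply, h a ha]
  ring

/-- choice depending on the predicate only -/
noncomputable def selP (P : G → Prop) : G := by
  classical exact if h : ∃ s, P s then h.choose else 1

theorem selP_spec {P : G → Prop} (h : ∃ s, P s) : P (selP P) := by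
  unfold selP
  rw [dif_pos h]
  exact h.choose_spec

theorem selP_mem {P : G → Prop} {S : Finset G} (hP : ∀ s, P s → s ∈ S) :
    selP P ∈ S ∨ selP P = 1 := by
  unfold selP
  by_cases h : ∃ s, P s
  · left
    rw [dif_pos h]
    exact hP _ h.choose_spec
  · right
    rw [dif_neg h]

theorem key {m : ℕ} (F : Res G m) {A : Subgroup G} [A.Normal]
    (hA : ∀ a ∈ A, ∀ b ∈ A, a * b = b * a) {r : ℕ} {χ : Fin r → G → ℤ}
    (hg : GoodFamily G r χ) (hχA : ∀ i, ∀ a ∈ A, χ i a = 0)
    (hdata : ∀ i, HasCharData A (χ i)) (j : ℕ) (hj : j < m) :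
    ∃ D : ℤ, 0 ≤ D ∧ ∀ I : Finset (Fin r), I.Nonempty → ∀ R : ℤ, 0 ≤ R →
      ∀ Φ : Coc G (F.n j), Eqv A (fun _ => 1) Φ → Φ.comp (F.d j).toAddMonoidHom = 0 →
        SuppIn Φ (PiR χ I R) → Bd F A (PiR χ I (R + D)) j Φ := by
  classical
  have hex : ∀ s : G, ∃ h : ∀ i, FM G (F.n i) →+ FM G (F.n (i + 1)),
      s ∈ A → HomotProp F A s h := by
    intro s
    by_cases hs : s ∈ A
    · obtain ⟨h, hh⟩ := exists_homot F A hA s hs
      exact ⟨h, fun _ => hh⟩
    · exact ⟨fun _ => 0, fun h => absurd h hs⟩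
  choose H hH using hex
  choose t ht using hg.surj
  set Om : Finset G := insert 1 (Finset.univ.image t ∪ (Finset.range (j + 1)).biUnion
    (fun i => Finset.univ.biUnion (fun l : Fin (F.n (i + 1)) => supp (F.d i (bas (1 : G) l)))))
    with hOmdef
  have hOm1 : (1 : G) ∈ Om := Finset.mem_insert_self _ _
  have hOmt : ∀ i, t i ∈ Om := fun i => Finset.mem_insert_of_mem
    (Finset.mem_union_left _ (Finset.mem_image_of_mem _ (Finset.mem_univ _)))
  have hOmd : ∀ i, i ≤ j → ∀ l, supp (F.d i (bas (1 : G) l)) ⊆ Om := by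
    intro i hi l w hw
    refine Finset.mem_insert_of_mem (Finset.mem_union_right _ ?_)
    simp only [Finset.mem_biUnion, Finset.mem_range, Finset.mem_univ, true_and]
    exact ⟨i, by omega, l, hw⟩
  choose y yt hmul hne heqv hloc htriv S0 hS0 hy using fun i => hdata i Om
  set C0 : ℤ := bd χ Om with hC0def
  have hC0n : 0 ≤ C0 := bd_nonneg χ Om
  have hC0 : ∀ ω ∈ Om, ∀ i, |χ i ω| ≤ C0 := fun ω hω i => le_bd χ Om hω i
  set e : ℤ := (j + 3) * C0 with he
  have he0 : 0 ≤ e := by positivity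
  obtain ⟨S, e1, hSA, he1, hnt⟩ := nontriv_at hg ht hS0 hy htriv e (2 * C0) he0 (by omega)
  -- the common facts for given I and thresholds
  have hprops := fun (I : Finset (Fin r)) (N : ℤ) =>
    Yt_props hg hχA ht (A := A) (Ω := Om) hne heqv hloc I N
  have hcross : ∀ (I : Finset (Fin r)), I.Nonempty → ∀ ρ : ℤ, 0 ≤ ρ → e1 ≤ ρ →
      ∃ g, ∃ s ∈ S, Yc y t I (ρ + 2 * C0) (g * s * g⁻¹) ≠ 1 := by
    intro I hI ρ hρ hρ1
    obtain ⟨g, h1, i, hi, h2⟩ := crossing hg ht (fun l i => hC0 _ (hOmt i) l) hI hρ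
    have hCe : C0 ≤ e := by
      rw [he]
      nlinarith
    obtain ⟨s, hs, h3⟩ := hnt I ρ hρ1 g (fun l hl => by
      have := h1 l hl
      omega) ⟨i, hi, by omega⟩
    exact ⟨g, s, hs, h3⟩
  rcases j with _ | j'
  · -- degree zero
    refine ⟨e1 + 2 * C0 + 1, by omega, ?_⟩
    intro I hI R hR Φ hΦ hcoc hsupp
    set ρ : ℤ := R + (e1 + 2 * C0 + 1) with hρ
    obtain ⟨h1, h2, h3, h4⟩ := hprops I (ρ + 2 * C0)
    obtain ⟨hE, hd⟩ := gaugeUp F hg hχA hC0 (I := I) (N := ρ + 2 * C0) (R := R) (by omega)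
      h3 h4 0 (hOmd 0 le_rfl) hOm1 hΦ hcoc hsupp
    obtain ⟨g, s, hs, hne1⟩ := hcross I hI ρ (by omega) (by omega)
    have hz : mulF (Yt yt t I (ρ + 2 * C0)) Φ = 0 := by
      refine DFunLike.ext _ _ (fun x => ?_)
      have := Kop_id0 F H (hSA s hs) (hH s (hSA s hs)) (g := g) hj hE x
      rw [hd] at this
      rw [Kop_apply, AddMonoidHom.zero_apply] at this
      rw [AddMonoidHom.zero_apply]
      rcases mul_eq_zero.1 this.symm with h | h
      · exact absurd (sub_eq_zero.1 h) hne1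
      · exact h
    show Φ = 0
    apply hom_ext_bas
    intro g' l
    rw [AddMonoidHom.zero_apply]
    by_cases hgR : g' ∈ PiR χ I R
    · have h5 := DFunLike.congr_fun hz (bas g' l)
      rw [mulF_bas, AddMonoidHom.zero_apply] at h5
      rcases mul_eq_zero.1 h5 with h | h
      · exact absurd h (h1 g' (PiR_mono (by omega) hgR))
      · exact h
    · exact hsupp g' hgR l
  · -- positive degree
    obtain ⟨B, hB⟩ := Lam_local F H (insert 1 S) j'
    have hbB := bd_nonneg χ B
    refine ⟨e1 + 2 * C0 + bd χ B + 1, by omega, ?_⟩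
    intro I hI R hR Φ hΦ hcoc hsupp
    set ρ : ℤ := R + (e1 + 2 * C0 + bd χ B + 1) with hρ
    set y' := Yc y t I (ρ + 2 * C0) with hy'
    set yt' := Yt yt t I (ρ + 2 * C0) with hyt'
    obtain ⟨h1, h2, h3, h4⟩ := hprops I (ρ + 2 * C0)
    obtain ⟨hE, hd⟩ := gaugeUp F hg hχA hC0 (I := I) (N := ρ + 2 * C0) (R := R) (by omega)
      h3 h4 (j' + 1) (hOmd (j' + 1) le_rfl) hOm1 hΦ hcoc hsupp
    obtain ⟨g0, s0, hs0, hne1⟩ := hcross I hI ρ (by omega) (by omega)
    -- global primitive
    set Θ : Coc G (F.n j') := sc (y' (g0 * s0 * g0⁻¹) - 1)⁻¹ (Kop F H g0 s0 j' (mulF yt' Φ))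
      with hΘdef
    have hΘE : Eqv A y' Θ :=
      (Kop_eqv F H (hH s0 (hSA s0 hs0)) (by omega) hE).sc _
    have hΘd : Θ.comp (F.d j').toAddMonoidHom = mulF yt' Φ := by
      refine DFunLike.ext _ _ (fun x => ?_)
      have := Kop_id F H (hSA s0 hs0) (hH s0 (hSA s0 hs0)) (g := g0) hj hE x
      rw [hd] at this
      rw [Kop_apply, AddMonoidHom.zero_apply, zero_add] at this
      simp only [AddMonoidHom.comp_apply, LinearMap.toAddMonoidHom_coe, hΘdef]
      rw [sc_apply, this, inv_mul_cancel_left₀ (sub_ne_zero.2 hne1)]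
    -- selection
    set sel : G → G := fun g => selP (fun s => s ∈ S ∧ y' (g * s * g⁻¹) ≠ 1) with hsel
    set c : G → ℂ := fun g => (y' (g * sel g * g⁻¹) - 1)⁻¹ with hc
    have hselS : ∀ g, sel g ∈ insert 1 S := by
      intro g
      rcases selP_mem (P := fun s => s ∈ S ∧ y' (g * s * g⁻¹) ≠ 1) (S := S)
        (fun s hs => hs.1) with h | h
      · exact Finset.mem_insert_of_mem h
      · exact Finset.mem_insert.2 (Or.inl h)
    have hselA : ∀ g, sel g ∈ A := by
      intro g
      rcases Finset.mem_insert.1 (hselS g) with h | h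
      · rw [h]; exact one_mem _
      · exact hSA _ h
    have hconj : ∀ a ∈ A, ∀ s ∈ A, ∀ g : G, a * g * s * (a * g)⁻¹ = g * s * g⁻¹ := by
      intro a ha s hs g
      have hc' : g * s * g⁻¹ ∈ A := (inferInstance : A.Normal).conj_mem s hs g
      have := hA a ha _ hc'
      calc a * g * s * (a * g)⁻¹ = a * (g * s * g⁻¹) * a⁻¹ := by group
        _ = g * s * g⁻¹ := by rw [this]; group
    have hselL : ∀ a ∈ A, ∀ g, sel (a * g) = sel g := by
      intro a ha g
      simp only [hsel]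
      congr 1
      funext s
      apply propext
      refine and_congr_right (fun hs => ?_)
      rw [hconj a ha s (hSA s hs) g]
    have hok : SelOk A sel c := by
      refine ⟨hselA, hselL, ?_⟩
      intro a ha g
      simp only [hc]
      rw [hselL a ha g, hconj a ha _ (hselA g) g]
    set T : Set G := {g | ∃ s ∈ S, y' (g * s * g⁻¹) ≠ 1} with hT
    have hTc : ∀ g ∈ T, c g * (y' (g * sel g * g⁻¹) - 1) = 1 := by
      rintro g ⟨s, hs, hgs⟩
      have hsp := selP_spec (P := fun s => s ∈ S ∧ y' (g * s * g⁻¹) ≠ 1) ⟨s, hs, hgs⟩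
      simp only [hc]
      exact inv_mul_cancel₀ (sub_ne_zero.2 hsp.2)
    have hTn : ∀ i : ℕ, i ≤ j' → ∀ g, (∀ l ∈ I, -ρ - e + i * C0 ≤ χ l g) →
        (∃ l ∈ I, χ l g ≤ -ρ + e - i * C0) → g ∈ Tn F T i := by
      intro i
      induction i with
      | zero =>
        intro _ g hlow ⟨l, hl, hup⟩
        exact hnt I ρ (by omega) g (fun l' hl' => by
          have := hlow l' hl'
          push_cast at this
          omega) ⟨l, hl, by push_cast at hup; omega⟩
      | succ i ih =>
        intro hi g hlow ⟨l, hl, hup⟩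
        have hiC : (0 : ℤ) ≤ i * C0 := by positivity
        push_cast at hlow hup
        refine ⟨?_, ?_⟩
        · exact Tn_sub F T i (ih (by omega) g (fun l' hl' => by
            have := hlow l' hl'
            nlinarith) ⟨l, hl, by nlinarith⟩)
        · intro l1 b hb
          have hbOm := hOmd i (by omega) l1 hb
          apply ih (by omega)
          · intro l' hl'
            have h5 := hlow l' hl'
            have h6 := (abs_le.1 (hC0 b hbOm l')).1
            rw [hg.hom l']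
            nlinarith
          · refine ⟨l, hl, ?_⟩
            have h6 := (abs_le.1 (hC0 b hbOm l)).2
            rw [hg.hom l]
            nlinarith
    -- corrected primitive
    set Θ' : Coc G (F.n j') := Θ - prev F H sel c j' Θ with hΘ'
    have hΘ'E : Eqv A y' Θ' :=
      hΘE.sub (prev_eqv F H (fun s hs => hH s hs) hok j' (by omega) Θ hΘE)
    have hΘ'd : Θ'.comp (F.d j').toAddMonoidHom = mulF yt' Φ := by
      rw [← hΘd]
      refine DFunLike.ext _ _ (fun x => ?_)
      simp only [AddMonoidHom.comp_apply, LinearMap.toAddMonoidHom_coe, hΘ',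
        AddMonoidHom.sub_apply]
      rw [prev_d F H sel c j' (by omega), sub_zero]
    refine cutDown F hg hχA hC0 (N := ρ + 2 * C0) (ρ := ρ) (R := R) le_rfl (by omega)
      h1 h2 h3 h4 j' (hOmd j' (by omega)) hOm1 hsupp hΘ'E hΘ'd ?_
    intro g hlow hup l
    obtain ⟨i0, hi0, hup⟩ := hup
    have hgT : g ∈ Tn F T j' := by
      apply hTn j' le_rfl g
      · intro l' hl'
        have := hlow l' hl'
        rw [he]
        push_cast
        nlinarith
      · refine ⟨i0, hi0, ?_⟩
        rw [he]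
        push_cast
        nlinarith
    have hid := Lam_id F H (fun s hs => hH s hs) hok hTc j' (by omega) Θ hΘE g hgT l
    have hloc0 : Lam F H sel c j' (Θ.comp (F.d j').toAddMonoidHom) (bas g l) = 0 := by
      apply hB sel c hselS
      intro b hb l'
      rw [hΘd, mulF_bas, hsupp (g * b) ?_ l', mul_zero]
      intro hin
      have h5 := hin i0 hi0
      rw [hg.hom i0] at h5
      have h6 := bd_upper χ B hb i0
      omega
    rw [hloc0, zero_add] at hid
    rw [hΘ', AddMonoidHom.sub_apply, hid, sub_self]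

end Pool.Agent.FPm
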