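import Pool.Agent.Lib.MP_f973c6_al.Homot

/-! Local contraction operators. -/

set_option autoImplicit false

namespace Pool.Agent.FPm

variable {G : Type} [Group G]

/-- left translation -/
noncomputable abbrev tr {n : ℕ} (g : G) : FM G n →+ FM G n :=
  DistribSMul.toAddMonoidHom (FM G n) (gr g)

section ops
variable {m : ℕ} (F : Res G m) (H : G → ∀ i, FM G (F.n i) →+ FM G (F.n (i + 1)))

/-- The cochain operator `Θ ↦ Θ ∘ (g h^s g⁻¹)`. -/
noncomputable def Kop (g s : G) (i : ℕ) (Θ : Coc G (F.n (i + 1))) : Coc G (F.n i) :=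
  Θ.comp ((tr g).comp ((H s i).comp (tr g⁻¹)))

theorem Kop_apply (g s : G) (i : ℕ) (Θ : Coc G (F.n (i + 1))) (x : FM G (F.n i)) :
    Kop F H g s i Θ x = Θ (gr g • H s i (gr g⁻¹ • x)) := rfl

theorem Kop_sub (g s : G) (i : ℕ) (Θ Θ' : Coc G (F.n (i + 1))) :
    Kop F H g s i (Θ - Θ') = Kop F H g s i Θ - Kop F H g s i Θ' := rfl

/-- scalar multiple of a cochain -/
noncomputable def sc {n : ℕ} (c : ℂ) (Φ : Coc G n) : Coc G n := (AddMonoidHom.mulLeft c).comp Φ

theorem sc_apply {n : ℕ} (c : ℂ) (Φ : Coc G n) (x : FM G n) : sc c Φ x = c * Φ x := rfl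

theorem Kop_sc (g s : G) (i : ℕ) (c : ℂ) (Θ : Coc G (F.n (i + 1))) :
    Kop F H g s i (sc c Θ) = sc c (Kop F H g s i Θ) := rfl

variable {A : Subgroup G} [A.Normal]

theorem conj_mem {a : G} (ha : a ∈ A) (g : G) : g * a * g⁻¹ ∈ A :=
  (inferInstance : A.Normal).conj_mem a ha g

theorem conj_mem' {a : G} (ha : a ∈ A) (g : G) : g⁻¹ * a * g ∈ A := by
  have := conj_mem (A := A) ha g⁻¹
  rwa [inv_inv] at this

theorem Kop_eqv {y : G → ℂ} {s : G} (hH : HomotProp F A s (H s)) {g : G} {i : ℕ} (hi : i < m)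
    {Θ : Coc G (F.n (i + 1))} (hΘ : Eqv A y Θ) : Eqv A y (Kop F H g s i Θ) := by
  intro a ha x
  rw [Kop_apply, Kop_apply]
  have h1 : gr g⁻¹ • gr a • x = gr (g⁻¹ * a * g) • gr g⁻¹ • x := by
    rw [gr_smul_smul, gr_smul_smul]
    congr 2
    group
  rw [h1, hH.1 i hi _ (conj_mem' ha g)]
  have h2 : ∀ z : FM G (F.n (i + 1)), gr g • gr (g⁻¹ * a * g) • z = gr a • gr g • z := by
    intro z
    rw [gr_smul_smul, gr_smul_smul]
    congr 2
    group
  rw [h2, hΘ a ha]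

theorem Kop_left {s : G} (hH : HomotProp F A s (H s)) {g a : G} (ha : a ∈ A) {i : ℕ} (hi : i < m)
    (Θ : Coc G (F.n (i + 1))) : Kop F H (a * g) s i Θ = Kop F H g s i Θ := by
  refine DFunLike.ext _ _ (fun x => ?_)
  rw [Kop_apply, Kop_apply]
  have h1 : gr (a * g)⁻¹ • x = gr (g⁻¹ * a⁻¹ * g) • gr g⁻¹ • x := by
    rw [gr_smul_smul]
    congr 2
    group
  rw [h1, hH.1 i hi _ (conj_mem' (inv_mem ha) g), gr_smul_smul]
  congr 3
  group

theorem Kop_id0 {y : G → ℂ} {s : G} (hs : s ∈ A) (hH : HomotProp F A s (H s)) {g : G}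
    (hm : 0 < m) {Φ : Coc G (F.n 0)} (hΦ : Eqv A y Φ) (x : FM G (F.n 0)) :
    Kop F H g s 0 (Φ.comp (F.d 0).toAddMonoidHom) x = (y (g * s * g⁻¹) - 1) * Φ x := by
  rw [Kop_apply]
  simp only [AddMonoidHom.comp_apply, LinearMap.toAddMonoidHom_coe]
  rw [map_smul, hH.2.1 hm, smul_sub, gr_smul_smul, gr_smul_smul, gr_smul_smul, mul_inv_cancel,
    gr_one_smul, map_sub, hΦ _ (conj_mem hs g)]
  ring

theorem Kop_id {y : G → ℂ} {s : G} (hs : s ∈ A) (hH : HomotProp F A s (H s)) {g : G} {i : ℕ}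
    (hm : i + 1 < m) {Φ : Coc G (F.n (i + 1))} (hΦ : Eqv A y Φ) (x : FM G (F.n (i + 1))) :
    Kop F H g s (i + 1) (Φ.comp (F.d (i + 1)).toAddMonoidHom) x +
      Kop F H g s i Φ (F.d i x) = (y (g * s * g⁻¹) - 1) * Φ x := by
  rw [Kop_apply, Kop_apply]
  simp only [AddMonoidHom.comp_apply, LinearMap.toAddMonoidHom_coe]
  rw [map_smul, ← map_add, ← smul_add, ← map_smul, hH.2.2 i hm, smul_sub, gr_smul_smul,
    gr_smul_smul, gr_smul_smul, mul_inv_cancel,
    gr_one_smul, map_sub, hΦ _ (conj_mem hs g)]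
  ring

/-- The local contraction operator. -/
noncomputable def Lam (sel : G → G) (c : G → ℂ) :
    ∀ i, Coc G (F.n (i + 1)) → Coc G (F.n i)
  | 0, Θ => liftF (fun g l => c g * Kop F H g (sel g) 0 Θ (bas g l))
  | i + 1, Θ => liftF (fun g l => c g * (Kop F H g (sel g) (i + 1) Θ (bas g l) -
      Lam sel c i (Kop F H g (sel g) (i + 1) Θ) (F.d i (bas g l))))

theorem Lam_zero_bas (sel : G → G) (c : G → ℂ) (Θ : Coc G (F.n 1)) (g : G) (l : Fin (F.n 0)) :
    Lam F H sel c 0 Θ (bas g l) = c g * Kop F H g (sel g) 0 Θ (bas g l) := by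
  rw [Lam, liftF_bas]

theorem Lam_succ_bas (sel : G → G) (c : G → ℂ) (i : ℕ) (Θ : Coc G (F.n (i + 2))) (g : G)
    (l : Fin (F.n (i + 1))) :
    Lam F H sel c (i + 1) Θ (bas g l) = c g * (Kop F H g (sel g) (i + 1) Θ (bas g l) -
      Lam F H sel c i (Kop F H g (sel g) (i + 1) Θ) (F.d i (bas g l))) := by
  rw [Lam, liftF_bas]

theorem Lam_sub (sel : G → G) (c : G → ℂ) : ∀ (i : ℕ) (Θ Θ' : Coc G (F.n (i + 1))),
    Lam F H sel c i (Θ - Θ') = Lam F H sel c i Θ - Lam F H sel c i Θ'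
  | 0, Θ, Θ' => by
    apply hom_ext_bas
    intro g l
    rw [AddMonoidHom.sub_apply, Lam_zero_bas, Lam_zero_bas, Lam_zero_bas, Kop_sub,
      AddMonoidHom.sub_apply]
    ring
  | i + 1, Θ, Θ' => by
    apply hom_ext_bas
    intro g l
    rw [AddMonoidHom.sub_apply, Lam_succ_bas, Lam_succ_bas, Lam_succ_bas, Kop_sub,
      Lam_sub sel c i, AddMonoidHom.sub_apply, AddMonoidHom.sub_apply]
    ring

theorem Lam_sc (sel : G → G) (c : G → ℂ) : ∀ (i : ℕ) (z : ℂ) (Θ : Coc G (F.n (i + 1))),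
    Lam F H sel c i (sc z Θ) = sc z (Lam F H sel c i Θ)
  | 0, z, Θ => by
    apply hom_ext_bas
    intro g l
    rw [sc_apply, Lam_zero_bas, Lam_zero_bas, Kop_sc, sc_apply]
    ring
  | i + 1, z, Θ => by
    apply hom_ext_bas
    intro g l
    rw [sc_apply, Lam_succ_bas, Lam_succ_bas, Kop_sc, Lam_sc sel c i, sc_apply, sc_apply]
    ring

/-- all selected elements have homotopies -/
def SelOk (A : Subgroup G) (sel : G → G) (c : G → ℂ) : Prop :=
  (∀ g, sel g ∈ A) ∧ (∀ a ∈ A, ∀ g, sel (a * g) = sel g) ∧ (∀ a ∈ A, ∀ g, c (a * g) = c g)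

theorem Lam_eqv {y : G → ℂ} (hH : ∀ s ∈ A, HomotProp F A s (H s)) {sel : G → G} {c : G → ℂ}
    (hsel : SelOk A sel c) : ∀ (i : ℕ) (_ : i < m) (Θ : Coc G (F.n (i + 1))) (_ : Eqv A y Θ),
    Eqv A y (Lam F H sel c i Θ)
  | 0, hi, Θ, hΘ => by
    apply eqv_of_bas
    intro a ha g l
    rw [Lam_zero_bas, Lam_zero_bas, hsel.2.1 a ha, hsel.2.2 a ha,
      Kop_left F H (hH _ (hsel.1 g)) ha hi, (Kop_eqv F H (hH _ (hsel.1 g)) hi hΘ).bas ha]
    ring
  | i + 1, hi, Θ, hΘ => by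
    apply eqv_of_bas
    intro a ha g l
    have hK := Kop_eqv F H (hH _ (hsel.1 g)) (g := g) hi hΘ
    have hL := Lam_eqv hH hsel i (by omega) _ hK
    rw [Lam_succ_bas, Lam_succ_bas, hsel.2.1 a ha, hsel.2.2 a ha,
      Kop_left F H (hH _ (hsel.1 g)) ha hi, hK.bas ha, ← smul_bas, map_smul, hL a ha]
    ring

/-- the second term of the homotopy identity -/
noncomputable def prev (sel : G → G) (c : G → ℂ) : ∀ i, Coc G (F.n i) → Coc G (F.n i)
  | 0, _ => 0
  | i + 1, Φ => (Lam F H sel c i Φ).comp (F.d i).toAddMonoidHom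

theorem dd (i : ℕ) (hi : i + 1 < m) (x : FM G (F.n (i + 2))) : F.d i (F.d (i + 1) x) = 0 := by
  have : F.d (i + 1) x ∈ LinearMap.ker (F.d i) := by
    rw [F.hex i hi]
    exact ⟨x, rfl⟩
  exact this

theorem prev_d (sel : G → G) (c : G → ℂ) : ∀ (i : ℕ) (_ : i < m) (Φ : Coc G (F.n i))
    (x : FM G (F.n (i + 1))), prev F H sel c i Φ (F.d i x) = 0
  | 0, _, Φ, x => rfl
  | i + 1, hi, Φ, x => by
    unfold prev
    simp only [AddMonoidHom.comp_apply, LinearMap.toAddMonoidHom_coe]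
    rw [dd F i hi, map_zero]

theorem prev_eqv {y : G → ℂ} (hH : ∀ s ∈ A, HomotProp F A s (H s)) {sel : G → G} {c : G → ℂ}
    (hsel : SelOk A sel c) : ∀ (i : ℕ) (_ : i ≤ m) (Φ : Coc G (F.n i)) (_ : Eqv A y Φ),
    Eqv A y (prev F H sel c i Φ)
  | 0, _, Φ, _ => by
    intro a ha x
    simp [prev]
  | i + 1, hi, Φ, hΦ => by
    intro a ha x
    unfold prev
    simp only [AddMonoidHom.comp_apply, LinearMap.toAddMonoidHom_coe]
    rw [map_smul]
    exact Lam_eqv F H hH hsel i (by omega) Φ hΦ a ha _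

/-- good points of depth `i` -/
def Tn (T : Set G) : ℕ → Set G
  | 0 => T
  | i + 1 => {g | g ∈ T ∧ ∀ l, ∀ b ∈ supp (F.d i (bas (1 : G) l)), g * b ∈ Tn T i}

theorem Tn_sub (T : Set G) : ∀ i, Tn F T i ⊆ T
  | 0 => fun _ h => h
  | _ + 1 => fun _ h => h.1

theorem Lam_id {y : G → ℂ} (hH : ∀ s ∈ A, HomotProp F A s (H s)) {sel : G → G} {c : G → ℂ}
    (hsel : SelOk A sel c) {T : Set G}
    (hT : ∀ g ∈ T, c g * (y (g * sel g * g⁻¹) - 1) = 1) :
    ∀ (i : ℕ) (_ : i < m) (Φ : Coc G (F.n i)) (_ : Eqv A y Φ) (g : G) (_ : g ∈ Tn F T i)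
      (l : Fin (F.n i)),
      Lam F H sel c i (Φ.comp (F.d i).toAddMonoidHom) (bas g l) + prev F H sel c i Φ (bas g l) =
        Φ (bas g l)
  | 0, hi, Φ, hΦ, g, hg, l => by
    rw [Lam_zero_bas, Kop_id0 F H (hsel.1 g) (hH _ (hsel.1 g)) hi hΦ, ← mul_assoc, hT g hg]
    simp [prev]
  | i + 1, hi, Φ, hΦ, g, hg, l => by
    have hs := hsel.1 g
    have hHs := hH _ hs
    set K1 := Kop F H g (sel g) i Φ with hK1
    have hK1e : Eqv A y K1 := Kop_eqv F H hHs (by omega) hΦ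
    have e1 : Kop F H g (sel g) (i + 1) (Φ.comp (F.d (i + 1)).toAddMonoidHom) =
        sc (y (g * sel g * g⁻¹) - 1) Φ - K1.comp (F.d i).toAddMonoidHom := by
      refine DFunLike.ext _ _ (fun x => ?_)
      rw [AddMonoidHom.sub_apply, sc_apply, ← Kop_id F H hs hHs hi hΦ x]
      simp only [AddMonoidHom.comp_apply, LinearMap.toAddMonoidHom_coe]
      ring
    have e2 : Lam F H sel c i (K1.comp (F.d i).toAddMonoidHom) (F.d i (bas g l)) =
        K1 (F.d i (bas g l)) := by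
      have hb : F.d i (bas g l) = gr g • F.d i (bas (1 : G) l) := by
        rw [← map_smul, smul_bas, mul_one]
      have h3 : (Lam F H sel c i (K1.comp (F.d i).toAddMonoidHom) + prev F H sel c i K1)
          (gr g • F.d i (bas (1 : G) l)) = K1 (gr g • F.d i (bas (1 : G) l)) := by
        apply eval_congr
        intro b hb l'
        rw [AddMonoidHom.add_apply]
        exact Lam_id hH hsel hT i (by omega) K1 hK1e (g * b) (hg.2 l b hb) l'
      rw [← hb, AddMonoidHom.add_apply, prev_d F H sel c i (by omega), add_zero] at h3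
      exact h3
    rw [Lam_succ_bas, e1, Lam_sub, Lam_sc, AddMonoidHom.sub_apply, AddMonoidHom.sub_apply,
      sc_apply, sc_apply, e2]
    have hcy := hT g hg.1
    unfold prev
    simp only [AddMonoidHom.comp_apply, LinearMap.toAddMonoidHom_coe]
    linear_combination (Φ (bas g l) - Lam F H sel c i Φ (F.d i (bas g l))) * hcy

theorem Lam_local [DecidableEq G] (S : Finset G) : ∀ i : ℕ, ∃ B : Finset G, ∀ (sel : G → G) (c : G → ℂ),
    (∀ g, sel g ∈ S) → ∀ (Θ : Coc G (F.n (i + 1))) (g : G),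
      (∀ b ∈ B, ∀ l', Θ (bas (g * b) l') = 0) → ∀ l, Lam F H sel c i Θ (bas g l) = 0 := by
  -- locality of the operators K
  have hK : ∀ (i : ℕ) (B' : Finset G), ∃ B : Finset G, ∀ s ∈ S, ∀ (Θ : Coc G (F.n (i + 1)))
      (g : G), (∀ b ∈ B, ∀ l', Θ (bas (g * b) l') = 0) → ∀ b ∈ B', ∀ l,
        Kop F H g s i Θ (bas (g * b) l) = 0 := by
    intro i B'
    refine ⟨S.biUnion (fun s => B'.biUnion (fun b => Finset.univ.biUnion
      (fun l : Fin (F.n i) => supp (H s i (bas b l))))), ?_⟩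
    intro s hs Θ g hΘ b hb l
    rw [Kop_apply, smul_bas, inv_mul_cancel_left]
    apply eval_zero
    intro b' hb' l'
    apply hΘ
    simp only [Finset.mem_biUnion, Finset.mem_univ, true_and]
    exact ⟨s, hs, b, hb, l, hb'⟩
  intro i
  induction i with
  | zero =>
    obtain ⟨B, hB⟩ := hK 0 {1}
    refine ⟨B, ?_⟩
    intro sel c hsel Θ g hΘ l
    rw [Lam_zero_bas]
    have := hB (sel g) (hsel g) Θ g hΘ 1 (by simp) l
    rw [mul_one] at this
    rw [this, mul_zero]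
  | succ i ih =>
    obtain ⟨Bi, hBi⟩ := ih
    let Om : Finset G := Finset.univ.biUnion (fun l : Fin (F.n (i + 1)) =>
      supp (F.d i (bas (1 : G) l)))
    obtain ⟨B, hB⟩ := hK (i + 1) (insert 1 ((Om ×ˢ Bi).image (fun p => p.1 * p.2)))
    refine ⟨B, ?_⟩
    intro sel c hsel Θ g hΘ l
    rw [Lam_succ_bas]
    have h1 := hB (sel g) (hsel g) Θ g hΘ
    have h2 := h1 1 (by simp) l
    rw [mul_one] at h2
    rw [h2, zero_sub]
    have hb : F.d i (bas g l) = gr g • F.d i (bas (1 : G) l) := by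
      rw [← map_smul, smul_bas, mul_one]
    have h3 : Lam F H sel c i (Kop F H g (sel g) (i + 1) Θ) (F.d i (bas g l)) = 0 := by
      rw [hb]
      apply eval_zero
      intro w hw l'
      apply hBi sel c hsel
      intro b' hb' l''
      rw [mul_assoc]
      apply h1
      rw [Finset.mem_insert]
      right
      rw [Finset.mem_image]
      refine ⟨(w, b'), ?_, rfl⟩
      rw [Finset.mem_product]
      refine ⟨?_, hb'⟩
      simp only [Om, Finset.mem_biUnion, Finset.mem_univ, true_and]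
      exact ⟨l, hw⟩
    rw [h3, neg_zero, mul_zero]

end ops

end Pool.Agent.FPm
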