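import Pool.Agent.Lib.MP_f973c6_al.B1
import Pool.Agent.Lib.MP_f973c6_al.B3

/-! Part B: perturbation of characters outside `Σ¹` of a finitely generated metabelian group. -/

set_option autoImplicit false

open MonoidAlgebra

namespace Pool.Agent.FPm

variable {G : Type} [Group G]

/-- The commutator subgroup as a commutative group. -/
@[reducible]
def cgA (hmet : ∀ a ∈ commutator G, ∀ b ∈ commutator G, a * b = b * a) :
    CommGroup ↥(commutator G) :=
  { (inferInstance : Group ↥(commutator G)) with
    mul_comm := fun a b => Subtype.ext (hmet a a.2 b b.2) }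

/-- Conjugation on the commutator subgroup. -/
def actG [CommGroup ↥(commutator G)] (φ : G →* MulAut ↥(commutator G)) :
    G →* AddMonoid.End (Additive ↥(commutator G)) where
  toFun g := 
    { toFun := fun v => Additive.ofMul (φ g (Additive.toMul v))
      map_zero' := by
        rw [toMul_zero, map_one, ofMul_one]
      map_add' := fun v w => by
        rw [toMul_add, map_mul, ofMul_mul] }
  map_one' := by
    ext v
    rw [map_one]
    rfl
  map_mul' g h := by
    ext v
    rw [map_mul]
    rfl

/-- There is a module over the group ring of the abelianization which describes the conjugation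
action on the commutator subgroup. -/
theorem exists_module (hmet : ∀ a ∈ commutator G, ∀ b ∈ commutator G, a * b = b * a) :
    ∃ (V : Type) (_ : AddCommGroup V) (_ : Module (MonoidAlgebra ℤ (Abelianization G)) V)
      (e : V → G), Function.Injective e ∧ (∀ v, e v ∈ commutator G) ∧
      (∀ a ∈ commutator G, ∃ v, e v = a) ∧
      (∀ v w, e (v + w) = e v * e w) ∧ (∀ v, e (-v) = (e v)⁻¹) ∧ e 0 = 1 ∧
      ∀ (g : G) (v : V), e ((single (Abelianization.of g) (1 : ℤ)) • v) = g * e v * g⁻¹ := by
  let _ : CommGroup ↥(commutator G) := cgA hmet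
  let ρ : G →* AddMonoid.End (Additive ↥(commutator G)) := actG MulAut.conjNormal
  have hρ : commutator G ≤ ρ.ker := by
    intro a ha
    rw [MonoidHom.mem_ker]
    refine DFunLike.ext _ _ fun v => ?_
    change Additive.ofMul ((MulAut.conjNormal a) (Additive.toMul v)) = v
    apply Additive.toMul.injective
    apply Subtype.ext
    change ((MulAut.conjNormal a (Additive.toMul v) : ↥(commutator G)) : G) = _
    rw [MulAut.conjNormal_apply, hmet a ha _ (Additive.toMul v).2]
    group
  let ρ' : Abelianization G →* AddMonoid.End (Additive ↥(commutator G)) :=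
    QuotientGroup.lift (commutator G) ρ hρ
  let Φ : MonoidAlgebra ℤ (Abelianization G) →+* AddMonoid.End (Additive ↥(commutator G)) :=
    (MonoidAlgebra.lift ℤ (AddMonoid.End (Additive ↥(commutator G))) (Abelianization G) ρ').toRingHom
  refine ⟨Additive ↥(commutator G), inferInstance, Module.compHom _ Φ,
    fun v => ((Additive.toMul v : ↥(commutator G)) : G), ?_, fun v => (Additive.toMul v).2,
    fun a ha => ⟨Additive.ofMul ⟨a, ha⟩, rfl⟩, fun v w => rfl, fun v => rfl, rfl, ?_⟩
  · intro v w hvw
    exact Additive.toMul.injective (Subtype.ext hvw)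
  intro g v
  have h1 : Φ (single (Abelianization.of g) (1 : ℤ)) = ρ g := by
    change MonoidAlgebra.lift ℤ (AddMonoid.End (Additive ↥(commutator G))) (Abelianization G) ρ'
      (single (Abelianization.of g) (1 : ℤ)) = ρ g
    rw [MonoidAlgebra.lift_single, one_smul]
    rfl
  change ((Additive.toMul ((Φ (single (Abelianization.of g) (1 : ℤ))) v) :
    ↥(commutator G)) : G) = _
  rw [h1]
  change ((MulAut.conjNormal g (Additive.toMul v) : ↥(commutator G)) : G) = _
  rw [MulAut.conjNormal_apply]

/-- A homomorphism to the reals factors through the abelianization. -/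
theorem exists_factor (χ : G → ℝ) (hχ : ∀ g h, χ (g * h) = χ g + χ h) :
    ∃ χQ : Abelianization G → ℝ, (∀ a b, χQ (a * b) = χQ a + χQ b) ∧
      ∀ g, χQ (Abelianization.of g) = χ g := by
  let f : G →* Multiplicative ℝ :=
    { toFun := fun g => Multiplicative.ofAdd (χ g)
      map_one' := by rw [chi_one hχ]; rfl
      map_mul' := fun g h => by rw [hχ g h]; rfl }
  refine ⟨fun q => Multiplicative.toAdd (Abelianization.lift f q), fun a b => ?_, fun g => ?_⟩
  · change Multiplicative.toAdd (Abelianization.lift f (a * b)) = _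
    rw [map_mul]
    rfl
  · change Multiplicative.toAdd (Abelianization.lift f (Abelianization.of g)) = χ g
    rw [Abelianization.lift_apply_of]
    rfl

theorem perturb {G : Type} [Group G] (hfg : Group.FG G)
    (hmet : ∀ a ∈ commutator G, ∀ b ∈ commutator G, a * b = b * a)
    (χ : Additive G →+ ℝ) (hNS : NS χ) :
    ∃ P : Finset G, (∀ p ∈ P, 0 < χ (Additive.ofMul p)) ∧
      ∀ χ' : G → ℤ, IsHomZ χ' → (∀ g, χ (Additive.ofMul g) = 0 → χ' g = 0) →
        (∀ p ∈ P, 0 < χ' p) → (∃ t, 0 < χ' t) ∧ NotFG χ' := by
  classical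
  obtain ⟨V, _, _, e, hinj, hmem, hsurjV, hadd, hneg, hzero, hact⟩ := exists_module hmet
  have hsurj : ∀ q : Abelianization G, ∃ g, Abelianization.of g = q := fun q =>
    QuotientGroup.mk_surjective q
  have hcχ : ∀ g h : G, χ (Additive.ofMul (g * h)) =
      χ (Additive.ofMul g) + χ (Additive.ofMul h) := fun g h => by rw [ofMul_mul, map_add]
  obtain ⟨χQ, hχQ, hχQg⟩ := exists_factor (fun g : G => χ (Additive.ofMul g)) hcχ
  have hfgQ : Monoid.FG (Abelianization G) := by
    have := hfg
    exact Group.fg_iff_monoid_fg.1 (QuotientGroup.fg (commutator G))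
  -- the character is non zero and satisfies AS
  have hb1 : ¬ ((∀ g : G, χ (Additive.ofMul g) = 0) ∨
      ∃ δ : ℝ, 0 < δ ∧ ∀ a ∈ commutator G, a ∈ Subgroup.closure
        {x : G | ∃ h : G, δ ≤ χ (Additive.ofMul h) ∧ x = h * a * h⁻¹}) := fun h =>
    b1 hfg hmet χ h hNS
  have ht : ∃ t, 0 < χQ t := by
    by_contra hcon
    push Not at hcon
    apply hb1
    left
    intro g
    have h1 := hcon (Abelianization.of g)
    have h2 := hcon (Abelianization.of g⁻¹)
    rw [hχQg] at h1 h2
    have h3 : χ (Additive.ofMul g⁻¹) = -χ (Additive.ofMul g) := by rw [ofMul_inv, map_neg]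
    rw [h3] at h2
    linarith
  have hAS : ¬ ∃ f ∈ Module.annihilator (MonoidAlgebra ℤ (Abelianization G)) V,
      OnePlus χQ f := by
    rintro ⟨f, hf, hf1⟩
    apply hb1
    right
    obtain ⟨δ, hδ, hδmin⟩ : ∃ δ : ℝ, 0 < δ ∧ ∀ q, (f - 1).coeff q ≠ 0 → δ ≤ χQ q := by
      rcases (f - 1).coeff.support.eq_empty_or_nonempty with hem | hne
      · refine ⟨1, one_pos, fun q hq => ?_⟩
        have : q ∈ (f - 1).coeff.support := Finsupp.mem_support_iff.2 hq
        rw [hem] at this
        exact absurd this (Finset.notMem_empty _)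
      · obtain ⟨q0, hq0, hmin⟩ := Finset.exists_min_image _ χQ hne
        exact ⟨χQ q0, hf1 q0 (Finsupp.mem_support_iff.1 hq0), fun q hq =>
          hmin q (Finsupp.mem_support_iff.2 hq)⟩
    refine ⟨δ, hδ, fun a ha => ?_⟩
    obtain ⟨v, rfl⟩ := hsurjV a ha
    have h1 : f • v = 0 := Module.mem_annihilator.1 hf v
    have h2 : v = -((f - 1) • v) := by
      rw [sub_smul, one_smul, h1, zero_sub, neg_neg]
    have h3 : v ∈ AddSubgroup.closure {w : V | ∃ q, (f - 1).coeff q ≠ 0 ∧
        w = (single q (1 : ℤ)) • v} := by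
      have h4 := AddSubgroup.neg_mem _ (smul_mem_closure (f - 1) v)
      rw [← h2] at h4
      exact h4
    have h5 : ∀ w ∈ AddSubgroup.closure {w : V | ∃ q, (f - 1).coeff q ≠ 0 ∧
        w = (single q (1 : ℤ)) • v}, e w ∈ Subgroup.closure
          {x : G | ∃ h : G, δ ≤ χ (Additive.ofMul h) ∧ x = h * e v * h⁻¹} := by
      intro w hw
      induction hw using AddSubgroup.closure_induction with
      | mem w hw =>
        obtain ⟨q, hq, rfl⟩ := hw
        obtain ⟨h, rfl⟩ := hsurj q
        rw [hact]
        apply Subgroup.subset_closure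
        refine ⟨h, ?_, rfl⟩
        have := hδmin _ hq
        rwa [hχQg] at this
      | zero => rw [hzero]; exact Subgroup.one_mem _
      | add x y _ _ hx hy => rw [hadd]; exact Subgroup.mul_mem _ hx hy
      | neg x _ hx => rw [hneg]; exact Subgroup.inv_mem _ hx
    exact h5 v h3
  obtain ⟨PQ, hPQ, hPQ'⟩ := b2 _ χQ hχQ ht hAS
  choose out hout using hsurj
  refine ⟨PQ.image out, ?_, ?_⟩
  · intro p hp
    obtain ⟨q, hq, rfl⟩ := Finset.mem_image.1 hp
    rw [← hχQg, hout]
    exact hPQ q hq
  · intro χ' hχ' h0 hpos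
    have hcχ' : ∀ g h : G, ((χ' (g * h) : ℤ) : ℝ) = (χ' g : ℝ) + (χ' h : ℝ) := fun g h => by
      rw [hχ' g h]; push_cast; rfl
    obtain ⟨χQ', hχQ', hχQg'⟩ := exists_factor (fun g : G => (χ' g : ℝ)) hcχ'
    obtain ⟨⟨t, ht'⟩, hAS'⟩ := hPQ' χQ' hχQ'
      (by
        intro q hq
        rw [← hout q] at hq ⊢
        rw [hχQg] at hq
        rw [hχQg']
        exact_mod_cast h0 _ hq)
      (by
        intro p hp
        rw [← hout p, hχQg']
        exact_mod_cast hpos _ (Finset.mem_image_of_mem _ hp))
    refine ⟨⟨out t, ?_⟩, ?_⟩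
    · rw [← hout t, hχQg'] at ht'
      exact_mod_cast ht'
    · intro S hS
      by_contra hcon
      push Not at hcon
      apply hAS'
      choose! lft hlft using hsurjV
      refine b3 χQ' hχQ' t ht' (S.image lft) ?_
      rw [eq_top_iff]
      have key : ∀ x ∈ Subgroup.closure {x : G | ∃ s ∈ S, ∃ g : G, 0 ≤ χ' g ∧ x = g * s * g⁻¹},
          ∀ v, e v = x → v ∈ AddSubgroup.closure {v : V | ∃ s ∈ S.image lft, ∃ q, 0 ≤ χQ' q ∧
              v = (single q (1 : ℤ)) • s} := by
        intro x hx
        have hclA : ∀ y ∈ Subgroup.closure {x : G | ∃ s ∈ S, ∃ g : G, 0 ≤ χ' g ∧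
            x = g * s * g⁻¹}, y ∈ commutator G := by
          intro y hy
          refine (Subgroup.closure_le _).2 ?_ hy
          rintro _ ⟨s, hs, g, _, rfl⟩
          exact (inferInstance : (commutator G).Normal).conj_mem _ (hS s hs) _
        induction hx using Subgroup.closure_induction with
        | mem x hx =>
          obtain ⟨s, hs, g, hg, rfl⟩ := hx
          intro v hv
          apply AddSubgroup.subset_closure
          refine ⟨lft s, Finset.mem_image_of_mem _ hs, Abelianization.of g, ?_, ?_⟩
          · rw [hχQg']; exact_mod_cast hg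
          · apply hinj
            rw [hact, hv, hlft s (hS s hs)]
        | one =>
          intro v hv
          have : v = 0 := hinj (by rw [hv, hzero])
          rw [this]
          exact AddSubgroup.zero_mem _
        | mul x y hx' hy' hx hy =>
          intro v hv
          have h1 := hlft x (hclA x hx')
          have h2 := hlft y (hclA y hy')
          have : v = lft x + lft y := hinj (by rw [hv, hadd, h1, h2])
          rw [this]
          exact AddSubgroup.add_mem _ (hx _ h1) (hy _ h2)
        | inv x hx' hx =>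
          intro v hv
          have h1 := hlft x (hclA x hx')
          have : v = -lft x := hinj (by rw [hv, hneg, h1])
          rw [this]
          exact AddSubgroup.neg_mem _ (hx _ h1)
      intro v _
      exact key (e v) (hcon _ (hmem v)) v rfl

end Pool.Agent.FPm
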