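import Pool.Agent.Lib.MP_f973c6_al.Defs

set_option autoImplicit false

namespace Pool.Agent.FPm

/-! Part D: reduction to a minimal positive relation between integer characters. -/

theorem clear_den {ι : Type} [Fintype ι] (q : ι → ℚ) :
    ∃ D : ℕ, 0 < D ∧ ∃ w : ι → ℤ, ∀ j, (w j : ℚ) = D * q j := by
  classical
  refine ⟨∏ j, (q j).den, Finset.prod_pos (fun j _ => (q j).den_pos), ?_⟩
  have h : ∀ j, ∃ w : ℤ, (w : ℚ) = ((∏ j, (q j).den : ℕ) : ℚ) * q j := by
    intro j
    obtain ⟨m, hm⟩ := Finset.dvd_prod_of_mem (fun j => (q j).den) (Finset.mem_univ j)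
    refine ⟨m * (q j).num, ?_⟩
    rw [hm]
    push_cast
    have h1 : ((q j).den : ℚ) * q j = (q j).num := by
      rw [mul_comm]; exact Rat.mul_den_eq_num (q j)
    calc (m : ℚ) * (q j).num = m * (((q j).den : ℚ) * q j) := by rw [h1]
      _ = _ := by ring
  choose w hw using h
  exact ⟨w, hw⟩

variable {G : Type} [Group G]

/-- additive version of an integer character -/
def IsHomZ.toAdd {χ : G → ℤ} (h : IsHomZ χ) : Additive G →+ ℤ :=
  AddMonoidHom.mk' (fun x => χ x.toMul) (fun a b => h a.toMul b.toMul)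

theorem IsHomZ.zpow {χ : G → ℤ} (h : IsHomZ χ) (g : G) (n : ℤ) : χ (g ^ n) = n * χ g := by
  have := map_zsmul h.toAdd n (Additive.ofMul g)
  rw [smul_eq_mul] at this
  exact this

theorem IsHomZ.one {χ : G → ℤ} (h : IsHomZ χ) : χ 1 = 0 := map_zero h.toAdd

/-- rational approximation of a finitely generated subgroup of the reals -/
theorem exists_theta (U : Submodule ℤ ℝ) [Module.Finite ℤ U] (X : Finset U)
    (hX : ∀ x ∈ X, 0 < (x : ℝ)) : ∃ θ : U →ₗ[ℤ] ℤ, ∀ x ∈ X, 0 < θ x := by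
  classical
  let b := Module.Free.chooseBasis ℤ U
  let ι := Module.Free.ChooseBasisIndex ℤ U
  let O : Set (ι → ℝ) := {w | ∀ x ∈ X, 0 < ∑ j, ((b.repr x j : ℤ) : ℝ) * w j}
  have hO : IsOpen O := by
    have : O = ⋂ x ∈ X, {w : ι → ℝ | 0 < ∑ j, ((b.repr x j : ℤ) : ℝ) * w j} := by
      ext w; simp [O]
    rw [this]
    refine isOpen_biInter_finset (fun x _ => ?_)
    exact isOpen_lt continuous_const (by fun_prop)
  have hne : O.Nonempty := by
    refine ⟨fun j => ((b j : U) : ℝ), ?_⟩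
    intro x hx
    have h1 := b.sum_repr x
    have h2 : (∑ j, ((b.repr x j : ℤ) : ℝ) * ((b j : U) : ℝ)) = (x : ℝ) := by
      conv_rhs => rw [← h1]
      rw [AddSubmonoidClass.coe_finsetSum]
      refine Finset.sum_congr rfl (fun j _ => ?_)
      rw [Submodule.coe_smul, zsmul_eq_mul]
    rw [h2]
    exact hX x hx
  have hd : DenseRange (fun (q : ι → ℚ) (j : ι) => ((q j : ℚ) : ℝ)) :=
    DenseRange.piMap (fun _ => Rat.denseRange_cast)
  obtain ⟨q, hq⟩ := hd.exists_mem_open hO hne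
  obtain ⟨D, hD, w, hw⟩ := clear_den q
  refine ⟨b.constr ℤ w, ?_⟩
  intro x hx
  have h1 : (b.constr ℤ w) x = ∑ j, b.repr x j * w j := by
    rw [Module.Basis.constr_apply_fintype]
    refine Finset.sum_congr rfl (fun j _ => ?_)
    rw [smul_eq_mul]
    rfl
  have h2 : (((b.constr ℤ w) x : ℤ) : ℝ) = D * ∑ j, ((b.repr x j : ℤ) : ℝ) * (q j : ℝ) := by
    rw [h1, Finset.mul_sum]
    push_cast
    refine Finset.sum_congr rfl (fun j _ => ?_)
    have h3 : ((w j : ℤ) : ℝ) = D * (q j : ℝ) := by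
      have := congrArg (fun t : ℚ => (t : ℝ)) (hw j)
      push_cast at this
      exact this
    rw [h3]
    ring
  have h4 : (0 : ℝ) < (((b.constr ℤ w) x : ℤ) : ℝ) := by
    rw [h2]
    have := hq x hx
    positivity
  exact_mod_cast h4

/-- a family of good integer characters with a positive relation -/
def Fam (G : Type) [Group G] (Good : (G → ℤ) → Prop) (r : ℕ) : Prop :=
  1 ≤ r ∧ ∃ ψ : Fin r → G → ℤ, (∀ i, IsHomZ (ψ i)) ∧ (∀ i, Good (ψ i)) ∧
    (∀ i, ∃ t, 0 < ψ i t) ∧ ∃ a : Fin r → ℚ, (∀ i, 0 < a i) ∧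
      ∀ g, ∑ i, a i * (ψ i g : ℚ) = 0

/-- passing to the support of a nonnegative relation -/
theorem Fam.sub (Good : (G → ℤ) → Prop) (n : ℕ) (ψ : Fin n → G → ℤ) (a : Fin n → ℚ)
    (ha : ∀ i, 0 ≤ a i) (hne : ∃ i, a i ≠ 0)
    (hψ : ∀ i, a i ≠ 0 → IsHomZ (ψ i) ∧ Good (ψ i) ∧ ∃ t, 0 < ψ i t)
    (hrel : ∀ g, ∑ i, a i * (ψ i g : ℚ) = 0) :
    ∃ r, Fam G Good r ∧ r ≤ n ∧ ((∃ i, a i = 0) → r < n) := by
  classical
  set T : Finset (Fin n) := Finset.univ.filter (fun i => a i ≠ 0) with hT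
  have hmem : ∀ i, i ∈ T ↔ a i ≠ 0 := fun i => by simp [hT]
  let e : Fin T.card ≃ T := T.equivFin.symm
  refine ⟨T.card, ⟨?_, fun i => ψ (e i), ?_, ?_, ?_, fun i => a (e i), ?_, ?_⟩, ?_, ?_⟩
  · obtain ⟨i, hi⟩ := hne
    exact Finset.card_pos.mpr ⟨i, (hmem i).mpr hi⟩
  · intro i
    exact (hψ _ ((hmem _).mp (e i).2)).1
  · intro i
    exact (hψ _ ((hmem _).mp (e i).2)).2.1
  · intro i
    exact (hψ _ ((hmem _).mp (e i).2)).2.2
  · intro i
    exact lt_of_le_of_ne (ha _) (Ne.symm ((hmem _).mp (e i).2))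
  · intro g
    have h1 : ∑ i : Fin T.card, a (e i) * (ψ (e i) g : ℚ) = ∑ i : T, a i * (ψ i g : ℚ) :=
      Equiv.sum_comp e (fun i : T => a i * (ψ i g : ℚ))
    rw [h1, Finset.sum_coe_sort T (fun i => a i * (ψ i g : ℚ))]
    rw [← hrel g]
    refine Finset.sum_subset (Finset.subset_univ T) (fun i _ hi => ?_)
    have : a i = 0 := by
      by_contra h
      exact hi ((hmem i).mpr h)
    rw [this, zero_mul]
  · have := Finset.card_le_univ T
    rwa [Fintype.card_fin] at this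
  · rintro ⟨i, hi⟩
    have h1 : T ⊂ Finset.univ := by
      rw [Finset.ssubset_univ_iff]
      intro h
      have : i ∈ T := by rw [h]; exact Finset.mem_univ i
      exact (hmem i).mp this hi
    have := Finset.card_lt_card h1
    rwa [Finset.card_univ, Fintype.card_fin] at this

/-- normalisation of an integer character -/
theorem normalise {χ : G → ℤ} (h : IsHomZ χ) (ht : ∃ t, 0 < χ t) :
    ∃ (n : ℤ) (χ' : G → ℤ), 0 < n ∧ IsHomZ χ' ∧ (∀ g, χ g = n * χ' g) ∧ ∃ t, χ' t = 1 := by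
  obtain ⟨c, hc⟩ := Int.subgroup_cyclic (h.toAdd.range)
  have hval : ∀ g, ∃ m : ℤ, χ g = m * c := by
    intro g
    have h1 : χ g ∈ h.toAdd.range := ⟨Additive.ofMul g, rfl⟩
    rw [hc, AddSubgroup.mem_closure_singleton] at h1
    obtain ⟨m, hm⟩ := h1
    exact ⟨m, by rw [← hm, smul_eq_mul]⟩
  have hcm : ∃ t, χ t = c := by
    have h1 : c ∈ h.toAdd.range := by
      rw [hc]; exact AddSubgroup.mem_closure_singleton_self c
    obtain ⟨t, ht⟩ := h1
    exact ⟨t.toMul, ht⟩
  have hc0 : c ≠ 0 := by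
    rintro rfl
    obtain ⟨t, ht⟩ := ht
    obtain ⟨m, hm⟩ := hval t
    rw [mul_zero] at hm
    omega
  have key : ∀ n : ℤ, 0 < n → (∀ g, ∃ m : ℤ, χ g = n * m) → (∃ t, χ t = n) →
      ∃ (n : ℤ) (χ' : G → ℤ), 0 < n ∧ IsHomZ χ' ∧ (∀ g, χ g = n * χ' g) ∧ ∃ t, χ' t = 1 := by
    intro n hn hm ht
    choose χ' hχ' using hm
    refine ⟨n, χ', hn, ?_, hχ', ?_⟩
    · intro g g'
      have h1 := h g g'
      rw [hχ' g, hχ' g', hχ' (g * g'), ← mul_add] at h1
      exact mul_left_cancel₀ hn.ne' h1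
    · obtain ⟨t, ht⟩ := ht
      refine ⟨t, ?_⟩
      rw [hχ' t] at ht
      exact mul_left_cancel₀ hn.ne' (by rw [ht, mul_one])
  rcases lt_or_gt_of_ne hc0 with hlt | hgt
  · refine key (-c) (by omega) ?_ ?_
    · intro g
      obtain ⟨m, hm⟩ := hval g
      exact ⟨-m, by rw [hm]; ring⟩
    · obtain ⟨t, ht⟩ := hcm
      refine ⟨t⁻¹, ?_⟩
      have h1 := h t t⁻¹
      rw [mul_inv_cancel, h.one, ht] at h1
      omega
  · refine key c hgt ?_ hcm
    intro g
    obtain ⟨m, hm⟩ := hval g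
    exact ⟨m, by rw [hm]; ring⟩

/-- the elements of the rational span of the value vectors are fractions of value vectors -/
theorem span_frac {r : ℕ} (ψ : Fin r → G → ℤ) (hψ : ∀ i, IsHomZ (ψ i)) (v : Fin r → ℚ)
    (hv : v ∈ Submodule.span ℚ (Set.range (fun (g : G) (i : Fin r) => (ψ i g : ℚ)))) :
    ∃ N : ℕ, 0 < N ∧ ∃ g : G, ∀ i, (ψ i g : ℚ) = N * v i := by
  induction hv using Submodule.span_induction with
  | mem x hx =>
    obtain ⟨g, rfl⟩ := hx
    exact ⟨1, one_pos, g, fun i => by simp⟩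
  | zero => exact ⟨1, one_pos, 1, fun i => by simp [(hψ i).one]⟩
  | add x y _ _ hx hy =>
    obtain ⟨N, hN, g, hg⟩ := hx
    obtain ⟨M, hM, h, hh⟩ := hy
    refine ⟨N * M, Nat.mul_pos hN hM, g ^ (M : ℤ) * h ^ (N : ℤ), fun i => ?_⟩
    rw [hψ i, (hψ i).zpow, (hψ i).zpow, Pi.add_apply]
    push_cast
    rw [hg i, hh i]
    ring
  | smul q x _ hx =>
    obtain ⟨N, hN, g, hg⟩ := hx
    refine ⟨q.den * N, Nat.mul_pos q.den_pos hN, g ^ q.num, fun i => ?_⟩
    rw [(hψ i).zpow, Pi.smul_apply, smul_eq_mul]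
    push_cast
    rw [hg i]
    have h1 : (q.den : ℚ) * q = q.num := by rw [mul_comm]; exact Rat.mul_den_eq_num q
    calc (q.num : ℚ) * (N * x i) = ((q.den : ℚ) * q) * (N * x i) := by rw [h1]
      _ = _ := by ring

/-- in a minimal family a relation with a vanishing coefficient is trivial -/
theorem minimal_indep (Good : (G → ℤ) → Prop) (r : ℕ) (ψ : Fin r → G → ℤ)
    (hψ : ∀ i, IsHomZ (ψ i)) (hG : ∀ i, Good (ψ i)) (hpos : ∀ i, ∃ t, 0 < ψ i t)
    (a : Fin r → ℚ) (ha : ∀ i, 0 < a i) (hrel : ∀ g, ∑ i, a i * (ψ i g : ℚ) = 0)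
    (hmin : ∀ r', Fam G Good r' → r ≤ r')
    (b : Fin r → ℚ) (hb : ∀ g, ∑ i, b i * (ψ i g : ℚ) = 0) (i₀ : Fin r) (hi₀ : b i₀ = 0) :
    ∀ i, b i = 0 := by
  classical
  -- the case where some coefficient is positive is impossible
  have key : ∀ b : Fin r → ℚ, (∀ g, ∑ i, b i * (ψ i g : ℚ) = 0) → b i₀ = 0 →
      ∀ i, ¬ 0 < b i := by
    intro b hb hi₀ i hi
    set P : Finset (Fin r) := Finset.univ.filter (fun i => 0 < b i) with hP
    have hPne : P.Nonempty := ⟨i, by simp [hP, hi]⟩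
    obtain ⟨i₁, hi₁, hmin₁⟩ := Finset.exists_min_image P (fun i => a i / b i) hPne
    have hb₁ : 0 < b i₁ := by
      rw [hP, Finset.mem_filter] at hi₁; exact hi₁.2
    let a' : Fin r → ℚ := fun i => b i₁ * a i - a i₁ * b i
    have ha'0 : ∀ i, 0 ≤ a' i := by
      intro j
      by_cases hj : 0 < b j
      · have h1 := hmin₁ j (by simp [hP, hj])
        rw [div_le_div_iff₀ hb₁ hj] at h1
        simp only [a']
        linarith
      · push Not at hj
        have h1 : 0 < b i₁ * a j := mul_pos hb₁ (ha j)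
        have h2 : a i₁ * b j ≤ 0 := mul_nonpos_of_nonneg_of_nonpos (ha i₁).le hj
        simp only [a']
        linarith
    have ha'ne : a' i₀ ≠ 0 := by
      have h1 : 0 < b i₁ * a i₀ := mul_pos hb₁ (ha i₀)
      simp only [a', hi₀, mul_zero, sub_zero]
      exact h1.ne'
    have ha'1 : a' i₁ = 0 := by
      simp only [a']; ring
    have hrel' : ∀ g, ∑ i, a' i * (ψ i g : ℚ) = 0 := by
      intro g
      have h1 : ∑ i, a' i * (ψ i g : ℚ) =
          b i₁ * ∑ i, a i * (ψ i g : ℚ) - a i₁ * ∑ i, b i * (ψ i g : ℚ) := by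
        rw [Finset.mul_sum, Finset.mul_sum, ← Finset.sum_sub_distrib]
        refine Finset.sum_congr rfl (fun j _ => ?_)
        simp only [a']; ring
      rw [h1, hrel g, hb g]; ring
    obtain ⟨r', hF, -, hlt⟩ := Fam.sub Good r ψ a' ha'0 ⟨i₀, ha'ne⟩
      (fun i _ => ⟨hψ i, hG i, hpos i⟩) hrel'
    have h1 := hlt ⟨i₁, ha'1⟩
    have h2 := hmin r' hF
    omega
  intro i
  have h1 := key b hb hi₀ i
  have h2 := key (fun i => - b i) (fun g => by
    have : ∑ i, -b i * (ψ i g : ℚ) = - ∑ i, b i * (ψ i g : ℚ) := by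
      rw [← Finset.sum_neg_distrib]
      exact Finset.sum_congr rfl (fun j _ => by ring)
    rw [this, hb g, neg_zero]) (by simp [hi₀]) i
  simp only [Left.neg_pos_iff] at h2
  exact le_antisymm (not_lt.mp h1) (not_lt.mp h2)

/-- dual elements of a minimal family -/
theorem minimal_dual (Good : (G → ℤ) → Prop) (r : ℕ) (ψ : Fin r → G → ℤ)
    (hψ : ∀ i, IsHomZ (ψ i)) (hG : ∀ i, Good (ψ i)) (hpos : ∀ i, ∃ t, 0 < ψ i t)
    (a : Fin r → ℚ) (ha : ∀ i, 0 < a i) (hrel : ∀ g, ∑ i, a i * (ψ i g : ℚ) = 0)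
    (hmin : ∀ r', Fam G Good r' → r ≤ r') (l j : Fin r) (hlj : l ≠ j) :
    ∃ b : G, 0 < ψ l b ∧ ψ j b < 0 ∧ ∀ i, i ≠ l → i ≠ j → ψ i b = 0 := by
  classical
  set W : Submodule ℚ (Fin r → ℚ) :=
    Submodule.span ℚ (Set.range (fun (g : G) (i : Fin r) => (ψ i g : ℚ))) with hW
  let v : Fin r → ℚ := fun i => if i = l then a j else if i = j then - a l else 0
  have hvW : v ∈ W := by
    by_contra hcon
    obtain ⟨f, hfv, hfW⟩ := Submodule.exists_le_ker_of_notMem hcon
    let c : Fin r → ℚ := fun i => f (Pi.single i 1)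
    have hf : ∀ x : Fin r → ℚ, f x = ∑ i, c i * x i := by
      intro x
      rw [LinearMap.pi_apply_eq_sum_univ f x]
      refine Finset.sum_congr rfl (fun i _ => ?_)
      rw [smul_eq_mul, mul_comm]
      congr 2
      funext k
      rw [Pi.single_apply]
      simp only [eq_comm]
    have hcrel : ∀ g, ∑ i, c i * (ψ i g : ℚ) = 0 := by
      intro g
      have h1 : (fun (i : Fin r) => (ψ i g : ℚ)) ∈ W := Submodule.subset_span ⟨g, rfl⟩
      have h2 := hfW h1
      rw [LinearMap.mem_ker, hf] at h2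
      exact h2
    have haj : a j ≠ 0 := (ha j).ne'
    have hb := minimal_indep Good r ψ hψ hG hpos a ha hrel hmin
      (fun i => c i - c j / a j * a i) (fun g => by
        have h1 : ∑ i, (c i - c j / a j * a i) * (ψ i g : ℚ) =
            ∑ i, c i * (ψ i g : ℚ) - c j / a j * ∑ i, a i * (ψ i g : ℚ) := by
          rw [Finset.mul_sum, ← Finset.sum_sub_distrib]
          exact Finset.sum_congr rfl (fun j _ => by ring)
        rw [h1, hcrel g, hrel g]; ring) j (by field_simp; ring)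
    apply hfv
    rw [hf v]
    have h1 : ∀ i, c i * v i = if i = l then c j / a j * a l * a j else
        if i = j then - (c j / a j * a l * a j) else 0 := by
      intro i
      have h2 := hb i
      simp only [v]
      by_cases hil : i = l
      · rw [if_pos hil, if_pos hil]
        rw [hil] at h2 ⊢
        have : c l = c j / a j * a l := by linarith
        rw [this]
      · rw [if_neg hil, if_neg hil]
        by_cases hij : i = j
        · rw [if_pos hij, if_pos hij, hij]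
          field_simp
        · rw [if_neg hij, if_neg hij, mul_zero]
    rw [Finset.sum_congr rfl (fun i _ => h1 i)]
    have h3 : ∀ i : Fin r, (if i = l then c j / a j * a l * a j else
        if i = j then - (c j / a j * a l * a j) else 0) =
        (if i = l then c j / a j * a l * a j else 0) +
        (if i = j then - (c j / a j * a l * a j) else 0) := by
      intro i
      by_cases hil : i = l
      · have hij : i ≠ j := fun h => hlj (hil ▸ h)
        simp [hil, hlj]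
      · simp [hil]
    rw [Finset.sum_congr rfl (fun i _ => h3 i), Finset.sum_add_distrib]
    simp
  obtain ⟨N, hN, g, hg⟩ := span_frac ψ hψ v hvW
  have hNq : (0 : ℚ) < N := by exact_mod_cast hN
  refine ⟨g, ?_, ?_, ?_⟩
  · have h1 : (ψ l g : ℚ) = N * a j := by rw [hg l]; simp [v]
    have h2 : (0 : ℚ) < (ψ l g : ℚ) := by rw [h1]; exact mul_pos hNq (ha j)
    exact_mod_cast h2
  · have h1 : (ψ j g : ℚ) = - (N * a l) := by rw [hg j]; simp [v, Ne.symm hlj]
    have h2 : (ψ j g : ℚ) < 0 := by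
      rw [h1]
      have := mul_pos hNq (ha l)
      linarith
    exact_mod_cast h2
  · intro i hil hij
    have h1 : (ψ i g : ℚ) = 0 := by rw [hg i]; simp [v, hil, hij]
    exact_mod_cast h1

/-- Part D (linear algebra). -/
theorem reduction {G : Type} [Group G] (hfg : Group.FG G) (k : ℕ)
    (χ : Fin k → (Additive G →+ ℝ)) (c : Fin k → ℝ) (hc : ∀ i, 0 ≤ c i) (hc0 : ∃ i, c i ≠ 0)
    (hrel : ∀ g : G, ∑ i, c i * χ i (Additive.ofMul g) = 0)
    (Good : (G → ℤ) → Prop)
    (hscale : ∀ (χ' : G → ℤ) (n : ℤ), IsHomZ χ' → 0 < n → Good (fun g => n * χ' g) → Good χ')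
    (hpert : ∀ i, ∃ P : Finset G, (∀ p ∈ P, 0 < χ i (Additive.ofMul p)) ∧
      ∀ χ' : G → ℤ, IsHomZ χ' → (∀ g, χ i (Additive.ofMul g) = 0 → χ' g = 0) →
        (∀ p ∈ P, 0 < χ' p) → (∃ t, 0 < χ' t) ∧ Good χ') :
    ∃ (r : ℕ) (_ : 1 ≤ r) (_ : r ≤ k) (ψ : Fin r → G → ℤ), GoodFamily G r ψ ∧ ∀ i, Good (ψ i) := by
  classical
  choose P hP hPg using hpert
  -- the finitely generated group of values
  obtain ⟨S, hS⟩ := Group.fg_def.mp hfg
  let V : Finset ℝ := (Finset.univ ×ˢ S).image (fun q : Fin k × G => c q.1 * χ q.1 (Additive.ofMul q.2))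
  let U : Submodule ℤ ℝ := Submodule.span ℤ (V : Set ℝ)
  have hU : ∀ i g, c i * χ i (Additive.ofMul g) ∈ U := by
    intro i g
    have hg : g ∈ Subgroup.closure (S : Set G) := by rw [hS]; exact Subgroup.mem_top g
    induction hg using Subgroup.closure_induction with
    | mem x hx =>
      refine Submodule.subset_span ?_
      rw [Finset.mem_coe, Finset.mem_image]
      exact ⟨(i, x), Finset.mem_product.mpr ⟨Finset.mem_univ _, hx⟩, rfl⟩
    | one => simp
    | mul x y _ _ hx hy =>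
      rw [ofMul_mul, map_add, mul_add]
      exact U.add_mem hx hy
    | inv x _ hx =>
      rw [ofMul_inv, map_neg, mul_neg]
      exact U.neg_mem hx
  have : Module.Finite ℤ U := Module.Finite.iff_fg.mpr ⟨V, rfl⟩
  let X : Finset U := ((Finset.univ.filter (fun i => c i ≠ 0)).biUnion (fun i =>
    (P i).image (fun p => (⟨c i * χ i (Additive.ofMul p), hU i p⟩ : U))))
  obtain ⟨θ, hθ⟩ := exists_theta U X (by
    intro x hx
    simp only [X, Finset.mem_biUnion, Finset.mem_filter, Finset.mem_univ, true_and,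
      Finset.mem_image] at hx
    obtain ⟨i, hi, p, hp, rfl⟩ := hx
    exact mul_pos (lt_of_le_of_ne (hc i) (Ne.symm hi)) (hP i p hp))
  let ψ : Fin k → G → ℤ := fun i g => θ ⟨c i * χ i (Additive.ofMul g), hU i g⟩
  have hψ : ∀ i, IsHomZ (ψ i) := by
    intro i g h
    simp only [ψ]
    rw [← map_add]
    congr 1
    apply Subtype.ext
    simp only [Submodule.coe_add]
    rw [ofMul_mul, map_add, mul_add]
  have hsum : ∀ g, ∑ i, (ψ i g : ℤ) = 0 := by
    intro g
    simp only [ψ]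
    rw [← map_sum]
    have : (∑ i, (⟨c i * χ i (Additive.ofMul g), hU i g⟩ : U)) = 0 := by
      apply Subtype.ext
      rw [AddSubmonoidClass.coe_finsetSum]
      simp only [Submodule.coe_zero]
      exact hrel g
    rw [this, map_zero]
  have hzero : ∀ i, c i = 0 → ∀ g, ψ i g = 0 := by
    intro i hi g
    simp only [ψ]
    have : (⟨c i * χ i (Additive.ofMul g), hU i g⟩ : U) = 0 := by
      apply Subtype.ext
      simp [hi]
    rw [this, map_zero]
  have hgood : ∀ i, c i ≠ 0 → (∃ t, 0 < ψ i t) ∧ Good (ψ i) := by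
    intro i hi
    refine hPg i (ψ i) (hψ i) ?_ ?_
    · intro g hg
      simp only [ψ]
      have : (⟨c i * χ i (Additive.ofMul g), hU i g⟩ : U) = 0 := by
        apply Subtype.ext
        simp [hg]
      rw [this, map_zero]
    · intro p hp
      apply hθ
      simp only [X, Finset.mem_biUnion, Finset.mem_filter, Finset.mem_univ, true_and,
        Finset.mem_image]
      exact ⟨i, hi, p, hp, rfl⟩
  -- a first family
  let a₀ : Fin k → ℚ := fun i => if c i = 0 then 0 else 1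
  have ha₀ : ∀ i, a₀ i ≠ 0 ↔ c i ≠ 0 := by
    intro i
    by_cases h : c i = 0 <;> simp [a₀, h]
  obtain ⟨r₀, hF₀, hr₀, -⟩ := Fam.sub Good k ψ a₀ (fun i => by
      by_cases h : c i = 0 <;> simp [a₀, h])
    (by obtain ⟨i, hi⟩ := hc0; exact ⟨i, (ha₀ i).mpr hi⟩)
    (fun i hi => ⟨hψ i, (hgood i ((ha₀ i).mp hi)).2, (hgood i ((ha₀ i).mp hi)).1⟩)
    (fun g => by
      have h1 : ∀ i, a₀ i * (ψ i g : ℚ) = (ψ i g : ℚ) := by
        intro i
        by_cases h : c i = 0
        · rw [hzero i h g]; simp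
        · simp [a₀, h]
      rw [Finset.sum_congr rfl (fun i _ => h1 i)]
      exact_mod_cast hsum g)
  -- the minimal family
  have hex : ∃ r, Fam G Good r := ⟨r₀, hF₀⟩
  set r := Nat.find hex with hr
  have hFr : Fam G Good r := Nat.find_spec hex
  have hmin : ∀ r', Fam G Good r' → r ≤ r' := fun r' h => Nat.find_min' hex h
  have hrk : r ≤ k := (hmin r₀ hF₀).trans hr₀
  obtain ⟨hr1, φ, hφ, hφG, hφpos, a, ha, hrelφ⟩ := hFr
  -- normalisation
  have hnorm := fun i => normalise (hφ i) (hφpos i)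
  choose n φ' hn hφ' hφφ' hφ't using hnorm
  have hG' : ∀ i, Good (φ' i) := fun i => hscale (φ' i) (n i) (hφ' i) (hn i) (by
    have : (fun g => n i * φ' i g) = φ i := by funext g; exact (hφφ' i g).symm
    rw [this]; exact hφG i)
  have hpos' : ∀ i, ∃ t, 0 < φ' i t := fun i => by
    obtain ⟨t, ht⟩ := hφ't i
    exact ⟨t, by rw [ht]; norm_num⟩
  let a' : Fin r → ℚ := fun i => a i * n i
  have ha' : ∀ i, 0 < a' i := fun i => mul_pos (ha i) (by exact_mod_cast hn i)
  have hrel' : ∀ g, ∑ i, a' i * (φ' i g : ℚ) = 0 := by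
    intro g
    rw [← hrelφ g]
    refine Finset.sum_congr rfl (fun i _ => ?_)
    rw [hφφ' i g]
    simp only [a']
    push_cast
    ring
  refine ⟨r, hr1, hrk, φ', ⟨hφ', hφ't, ?_, ?_⟩, hG'⟩
  · obtain ⟨D, hD, w, hw⟩ := clear_den a'
    have hDq : (0 : ℚ) < D := by exact_mod_cast hD
    refine ⟨w, fun i => ?_, fun g => ?_⟩
    · have h1 : (0 : ℚ) < (w i : ℚ) := by rw [hw i]; exact mul_pos hDq (ha' i)
      exact_mod_cast h1
    · have h1 : ((∑ i, w i * φ' i g : ℤ) : ℚ) = D * ∑ i, a' i * (φ' i g : ℚ) := by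
        rw [Finset.mul_sum]
        push_cast
        refine Finset.sum_congr rfl (fun i _ => ?_)
        rw [hw i]; ring
      rw [hrel' g, mul_zero] at h1
      exact_mod_cast h1
  · intro l j hlj
    exact minimal_dual Good r φ' hφ' hG' hpos' a' ha' hrel' hmin l j hlj

end Pool.Agent.FPm

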