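import Pool.Agent.Lib.MP_f973c6_al.Core
import Pool.Agent.Lib.MP_f973c6_al.Perturb
import Pool.Agent.Lib.MP_f973c6_al.CharData
import Pool.Agent.Lib.MP_f973c6_al.Reduction

/-! The only-if half (same text as `Results/MP_f973c6_al/OnlyIf.lean`), as a library file. -/

set_option autoImplicit false

namespace Pool.Agent.FPm.OnlyIfMain

open Pool.Agent.FPm

theorem comm_of_derived {G : Type} [Group G] (h2 : derivedSeries G 2 = ⊥) :
    ∀ a ∈ commutator G, ∀ b ∈ commutator G, a * b = b * a := by
  intro a ha b hb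
  have h : ⁅derivedSeries G 1, derivedSeries G 1⁆ = ⊥ := by
    rw [← h2]; rfl
  rw [derivedSeries_one] at h
  have := Subgroup.commutator_mem_commutator ha hb
  rw [h, Subgroup.mem_bot, commutatorElement_eq_one_iff_mul_comm] at this
  exact this

theorem notFG_scale {G : Type} [Group G] (χ' : G → ℤ) (n : ℤ) (_ : IsHomZ χ') (hn : 0 < n)
    (h : NotFG (fun g => n * χ' g)) : NotFG χ' := by
  intro S hS
  obtain ⟨a, ha, h⟩ := h S hS
  refine ⟨a, ha, ?_⟩
  have : {x : G | ∃ s ∈ S, ∃ g : G, 0 ≤ χ' g ∧ x = g * s * g⁻¹} =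
      {x : G | ∃ s ∈ S, ∃ g : G, 0 ≤ n * χ' g ∧ x = g * s * g⁻¹} := by
    ext x
    simp only [Set.mem_setOf_eq, mul_nonneg_iff_of_pos_left hn]
  rw [this]; exact h

theorem main (G : Type) [Group G] (hfg : Group.FG G) (h2 : derivedSeries G 2 = ⊥) (m : ℕ)
    (hFP : FPcond G m) : TameCond G m := by
  intro k hk χ hχ ⟨c, hc, hc0, hrel⟩
  have hmet := comm_of_derived h2
  obtain ⟨r, hr, hrk, ψ, hgood, hψ⟩ := reduction hfg k χ c hc hc0 hrel NotFG notFG_scale
    (fun i => perturb hfg hmet (χ i) (hχ i).2)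
  refine core (commutator G) hmet m hFP r hr (hrk.trans hk) ψ hgood ?_ ?_
  · intro i a ha
    have hhom := hgood.hom i
    let f : G →* Multiplicative ℤ :=
      { toFun := fun g => Multiplicative.ofAdd (ψ i g)
        map_one' := by
          have := hhom 1 1
          simp only [mul_one] at this
          rw [show ψ i 1 = 0 by omega]; rfl
        map_mul' := fun g h => by rw [hhom g h]; rfl }
    have hle : commutator G ≤ f.ker := Abelianization.commutator_subset_ker f
    have := hle ha
    rw [MonoidHom.mem_ker] at this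
    exact Multiplicative.ofAdd.injective this
  · intro i
    exact charData hfg hmet (ψ i) (hgood.hom i) (hgood.surj i) (hψ i)

end Pool.Agent.FPm.OnlyIfMain
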